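import Pool.Agent.Helper65.OneSys.Stab

open UpperHalfPlane Matrix
open scoped MatrixGroups Pointwise

namespace OneSys

theorem Adj.form_one : ca 1 = 1 ∧ cb 1 = -1 ∧ cc 1 = -1 := by
  refine ⟨?_, ?_, ?_⟩ <;> simp [ca, cb, cc]

theorem Adj.form_gB : ca gB = 1 ∧ cb gB = 1 ∧ cc gB = -1 := by
  have h : rho gB⁻¹ = ⟨!![1, 0; -2, 1], by simp [Matrix.det_fin_two]⟩ := by
    rw [map_inv, rho_gB, inv_eq_iff_mul_eq_one]
    ext i j
    fin_cases i <;> fin_cases j <;> simp [matB, Matrix.mul_apply, Fin.sum_univ_two]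
  refine ⟨?_, ?_, ?_⟩ <;> simp [ca, cb, cc, h]

theorem Adj.wv_pos (u g : F2) (v : ℤ × ℤ) :
    wv u (act (rho g) v) = wv (g⁻¹ * u) v := by
  have := wv_act g (g⁻¹ * u) v
  rw [mul_inv_cancel_left] at this
  exact this

theorem Adj.wv_self (g : F2) (v : ℤ × ℤ) : wv g (act (rho g) v) = wv 1 v := by
  rw [Adj.wv_pos, inv_mul_cancel]

theorem Adj.wv_gB (g : F2) (v : ℤ × ℤ) : wv (g * gB) (act (rho g) v) = wv gB v := by
  rw [Adj.wv_pos, inv_mul_cancel_left]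

theorem cross_sep {s s' : F2 × Corner} {u : F2} (h : Cross s u s') :
    wv u (pos s) * wv u (pos s') < 0 := by
  obtain ⟨a1, a2, a3⟩ := Adj.form_one
  obtain ⟨b1, b2, b3⟩ := Adj.form_gB
  cases h <;> simp only [pos, Adj.wv_self, Adj.wv_gB, Corner.vec] <;>
    simp only [wv, a1, a2, a3, b1, b2, b3] <;> norm_num

theorem Adj.even_zero (m n : ℤ) (hm : m % 2 = 0) (h : m ^ 2 - n = 2) (hn : n < 0) : m = 0 := by
  have h1 : m ^ 2 ≤ 1 := by linarith [Int.add_one_le_iff.2 hn]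
  have h2 : m ≤ 1 := by nlinarith
  have h3 : -1 ≤ m := by nlinarith
  omega

theorem Adj.fac (a d : ℤ) (ha : a % 2 = 1) (h : a * d = -2) :
    (a = 1 ∧ d = -2) ∨ (a = -1 ∧ d = 2) := by
  have hdvd : a ∣ 2 := ⟨-d, by linarith⟩
  have h1 : a ≤ 2 := Int.le_of_dvd (by norm_num) hdvd
  have h2 : -a ≤ 2 := Int.le_of_dvd (by norm_num) (by rwa [neg_dvd])
  have h3 : a = 1 ∨ a = -1 := by omega
  rcases h3 with rfl | rfl
  · left; exact ⟨rfl, by linarith⟩
  · right; exact ⟨rfl, by linarith⟩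

theorem Adj.same_one (g v : F2)
    (h : (ca (g⁻¹ * v) = 1 ∧ cb (g⁻¹ * v) = -1 ∧ cc (g⁻¹ * v) = -1) ∨
      (ca (g⁻¹ * v) = -1 ∧ cb (g⁻¹ * v) = 1 ∧ cc (g⁻¹ * v) = 1)) : SameWall g v := by
  obtain ⟨a1, a2, a3⟩ := Adj.form_one
  have := sameWall_of_form 1 (g⁻¹ * v) (by rw [a1, a2, a3]; omega)
  simpa using this.mul_left g

theorem Adj.same_gB (g v : F2)
    (h : (ca (g⁻¹ * v) = 1 ∧ cb (g⁻¹ * v) = 1 ∧ cc (g⁻¹ * v) = -1) ∨
      (ca (g⁻¹ * v) = -1 ∧ cb (g⁻¹ * v) = -1 ∧ cc (g⁻¹ * v) = 1)) : SameWall (g * gB) v := by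
  obtain ⟨a1, a2, a3⟩ := Adj.form_gB
  have := sameWall_of_form gB (g⁻¹ * v) (by rw [a1, a2, a3]; omega)
  simpa using this.mul_left g

theorem Adj.case1 (w : F2) (h : wv w (1, 0) * wv w (1, 1) < 0) :
    (ca w = 1 ∧ cb w = -1 ∧ cc w = -1) ∨ (ca w = -1 ∧ cb w = 1 ∧ cc w = 1) := by
  have hd := disc w
  have ha := ca_odd w
  have hb := cb_odd w
  simp only [wv] at h
  set a := ca w
  set b := cb w
  set c := cc w
  have h0 := Adj.even_zero (a + b) (a * (a + 2 * b + c)) (by omega) (by linarith) (by linarith)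
  have hb' : b = -a := by linarith
  have := Adj.fac a (c - a) ha (by rw [hb'] at hd; linarith)
  omega

theorem Adj.case2 (w : F2) (h : wv w (-1, 1) * wv w (0, 1) < 0) :
    (ca w = 1 ∧ cb w = -1 ∧ cc w = -1) ∨ (ca w = -1 ∧ cb w = 1 ∧ cc w = 1) := by
  have hd := disc w
  have hc := cc_odd w
  have hb := cb_odd w
  simp only [wv] at h
  set a := ca w
  set b := cb w
  set c := cc w
  have h0 := Adj.even_zero (b - c) (c * (a - 2 * b + c)) (by omega) (by linarith) (by linarith)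
  have hb' : b = c := by linarith
  have := Adj.fac c (a - c) hc (by rw [hb'] at hd; linarith)
  omega

theorem Adj.case3 (w : F2) (h : wv w (0, 1) * wv w (1, 1) < 0) :
    (ca w = 1 ∧ cb w = 1 ∧ cc w = -1) ∨ (ca w = -1 ∧ cb w = -1 ∧ cc w = 1) := by
  have hd := disc w
  have hc := cc_odd w
  have hb := cb_odd w
  simp only [wv] at h
  set a := ca w
  set b := cb w
  set c := cc w
  have h0 := Adj.even_zero (b + c) (c * (a + 2 * b + c)) (by omega) (by linarith) (by linarith)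
  have hb' : b = -c := by linarith
  have := Adj.fac c (a - c) hc (by rw [hb'] at hd; linarith)
  omega

theorem Adj.case4 (w : F2) (h : wv w (1, 0) * wv w (-1, 1) < 0) :
    (ca w = 1 ∧ cb w = 1 ∧ cc w = -1) ∨ (ca w = -1 ∧ cb w = -1 ∧ cc w = 1) := by
  have hd := disc w
  have ha := ca_odd w
  have hb := cb_odd w
  simp only [wv] at h
  set a := ca w
  set b := cb w
  set c := cc w
  have h0 := Adj.even_zero (a - b) (a * (a - 2 * b + c)) (by omega) (by linarith) (by linarith)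
  have hb' : b = a := by linarith
  have := Adj.fac a (c - a) ha (by rw [hb'] at hd; linarith)
  omega

theorem cross_unique {s s' : F2 × Corner} {u : F2} (h : Cross s u s') (v : F2)
    (hv : wv v (pos s) * wv v (pos s') < 0) : SameWall u v := by
  cases h <;> simp only [pos, Adj.wv_pos, Corner.vec] at hv
  · exact Adj.same_one _ _ (Adj.case1 _ hv)
  · exact Adj.same_one _ _ (Adj.case1 _ (by rwa [mul_comm] at hv))
  · exact Adj.same_one _ _ (Adj.case2 _ hv)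
  · exact Adj.same_one _ _ (Adj.case2 _ (by rwa [mul_comm] at hv))
  · exact Adj.same_gB _ _ (Adj.case3 _ hv)
  · exact Adj.same_gB _ _ (Adj.case3 _ (by rwa [mul_comm] at hv))
  · exact Adj.same_gB _ _ (Adj.case4 _ hv)
  · exact Adj.same_gB _ _ (Adj.case4 _ (by rwa [mul_comm] at hv))

theorem Adj.center (u g : F2) (h : rho g • I ∉ wall u) :
    ∃ r : ℝ, 0 < r ∧ wz u (rho g • I) = r * ((ca (g⁻¹ * u) : ℝ) + (cc (g⁻¹ * u) : ℝ)) ∧
      ca (g⁻¹ * u) + cc (g⁻¹ * u) ≠ 0 := by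
  obtain ⟨r, hr, he⟩ := wz_smul g (g⁻¹ * u) I
  rw [mul_inv_cancel_left] at he
  have hI : wz (g⁻¹ * u) I = (ca (g⁻¹ * u) : ℝ) + (cc (g⁻¹ * u) : ℝ) := by
    simp [wz]
  rw [hI] at he
  refine ⟨r, hr, he, ?_⟩
  intro h0
  apply h
  rw [mem_wall_iff, he]
  have : ((ca (g⁻¹ * u) : ℝ) + (cc (g⁻¹ * u) : ℝ)) = 0 := by exact_mod_cast h0
  rw [this, mul_zero]

theorem Adj.key (a b c : ℤ) (ha : a % 2 = 1) (hb : b % 2 = 1) (hd : b ^ 2 - a * c = 2)
    (h : a + c ≠ 0) : 0 < a * (a + c) := by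
  by_contra hn
  have hn' : a * (a + c) ≤ 0 := not_lt.1 hn
  have h1 : 1 ≤ a ^ 2 := by
    have : 0 < a ^ 2 := by
      have : a ≠ 0 := by omega
      positivity
    omega
  have h2 : 1 ≤ b ^ 2 := by
    have : 0 < b ^ 2 := by
      have : b ≠ 0 := by omega
      positivity
    omega
  have h3 : a * c = -1 := by nlinarith
  have h4 : a ∣ 1 := ⟨-c, by linarith⟩
  have h5 : a = 1 ∨ a = -1 := Int.isUnit_iff.1 (isUnit_of_dvd_one h4)
  rcases h5 with h5 | h5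
  · rw [h5] at h3 h; apply h; linarith
  · rw [h5] at h3 h; apply h; linarith

theorem center_inf (u g : F2) (h : rho g • I ∉ wall u) :
    0 < (wv u (pos (g, .inf)) : ℝ) * wz u (rho g • I) := by
  obtain ⟨r, hr, he, hne⟩ := Adj.center u g h
  have h1 : wv u (pos (g, .inf)) = ca (g⁻¹ * u) := by
    simp only [pos, Adj.wv_pos, Corner.vec]
    simp only [wv]
    ring
  have h2 := Adj.key _ _ _ (ca_odd (g⁻¹ * u)) (cb_odd (g⁻¹ * u)) (disc (g⁻¹ * u)) hne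
  rw [h1, he]
  have h3 : (0 : ℝ) < (ca (g⁻¹ * u) : ℝ) * ((ca (g⁻¹ * u) : ℝ) + (cc (g⁻¹ * u) : ℝ)) := by
    exact_mod_cast h2
  nlinarith [mul_pos hr h3]

theorem center_zero (u g : F2) (h : rho g • I ∉ wall u) :
    0 < (wv u (pos (g, .zero)) : ℝ) * wz u (rho g • I) := by
  obtain ⟨r, hr, he, hne⟩ := Adj.center u g h
  have h1 : wv u (pos (g, .zero)) = cc (g⁻¹ * u) := by
    simp only [pos, Adj.wv_pos, Corner.vec]
    simp only [wv]
    ring
  have hd := disc (g⁻¹ * u)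
  have h2 := Adj.key (cc (g⁻¹ * u)) _ (ca (g⁻¹ * u)) (cc_odd (g⁻¹ * u)) (cb_odd (g⁻¹ * u))
    (by linarith) (by omega)
  rw [h1, he]
  have h3 : (0 : ℝ) < (cc (g⁻¹ * u) : ℝ) * ((cc (g⁻¹ * u) : ℝ) + (ca (g⁻¹ * u) : ℝ)) := by
    exact_mod_cast h2
  nlinarith [mul_pos hr h3]

end OneSys
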