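import Pool.Agent.Helper65.OneSys.Defs

open UpperHalfPlane Matrix
open scoped MatrixGroups Pointwise

namespace OneSys

/-- the square of the absolute value of the denominator -/
noncomputable def base1N (g : SL(2, ℤ)) (z : ℍ) : ℝ :=
  Complex.normSq ((g 1 0 : ℂ) * (z : ℂ) + (g 1 1 : ℂ))

theorem base1_det (g : SL(2, ℤ)) : g 0 0 * g 1 1 - g 0 1 * g 1 0 = 1 := by
  have h := g.det_coe
  rw [Matrix.det_fin_two] at h
  exact h

theorem base1N_pos (g : SL(2, ℤ)) (z : ℍ) : 0 < base1N g z := by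
  unfold base1N
  rw [Complex.normSq_pos]
  intro h
  have him := congrArg Complex.im h
  have hre := congrArg Complex.re h
  simp at him hre
  have hz : z.im ≠ 0 := z.im_pos.ne'
  have h0 : g 1 0 = 0 := by
    rcases him with h' | h'
    · exact_mod_cast h'
    · exact absurd h' hz
  have h1 : g 1 1 = 0 := by
    rw [h0] at hre
    simpa using hre
  have := base1_det g
  rw [h0, h1] at this
  simp at this

/-- the transformation of a form -/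
theorem base1_form (g : SL(2, ℤ)) (z : ℍ) (x y t : ℝ) :
    (x * Complex.normSq ((g • z : ℍ) : ℂ) + 2 * y * (g • z : ℍ).re + t) * base1N g z =
      (x * (g 0 0 : ℝ) ^ 2 + 2 * y * (g 0 0 : ℝ) * (g 1 0 : ℝ) + t * (g 1 0 : ℝ) ^ 2) *
        Complex.normSq (z : ℂ) +
      2 * (x * (g 0 0 : ℝ) * (g 0 1 : ℝ) +
        y * ((g 0 0 : ℝ) * (g 1 1 : ℝ) + (g 0 1 : ℝ) * (g 1 0 : ℝ)) +
        t * (g 1 0 : ℝ) * (g 1 1 : ℝ)) * z.re +
      (x * (g 0 1 : ℝ) ^ 2 + 2 * y * (g 0 1 : ℝ) * (g 1 1 : ℝ) + t * (g 1 1 : ℝ) ^ 2) := by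
  have hN := (base1N_pos g z).ne'
  have hw : ((g • z : ℍ) : ℂ) = (((g 0 0 : ℝ) : ℂ) * z + ((g 0 1 : ℝ) : ℂ)) /
      (((g 1 0 : ℝ) : ℂ) * z + ((g 1 1 : ℝ) : ℂ)) := by
    rw [UpperHalfPlane.coe_specialLinearGroup_apply]
    simp
  have hN2 : base1N g z = Complex.normSq (((g 1 0 : ℝ) : ℂ) * z + ((g 1 1 : ℝ) : ℂ)) := by
    unfold base1N
    simp
  have hre : (g • z : ℍ).re = (((g • z : ℍ) : ℂ)).re := rfl
  rw [hre, hw, Complex.normSq_div, Complex.div_re, ← hN2]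
  have e1 : (x * (Complex.normSq (((g 0 0 : ℝ) : ℂ) * z + ((g 0 1 : ℝ) : ℂ)) / base1N g z) +
      2 * y * ((((g 0 0 : ℝ) : ℂ) * z + ((g 0 1 : ℝ) : ℂ)).re *
        (((g 1 0 : ℝ) : ℂ) * z + ((g 1 1 : ℝ) : ℂ)).re / base1N g z +
        (((g 0 0 : ℝ) : ℂ) * z + ((g 0 1 : ℝ) : ℂ)).im *
        (((g 1 0 : ℝ) : ℂ) * z + ((g 1 1 : ℝ) : ℂ)).im / base1N g z) + t) * base1N g z =
      x * Complex.normSq (((g 0 0 : ℝ) : ℂ) * z + ((g 0 1 : ℝ) : ℂ)) +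
      2 * y * ((((g 0 0 : ℝ) : ℂ) * z + ((g 0 1 : ℝ) : ℂ)).re *
        (((g 1 0 : ℝ) : ℂ) * z + ((g 1 1 : ℝ) : ℂ)).re +
        (((g 0 0 : ℝ) : ℂ) * z + ((g 0 1 : ℝ) : ℂ)).im *
        (((g 1 0 : ℝ) : ℂ) * z + ((g 1 1 : ℝ) : ℂ)).im) + t * base1N g z := by
    field_simp
  rw [e1, hN2]
  simp only [Complex.normSq_apply, Complex.add_re, Complex.add_im, Complex.mul_re, Complex.mul_im,
    Complex.ofReal_re, Complex.ofReal_im]
  have h1 : (z : ℂ).re = z.re := rfl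
  rw [h1]
  ring

theorem base1_wz (u : F2) (z : ℍ) :
    wz u z = sd (rho u⁻¹ • z) * base1N (rho u⁻¹) z := by
  have h := base1_form (rho u⁻¹) z 1 (-1) (-1)
  have e : sd (rho u⁻¹ • z) = 1 * Complex.normSq ((rho u⁻¹ • z : ℍ) : ℂ) +
      2 * (-1) * (rho u⁻¹ • z : ℍ).re + (-1) := by
    unfold sd
    ring
  rw [e, h]
  unfold wz ca cb cc
  push_cast
  ring

theorem mem_wall_iff (u : F2) (z : ℍ) : z ∈ wall u ↔ wz u z = 0 := by
  rw [base1_wz]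
  have hN := (base1N_pos (rho u⁻¹) z).ne'
  constructor
  · intro h
    have h' : sd (rho u⁻¹ • z) = 0 := h
    rw [h', zero_mul]
  · intro h
    rcases mul_eq_zero.mp h with h' | h'
    · exact h'
    · exact absurd h' hN

theorem wz_smul (g u : F2) (z : ℍ) :
    ∃ r : ℝ, 0 < r ∧ wz (g * u) (rho g • z) = r * wz u z := by
  refine ⟨base1N (rho (g * u)⁻¹) (rho g • z) / base1N (rho u⁻¹) z,
    div_pos (base1N_pos _ _) (base1N_pos _ _), ?_⟩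
  have hN := (base1N_pos (rho u⁻¹) z).ne'
  have e : rho (g * u)⁻¹ • (rho g • z) = rho u⁻¹ • z := by
    rw [smul_smul, ← map_mul]
    congr 2
    group
  rw [base1_wz, base1_wz, e]
  field_simp

/-- the base form on integer vectors -/
def base1Q (v : ℤ × ℤ) : ℤ := v.1 ^ 2 - 2 * v.1 * v.2 - v.2 ^ 2

theorem base1_wv (u : F2) (v : ℤ × ℤ) : wv u v = base1Q (act (rho u⁻¹) v) := by
  unfold wv base1Q act ca cb cc
  simp only
  ring

theorem act_mul (g h : SL(2, ℤ)) (v : ℤ × ℤ) : act (g * h) v = act g (act h v) := by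
  unfold act
  simp only [Matrix.SpecialLinearGroup.coe_mul, Matrix.mul_apply, Fin.sum_univ_two]
  ext
  · simp only
    ring
  · simp only
    ring

theorem act_one (v : ℤ × ℤ) : act 1 v = v := by
  unfold act
  simp

theorem wv_act (g u : F2) (v : ℤ × ℤ) : wv (g * u) (act (rho g) v) = wv u v := by
  rw [base1_wv, base1_wv, ← act_mul, ← map_mul]
  congr 3
  group

theorem smul_wall (g u : F2) : rho g • wall u = wall (g * u) := by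
  ext z
  rw [Set.mem_smul_set_iff_inv_smul_mem]
  unfold wall
  simp only [Set.mem_setOf_eq]
  rw [smul_smul, ← map_inv, ← map_mul]
  have : u⁻¹ * g⁻¹ = (g * u)⁻¹ := by group
  rw [this]

theorem smul_axis (h g : SL(2, ℤ)) : h • axis g = axis (h * g * h⁻¹) := by
  ext z
  rw [Set.mem_smul_set_iff_inv_smul_mem]
  obtain ⟨k, rfl⟩ : ∃ k : SL(2, ℤ), h = k⁻¹ := ⟨h⁻¹, (inv_inv h).symm⟩
  rw [inv_inv]
  unfold axis
  simp only [Set.mem_setOf_eq]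
  have hN := base1N_pos k z
  have hf := base1_form k z (g 1 0 : ℝ) (((g 1 1 : ℝ) - (g 0 0 : ℝ)) / 2) (-(g 0 1 : ℝ))
  have e10 : (k⁻¹ * g * k) 1 0 = g 1 0 * k 0 0 ^ 2 + (g 1 1 - g 0 0) * k 0 0 * k 1 0 -
      g 0 1 * k 1 0 ^ 2 := by
    rw [Matrix.SpecialLinearGroup.SL2_inv_expl]
    simp [Matrix.SpecialLinearGroup.coe_mul, Matrix.mul_apply, Fin.sum_univ_two]
    ring
  have e11 : (k⁻¹ * g * k) 1 1 - (k⁻¹ * g * k) 0 0 = 2 * (g 1 0 * k 0 0 * k 0 1) +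
      (g 1 1 - g 0 0) * (k 0 0 * k 1 1 + k 0 1 * k 1 0) - 2 * (g 0 1 * k 1 0 * k 1 1) := by
    rw [Matrix.SpecialLinearGroup.SL2_inv_expl]
    simp [Matrix.SpecialLinearGroup.coe_mul, Matrix.mul_apply, Fin.sum_univ_two]
    ring
  have e01 : -(k⁻¹ * g * k) 0 1 = g 1 0 * k 0 1 ^ 2 + (g 1 1 - g 0 0) * k 0 1 * k 1 1 -
      g 0 1 * k 1 1 ^ 2 := by
    rw [Matrix.SpecialLinearGroup.SL2_inv_expl]
    simp [Matrix.SpecialLinearGroup.coe_mul, Matrix.mul_apply, Fin.sum_univ_two]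
    ring
  have r10 : ((k⁻¹ * g * k) 1 0 : ℝ) = (g 1 0 : ℝ) * (k 0 0 : ℝ) ^ 2 +
      ((g 1 1 : ℝ) - (g 0 0 : ℝ)) * (k 0 0 : ℝ) * (k 1 0 : ℝ) - (g 0 1 : ℝ) * (k 1 0 : ℝ) ^ 2 := by
    exact_mod_cast e10
  have r11 : ((k⁻¹ * g * k) 1 1 : ℝ) - ((k⁻¹ * g * k) 0 0 : ℝ) =
      2 * ((g 1 0 : ℝ) * (k 0 0 : ℝ) * (k 0 1 : ℝ)) +
      ((g 1 1 : ℝ) - (g 0 0 : ℝ)) * ((k 0 0 : ℝ) * (k 1 1 : ℝ) + (k 0 1 : ℝ) * (k 1 0 : ℝ)) -
      2 * ((g 0 1 : ℝ) * (k 1 0 : ℝ) * (k 1 1 : ℝ)) := by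
    exact_mod_cast e11
  have r01 : -((k⁻¹ * g * k) 0 1 : ℝ) = (g 1 0 : ℝ) * (k 0 1 : ℝ) ^ 2 +
      ((g 1 1 : ℝ) - (g 0 0 : ℝ)) * (k 0 1 : ℝ) * (k 1 1 : ℝ) - (g 0 1 : ℝ) * (k 1 1 : ℝ) ^ 2 := by
    exact_mod_cast e01
  have key : ((g 1 0 : ℝ) * Complex.normSq ((k • z : ℍ) : ℂ) +
      ((g 1 1 : ℝ) - (g 0 0 : ℝ)) * (k • z : ℍ).re - (g 0 1 : ℝ)) * base1N k z =
      ((k⁻¹ * g * k) 1 0 : ℝ) * Complex.normSq (z : ℂ) +
      (((k⁻¹ * g * k) 1 1 : ℝ) - ((k⁻¹ * g * k) 0 0 : ℝ)) * z.re - ((k⁻¹ * g * k) 0 1 : ℝ) := by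
    rw [r10, r11, sub_eq_add_neg _ ((k⁻¹ * g * k) 0 1 : ℝ), r01]
    linear_combination hf
  constructor
  · intro h'
    rw [h', zero_mul] at key
    exact key.symm
  · intro h'
    rw [h'] at key
    rcases mul_eq_zero.mp key with h'' | h''
    · exact h''
    · exact absurd h'' hN.ne'

theorem isHyperbolic_conj (h g : SL(2, ℤ)) :
    (h * g * h⁻¹).val.IsHyperbolic ↔ g.val.IsHyperbolic := by
  unfold Matrix.IsHyperbolic
  rw [Matrix.discr_fin_two, Matrix.discr_fin_two]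
  have h1 : (h * g * h⁻¹).val.trace = g.val.trace := by
    rw [Matrix.SpecialLinearGroup.coe_mul, Matrix.trace_mul_comm, ← Matrix.SpecialLinearGroup.coe_mul]
    congr 2
    group
  have h2 : (h * g * h⁻¹).val.det = 1 := (h * g * h⁻¹).det_coe
  have h3 : g.val.det = 1 := g.det_coe
  rw [h1, h2, h3]

end OneSys
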