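import Pool.Agent.Helper65.OneSys.Base1

open UpperHalfPlane Matrix
open scoped MatrixGroups Pointwise

namespace OneSys

theorem rho_gA : rho gA = matA := by simp [rho, gA]
theorem rho_gB : rho gB = matB := by simp [rho, gB]

private lemma mul_entries (M N : SL(2, ℤ)) :
    (M * N) 0 0 = M 0 0 * N 0 0 + M 0 1 * N 1 0 ∧ (M * N) 0 1 = M 0 0 * N 0 1 + M 0 1 * N 1 1 ∧
    (M * N) 1 0 = M 1 0 * N 0 0 + M 1 1 * N 1 0 ∧
    (M * N) 1 1 = M 1 0 * N 0 1 + M 1 1 * N 1 1 := by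
  have h : ∀ i j, (M * N : SL(2, ℤ)) i j = M i 0 * N 0 j + M i 1 * N 1 j := by
    intro i j
    have h1 := congrFun (congrFun (Matrix.SpecialLinearGroup.coe_mul M N) i) j
    rw [Matrix.mul_apply, Fin.sum_univ_two] at h1
    exact h1
  exact ⟨h 0 0, h 0 1, h 1 0, h 1 1⟩

private lemma inv_entries (M : SL(2, ℤ)) :
    M⁻¹ 0 0 = M 1 1 ∧ M⁻¹ 0 1 = - M 0 1 ∧ M⁻¹ 1 0 = - M 1 0 ∧ M⁻¹ 1 1 = M 0 0 := by
  have h1 := Matrix.SpecialLinearGroup.coe_inv M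
  rw [Matrix.adjugate_fin_two] at h1
  have h : ∀ i j, (M⁻¹ : SL(2, ℤ)) i j = !![M 1 1, - M 0 1; - M 1 0, M 0 0] i j := by
    intro i j
    exact congrFun (congrFun h1 i) j
  exact ⟨h 0 0, h 0 1, h 1 0, h 1 1⟩

private lemma det_entries (M : SL(2, ℤ)) : M 0 0 * M 1 1 - M 0 1 * M 1 0 = 1 := by
  have := M.det_coe
  rwa [Matrix.det_fin_two] at this

/-- The congruence conditions. -/
private def Cong (M : SL(2, ℤ)) : Prop :=
  M 0 0 % 4 = 1 ∧ M 1 1 % 4 = 1 ∧ M 0 1 % 2 = 0 ∧ M 1 0 % 2 = 0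

private lemma Cong.mul {M N : SL(2, ℤ)} (hM : Cong M) (hN : Cong N) : Cong (M * N) := by
  obtain ⟨e1, e2, e3, e4⟩ := mul_entries M N
  obtain ⟨a1, a2, a3, a4⟩ := hM
  obtain ⟨b1, b2, b3, b4⟩ := hN
  unfold Cong
  rw [e1, e2, e3, e4]
  obtain ⟨k1, h1⟩ : ∃ k, M 0 0 = 4 * k + 1 := ⟨M 0 0 / 4, by omega⟩
  obtain ⟨k2, h2⟩ : ∃ k, M 1 1 = 4 * k + 1 := ⟨M 1 1 / 4, by omega⟩
  obtain ⟨k3, h3⟩ : ∃ k, M 0 1 = 2 * k := ⟨M 0 1 / 2, by omega⟩
  obtain ⟨k4, h4⟩ : ∃ k, M 1 0 = 2 * k := ⟨M 1 0 / 2, by omega⟩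
  obtain ⟨l1, g1⟩ : ∃ k, N 0 0 = 4 * k + 1 := ⟨N 0 0 / 4, by omega⟩
  obtain ⟨l2, g2⟩ : ∃ k, N 1 1 = 4 * k + 1 := ⟨N 1 1 / 4, by omega⟩
  obtain ⟨l3, g3⟩ : ∃ k, N 0 1 = 2 * k := ⟨N 0 1 / 2, by omega⟩
  obtain ⟨l4, g4⟩ : ∃ k, N 1 0 = 2 * k := ⟨N 1 0 / 2, by omega⟩
  rw [h1, h2, h3, h4, g1, g2, g3, g4]
  refine ⟨?_, ?_, ?_, ?_⟩
  · rw [show (4 * k1 + 1) * (4 * l1 + 1) + 2 * k3 * (2 * l4) =
      4 * (4 * k1 * l1 + k1 + l1 + k3 * l4) + 1 by ring]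
    omega
  · rw [show 2 * k4 * (2 * l3) + (4 * k2 + 1) * (4 * l2 + 1) =
      4 * (4 * k2 * l2 + k2 + l2 + k4 * l3) + 1 by ring]
    omega
  · rw [show (4 * k1 + 1) * (2 * l3) + 2 * k3 * (4 * l2 + 1) =
      2 * ((4 * k1 + 1) * l3 + k3 * (4 * l2 + 1)) by ring]
    omega
  · rw [show 2 * k4 * (4 * l1 + 1) + (4 * k2 + 1) * (2 * l4) =
      2 * (k4 * (4 * l1 + 1) + (4 * k2 + 1) * l4) by ring]
    omega

private lemma Cong.inv {M : SL(2, ℤ)} (hM : Cong M) : Cong M⁻¹ := by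
  obtain ⟨e1, e2, e3, e4⟩ := inv_entries M
  obtain ⟨a1, a2, a3, a4⟩ := hM
  unfold Cong
  rw [e1, e2, e3, e4]
  omega

theorem rho_mod (u : F2) : (rho u) 0 0 % 4 = 1 ∧ (rho u) 1 1 % 4 = 1 ∧ (rho u) 0 1 % 2 = 0 ∧
    (rho u) 1 0 % 2 = 0 := by
  suffices h : Cong (rho u) from h
  have hof : ∀ b : Bool, Cong (rho (FreeGroup.of b)) := by
    intro b
    cases b
    · have : rho (FreeGroup.of false) = matB := rho_gB
      rw [this]
      refine ⟨?_, ?_, ?_, ?_⟩ <;> simp [matB]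
    · have : rho (FreeGroup.of true) = matA := rho_gA
      rw [this]
      refine ⟨?_, ?_, ?_, ?_⟩ <;> simp [matA]
  induction u using FreeGroup.induction_on with
  | C1 =>
    rw [map_one]
    refine ⟨?_, ?_, ?_, ?_⟩ <;> simp
  | of b => exact hof b
  | inv_of b _ =>
    rw [map_inv]
    exact (hof b).inv
  | mul x y hx hy =>
    rw [map_mul]
    exact hx.mul hy

theorem disc (u : F2) : cb u ^ 2 - ca u * cc u = 2 := by
  have h := det_entries (rho u⁻¹)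
  unfold ca cb cc
  linear_combination (2 * ((rho u⁻¹) 0 0 * (rho u⁻¹) 1 1 - (rho u⁻¹) 0 1 * (rho u⁻¹) 1 0) + 2) * h

private lemma odd_aux (u : F2) : ca u % 2 = 1 ∧ cb u % 2 = 1 ∧ cc u % 2 = 1 := by
  obtain ⟨a1, a2, a3, a4⟩ := rho_mod u⁻¹
  obtain ⟨k1, h1⟩ : ∃ k, (rho u⁻¹) 0 0 = 4 * k + 1 := ⟨(rho u⁻¹) 0 0 / 4, by omega⟩
  obtain ⟨k2, h2⟩ : ∃ k, (rho u⁻¹) 1 1 = 4 * k + 1 := ⟨(rho u⁻¹) 1 1 / 4, by omega⟩
  obtain ⟨k3, h3⟩ : ∃ k, (rho u⁻¹) 0 1 = 2 * k := ⟨(rho u⁻¹) 0 1 / 2, by omega⟩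
  obtain ⟨k4, h4⟩ : ∃ k, (rho u⁻¹) 1 0 = 2 * k := ⟨(rho u⁻¹) 1 0 / 2, by omega⟩
  unfold ca cb cc
  rw [h1, h2, h3, h4]
  refine ⟨?_, ?_, ?_⟩
  · rw [show (4 * k1 + 1) ^ 2 - 2 * (4 * k1 + 1) * (2 * k4) - (2 * k4) ^ 2 =
      2 * (8 * k1 ^ 2 + 4 * k1 - (4 * k1 + 1) * (2 * k4) - 2 * k4 ^ 2) + 1 by ring]
    omega
  · rw [show (4 * k1 + 1) * (2 * k3) - ((4 * k1 + 1) * (4 * k2 + 1) + 2 * k3 * (2 * k4)) -
      2 * k4 * (4 * k2 + 1) =
      2 * ((4 * k1 + 1) * k3 - (8 * k1 * k2 + 2 * k1 + 2 * k2 + 2 * k3 * k4) -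
        k4 * (4 * k2 + 1) - 1) + 1 by ring]
    omega
  · rw [show (2 * k3) ^ 2 - 2 * (2 * k3) * (4 * k2 + 1) - (4 * k2 + 1) ^ 2 =
      2 * (2 * k3 ^ 2 - 2 * k3 * (4 * k2 + 1) - 8 * k2 ^ 2 - 4 * k2 - 1) + 1 by ring]
    omega

theorem ca_odd (u : F2) : ca u % 2 = 1 := (odd_aux u).1
theorem cb_odd (u : F2) : cb u % 2 = 1 := (odd_aux u).2.1
theorem cc_odd (u : F2) : cc u % 2 = 1 := (odd_aux u).2.2

private lemma sq_two {a b : ℤ} (h : a ^ 2 = 2 * b ^ 2) : b = 0 := by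
  by_contra hb
  have h1 : IsSquare (2 : ℚ) := by
    refine ⟨(a : ℚ) / b, ?_⟩
    have hb' : (b : ℚ) ≠ 0 := by exact_mod_cast hb
    have h2 : (a : ℚ) ^ 2 = 2 * (b : ℚ) ^ 2 := by exact_mod_cast h
    field_simp
    linarith
  rw [Rat.isSquare_iff] at h1
  have h2 : IsSquare (2 : ℤ) := by simpa using h1.1
  obtain ⟨r, hr⟩ := h2
  have h3 : r < 2 := by nlinarith
  have h4 : -2 < r := by nlinarith
  interval_cases r <;> omega

theorem wv_ne_zero (u : F2) (v : ℤ × ℤ) (hv : v ≠ 0) : wv u v ≠ 0 := by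
  intro h
  have hd := disc u
  have h1 : (ca u * v.1 + cb u * v.2) ^ 2 = 2 * v.2 ^ 2 := by
    unfold wv at h
    linear_combination ca u * h + v.2 ^ 2 * hd
  have h2 : v.2 = 0 := sq_two h1
  rw [h2] at h1
  have h3 : ca u * v.1 = 0 := by
    have : (ca u * v.1) ^ 2 = 0 := by linear_combination h1
    exact pow_eq_zero_iff (two_ne_zero) |>.mp this
  have h4 : ca u ≠ 0 := by
    have := ca_odd u
    omega
  have h5 : v.1 = 0 := (mul_eq_zero.mp h3).resolve_left h4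
  exact hv (Prod.ext h5 h2)

theorem SameWall.refl (u : F2) : SameWall u u := ⟨0, by simp⟩

theorem SameWall.symm {u v : F2} (h : SameWall u v) : SameWall v u := by
  obtain ⟨n, rfl⟩ := h
  exact ⟨-n, by rw [mul_assoc, ← _root_.zpow_add, add_neg_cancel, zpow_zero, mul_one]⟩

theorem SameWall.trans {u v w : F2} (h : SameWall u v) (h' : SameWall v w) : SameWall u w := by
  obtain ⟨n, rfl⟩ := h
  obtain ⟨m, rfl⟩ := h'
  exact ⟨n + m, by rw [mul_assoc, ← _root_.zpow_add]⟩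

theorem SameWall.mul_left {u v : F2} (g : F2) (h : SameWall u v) : SameWall (g * u) (g * v) := by
  obtain ⟨n, rfl⟩ := h
  exact ⟨n, (mul_assoc _ _ _).symm⟩

theorem SameWall.of_mul_left {u v : F2} (g : F2) (h : SameWall (g * u) (g * v)) :
    SameWall u v := by
  obtain ⟨n, hn⟩ := h
  refine ⟨n, ?_⟩
  rw [mul_assoc] at hn
  exact mul_left_cancel hn

/-- The three coefficients as functions of the matrix. -/
private def fo (M : SL(2, ℤ)) : ℤ × ℤ × ℤ :=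
  (M 0 0 ^ 2 - 2 * M 0 0 * M 1 0 - M 1 0 ^ 2,
    M 0 0 * M 0 1 - (M 0 0 * M 1 1 + M 0 1 * M 1 0) - M 1 0 * M 1 1,
    M 0 1 ^ 2 - 2 * M 0 1 * M 1 1 - M 1 1 ^ 2)

private lemma fo_rho (u : F2) : fo (rho u⁻¹) = (ca u, cb u, cc u) := rfl

/-- Matrices which preserve the form. -/
private def Pres : Subgroup SL(2, ℤ) where
  carrier := {P | ∀ M, fo (P * M) = fo M}
  mul_mem' := by
    intro P Q hP hQ M
    rw [mul_assoc, hP, hQ]
  one_mem' := by intro M; rw [one_mul]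
  inv_mem' := by
    intro P hP M
    rw [← hP (P⁻¹ * M), mul_inv_cancel_left]

private lemma AB_entries : (matA * matB) 0 0 = 5 ∧ (matA * matB) 0 1 = 2 ∧
    (matA * matB) 1 0 = 2 ∧ (matA * matB) 1 1 = 1 := by
  obtain ⟨e1, e2, e3, e4⟩ := mul_entries matA matB
  rw [e1, e2, e3, e4]
  simp [matA, matB]

private lemma AB_mem : matA * matB ∈ Pres := by
  intro M
  obtain ⟨e1, e2, e3, e4⟩ := mul_entries (matA * matB) M
  obtain ⟨f1, f2, f3, f4⟩ := AB_entries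
  unfold fo
  rw [e1, e2, e3, e4, f1, f2, f3, f4]
  refine Prod.ext ?_ (Prod.ext ?_ ?_)
  · simp only; ring
  · simp only; ring
  · simp only; ring

theorem SameWall.form {u v : F2} (h : SameWall u v) :
    ca v = ca u ∧ cb v = cb u ∧ cc v = cc u := by
  obtain ⟨n, rfl⟩ := h
  have h1 : rho (u * (gA * gB) ^ n)⁻¹ = (matA * matB) ^ (-n) * rho u⁻¹ := by
    rw [_root_.mul_inv_rev, map_mul, ← _root_.zpow_neg, map_zpow, map_mul, rho_gA, rho_gB]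
  have h2 := fo_rho (u * (gA * gB) ^ n)
  rw [h1, Pres.zpow_mem AB_mem (-n) (rho u⁻¹), fo_rho] at h2
  have h3 := (Prod.mk.injEq _ _ _ _).mp h2
  have h4 := (Prod.mk.injEq _ _ _ _).mp h3.2
  exact ⟨h3.1.symm, h4.1.symm, h4.2.symm⟩

theorem SameWall.wall_eq {u v : F2} (h : SameWall u v) : wall u = wall v := by
  obtain ⟨h1, h2, h3⟩ := h.form
  ext z
  rw [mem_wall_iff, mem_wall_iff]
  unfold wz
  rw [h1, h2, h3]

private lemma AB_pow (n : ℕ) : ∃ x y : ℤ, ((matA * matB) ^ (n + 1)) 0 0 = x + y ∧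
    ((matA * matB) ^ (n + 1)) 0 1 = y ∧ ((matA * matB) ^ (n + 1)) 1 0 = y ∧
    ((matA * matB) ^ (n + 1)) 1 1 = x - y ∧ 3 ≤ x ∧ 2 ≤ y := by
  induction n with
  | zero =>
    obtain ⟨f1, f2, f3, f4⟩ := AB_entries
    refine ⟨3, 2, ?_⟩
    rw [zero_add, pow_one, f1, f2, f3, f4]
    norm_num
  | succ n ih =>
    obtain ⟨x, y, h1, h2, h3, h4, h5, h6⟩ := ih
    obtain ⟨e1, e2, e3, e4⟩ := mul_entries ((matA * matB) ^ (n + 1)) (matA * matB)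
    obtain ⟨f1, f2, f3, f4⟩ := AB_entries
    rw [← pow_succ, f1, f3, h1, h2] at e1
    rw [← pow_succ, f2, f4, h1, h2] at e2
    rw [← pow_succ, f1, f3, h3, h4] at e3
    rw [← pow_succ, f2, f4, h3, h4] at e4
    refine ⟨3 * x + 4 * y, 2 * x + 3 * y, ?_, ?_, ?_, ?_, ?_, ?_⟩
    · rw [e1]; ring
    · rw [e2]; ring
    · rw [e3]; ring
    · rw [e4]; ring
    · omega
    · omega

/-- Every wall is the axis of hyperbolic elements. -/
theorem wall_eq_axis (u : F2) (n : ℕ) (hn : n ≠ 0) :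
    (rho (u * (gA * gB) ^ n * u⁻¹)).val.IsHyperbolic ∧
      axis (rho (u * (gA * gB) ^ n * u⁻¹)) = wall u := by
  obtain ⟨m, rfl⟩ := Nat.exists_eq_succ_of_ne_zero hn
  obtain ⟨x, y, h1, h2, h3, h4, h5, h6⟩ := AB_pow m
  have e : rho (u * (gA * gB) ^ (m + 1) * u⁻¹) =
      rho u * (matA * matB) ^ (m + 1) * (rho u)⁻¹ := by
    rw [map_mul, map_mul, map_inv, map_pow, map_mul, rho_gA, rho_gB]
  have hdet := det_entries ((matA * matB) ^ (m + 1))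
  rw [h1, h2, h3, h4] at hdet
  constructor
  · rw [Nat.succ_eq_add_one, e, isHyperbolic_conj]
    unfold Matrix.IsHyperbolic
    rw [Matrix.discr_fin_two, Matrix.trace_fin_two, Matrix.det_fin_two]
    have g1 : ((matA * matB) ^ (m + 1)).val 0 0 = x + y := h1
    have g2 : ((matA * matB) ^ (m + 1)).val 0 1 = y := h2
    have g3 : ((matA * matB) ^ (m + 1)).val 1 0 = y := h3
    have g4 : ((matA * matB) ^ (m + 1)).val 1 1 = x - y := h4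
    rw [g1, g2, g3, g4, hdet]
    nlinarith
  · have h7 : axis ((matA * matB) ^ (m + 1)) = wall 1 := by
      ext z
      unfold axis wall
      rw [Set.mem_setOf_eq, Set.mem_setOf_eq, inv_one, map_one, one_smul, h1, h2, h3, h4]
      unfold sd
      have hy : (y : ℝ) ≠ 0 := by
        have : (2 : ℝ) ≤ y := by exact_mod_cast h6
        linarith
      push_cast
      constructor
      · intro h
        have : (y : ℝ) * (Complex.normSq (z : ℂ) - 2 * z.re - 1) = 0 := by linarith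
        exact (mul_eq_zero.mp this).resolve_left hy
      · intro h
        linear_combination (y : ℝ) * h
    rw [Nat.succ_eq_add_one, e, ← smul_axis, h7, smul_wall, mul_one]

end OneSys
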