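import Pool.Agent.Helper65.OneSys.Crx

open UpperHalfPlane Matrix
open scoped MatrixGroups Pointwise

namespace OneSys

namespace Data
variable (X : Data)

theorem lab_mul_gA (u : F2) : X.lab (u * gA) = X.a (X.lab u) := by
  simp [lab, phi, gA]

theorem lab_mul_gB (u : F2) : X.lab (u * gB) = X.b (X.lab u) := by
  simp [lab, phi, gB]

theorem mem_G2 (h : F2) : h ∈ X.G2 ↔ X.lab h = X.d0 := by
  rw [G2, Subgroup.mem_comap, MulAction.mem_stabilizer_iff, lab, Equiv.Perm.smul_def,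
    Equiv.Perm.inv_eq_iff_eq]
  exact eq_comm

theorem lab_mul (h u : F2) (hh : h ∈ X.G2) : X.lab (h * u) = X.lab u := by
  rw [mem_G2, lab] at hh
  simp only [lab, map_mul, _root_.mul_inv_rev, Equiv.Perm.mul_apply, hh]

theorem lab_eq_iff (u v : F2) : X.lab u = X.lab v ↔ ∃ h ∈ X.G2, v = h * u := by
  constructor
  · intro h
    refine ⟨v * u⁻¹, ?_, by group⟩
    rw [mem_G2]
    have h1 : X.lab (v * u⁻¹) = X.phi u (X.lab v) := by
      simp only [lab, map_mul, map_inv, _root_.mul_inv_rev, inv_inv, Equiv.Perm.mul_apply]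
    rw [h1, ← h, lab]
    simp
  · rintro ⟨h, hh, rfl⟩
    exact (X.lab_mul h u hh).symm

private theorem lab_mul_gAB (u : F2) : X.lab (u * (gA * gB)) = X.b (X.a (X.lab u)) := by
  rw [← mul_assoc, lab_mul_gB, lab_mul_gA]

private theorem lab_mul_pow (u : F2) (n : ℕ) :
    X.lab (u * (gA * gB) ^ n) = (fun x => X.b (X.a x))^[n] (X.lab u) := by
  induction n with
  | zero => simp
  | succ n ih =>
    rw [pow_succ, ← mul_assoc, lab_mul_gAB, ih, Function.iterate_succ_apply']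

theorem col_sameWall {u v : F2} (h : SameWall u v) : X.col (X.lab u) = X.col (X.lab v) := by
  obtain ⟨n, rfl⟩ := h
  induction n using Int.induction_on with
  | zero => simp
  | succ n ih =>
    rw [ih, _root_.zpow_add_one, ← mul_assoc, lab_mul_gAB, X.col_ba]
  | pred n ih =>
    rw [ih]
    have h1 : u * (gA * gB) ^ (-(n : ℤ)) = u * (gA * gB) ^ (-(n : ℤ) - 1) * (gA * gB) := by
      rw [mul_assoc, ← _root_.zpow_add_one]
      congr 2
      ring
    rw [h1, lab_mul_gAB, X.col_ba]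

theorem grp_free (g : SL(2, ℤ)) (hg : g ∈ X.grp) (z : ℍ) (h : g • z = z) : g = 1 := by
  obtain ⟨u, -, rfl⟩ := hg
  rw [rho_free u z h, map_one]

theorem Single.sameWall {i : ℕ} (h : X.Single i) {u v : F2} (hu : X.col (X.lab u) = i)
    (hv : X.col (X.lab v) = i) : ∃ g ∈ X.G2, SameWall (g * u) v := by
  obtain ⟨n, hn⟩ := h.cyc (X.lab u) (X.lab v) hu hv
  rw [← lab_mul_pow, lab_eq_iff] at hn
  obtain ⟨g, hg, rfl⟩ := hn
  refine ⟨g, hg, n, ?_⟩
  rw [zpow_natCast, mul_assoc]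

theorem meets_of_mem {u v : F2} {z : ℍ} (hu : z ∈ wall u) (hv : z ∈ wall v)
    (hne : ¬ SameWall u v) : ∃ w : F2, z = rho w • I ∧
      X.Meets (X.lab w) (X.col (X.lab u)) (X.col (X.lab v)) := by
  obtain ⟨w, hw, h | h⟩ := crossing u v z hu hv hne
  · refine ⟨w, hw, Or.inl ⟨X.col_sameWall h.1, ?_⟩⟩
    rw [← lab_mul_gB]
    exact X.col_sameWall h.2
  · refine ⟨w, hw, Or.inr ⟨X.col_sameWall h.1, ?_⟩⟩
    rw [← lab_mul_gB]
    exact X.col_sameWall h.2

end Data

end OneSys
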