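import Pool.Agent.Helper65.OneSys.DataTab
import Pool.Agent.Helper65.OneSys.Lab

open UpperHalfPlane Matrix
open scoped MatrixGroups Pointwise

namespace OneSys

namespace Ex

/-- Table lookup in `Fin 236`. -/
def rdF (t : ℕ) (x : Fin 236) : Fin 236 := ⟨rd t x.1 % 236, Nat.mod_lt _ (by norm_num)⟩

/-- The permutation `a`. -/
def permA : Equiv.Perm (Fin 236) where
  toFun := rdF tA
  invFun := rdF tAi
  left_inv := by
    have h : ∀ x : Fin 236, rdF tAi (rdF tA x) = x := by decide +kernel
    exact h
  right_inv := by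
    have h : ∀ x : Fin 236, rdF tA (rdF tAi x) = x := by decide +kernel
    exact h

/-- The permutation `b`. -/
def permB : Equiv.Perm (Fin 236) where
  toFun := rdF tB
  invFun := rdF tBi
  left_inv := by
    have h : ∀ x : Fin 236, rdF tBi (rdF tB x) = x := by decide +kernel
    exact h
  right_inv := by
    have h : ∀ x : Fin 236, rdF tB (rdF tBi x) = x := by decide +kernel
    exact h

/-- The finite data. -/
def X : Data where
  N := 236
  a := permA
  b := permB
  d0 := 0
  col := fun x => rd tC x.1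
  col_ba := by
    have h : ∀ x : Fin 236, rd tC (rdF tB (rdF tA x)).1 = rd tC x.1 := by decide +kernel
    exact h

theorem X_a (d : Fin 236) : X.a d = rdF tA d := rfl
theorem X_b (d : Fin 236) : X.b d = rdF tB d := rfl
theorem X_col (d : Fin 236) : X.col d = rd tC d.1 := rfl
theorem X_d0 : X.d0 = (0 : Fin 236) := rfl

/-- The colours of the curves `c_1, …, c_11`. -/
def cs : Finset ℕ := Finset.Icc 1 11

theorem mem_cs (i : ℕ) : i ∈ cs ↔ 1 ≤ i ∧ i ≤ 11 := by simp [cs]

/-- Node of the finite graph at a corner of a square. -/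
def node (d : Fin 236) : Corner → ℕ
  | .inf => rd tInf d.1
  | .zero => rd tZero d.1
  | .one => rd tOne d.1
  | .neg => rd tNeg d.1

/-- Masks of a node. -/
def msk (n : ℕ) : List ℕ := masks.getD n []

/-- Reachable states. -/
def Rn (n : ℕ) (m : Finset ℕ) : Prop := ∃ t ∈ msk n, ∀ i, t.testBit i = true → i ∈ m

/-- Check of a transition from the node `n` to the node `n'` crossing the colour `c`. -/
def okT (n n' c : ℕ) : Bool :=
  if c = 0 then true
  else if c ≤ 11 then
    (msk n).all fun t => t.testBit c || (msk n').any fun s => (s &&& (t ||| 2 ^ c)) == s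
  else (msk n).all fun t => (msk n').any fun s => (s &&& t) == s

theorem okT_spec {n n' c : ℕ} (h : okT n n' c = true) (hc : c ≠ 0) (m : Finset ℕ) (hm : Rn n m)
    (hcm : c ∈ cs → c ∉ m) : Rn n' (if c ∈ cs then insert c m else m) := by
  obtain ⟨t, ht, htm⟩ := hm
  unfold okT at h
  rw [if_neg hc] at h
  by_cases h11 : c ≤ 11
  · have hccs : c ∈ cs := (mem_cs c).2 ⟨Nat.one_le_iff_ne_zero.2 hc, h11⟩
    rw [if_pos h11, List.all_eq_true] at h
    have h1 := h t ht
    rw [Bool.or_eq_true] at h1
    rcases h1 with h1 | h1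
    · exact absurd (htm c h1) (hcm hccs)
    · rw [List.any_eq_true] at h1
      obtain ⟨s, hs, hst⟩ := h1
      rw [if_pos hccs]
      refine ⟨s, hs, fun i hi => ?_⟩
      have h2 : s &&& (t ||| 2 ^ c) = s := by simpa using hst
      have h3 : (s &&& (t ||| 2 ^ c)).testBit i = true := by rw [h2]; exact hi
      rw [Nat.testBit_and, Nat.testBit_or, Nat.testBit_two_pow] at h3
      simp only [Bool.and_eq_true, Bool.or_eq_true, decide_eq_true_eq] at h3
      rcases h3.2 with h4 | h4
      · exact Finset.mem_insert_of_mem (htm i h4)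
      · rw [← h4]; exact Finset.mem_insert_self _ _
  · have hccs : c ∉ cs := fun h' => h11 ((mem_cs c).1 h').2
    rw [if_neg h11, List.all_eq_true] at h
    have h1 := h t ht
    rw [List.any_eq_true] at h1
    obtain ⟨s, hs, hst⟩ := h1
    rw [if_neg hccs]
    refine ⟨s, hs, fun i hi => ?_⟩
    have h2 : s &&& t = s := by simpa using hst
    have h3 : (s &&& t).testBit i = true := by rw [h2]; exact hi
    rw [Nat.testBit_and, Bool.and_eq_true] at h3
    exact htm i h3.2

/-- Check of all the transitions at the square `d`. -/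
def okD (d : Fin 236) : Bool :=
  let i := rd tInf d.1
  let z := rd tZero d.1
  let o := rd tOne d.1
  let g := rd tNeg d.1
  let c := rd tC d.1
  let e := rd tC (rdF tB d).1
  okT i o c && okT o i c && okT g z c && okT z g c && okT z o e && okT o z e && okT i g e && okT g i e

theorem okD_all : ∀ d : Fin 236, okD d = true := by decide +kernel

theorem node_inf : ∀ d : Fin 236, rd tInf (rdF tA d).1 = rd tInf d.1 := by decide +kernel
theorem node_zero : ∀ d : Fin 236, rd tZero (rdF tB d).1 = rd tZero d.1 := by decide +kernel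
theorem node_negA : ∀ d : Fin 236, rd tNeg (rdF tA d).1 = rd tOne d.1 := by decide +kernel
theorem node_negB : ∀ d : Fin 236, rd tNeg (rdF tB d).1 = rd tOne d.1 := by decide +kernel
theorem start_mem : (0 : ℕ) ∈ msk (rd tInf 0) := by decide +kernel
theorem goal_nil : msk (rd tZero 0) = [] := by decide +kernel
theorem col_zero : rd tC 0 = 0 := by decide +kernel

/-- The certificate. -/
def cert : X.Cert cs where
  R d j m := Rn (node d j) m
  start := ⟨0, start_mem, fun i hi => by simp at hi⟩
  goal := by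
    rintro m ⟨t, ht, -⟩
    change t ∈ msk (rd tZero 0) at ht
    rw [goal_nil] at ht
    exact absurd ht (List.not_mem_nil)
  rot_inf d m := by
    change Rn (rd tInf d.1) m ↔ Rn (rd tInf (rdF tA d).1) m
    rw [node_inf]
  rot_zero d m := by
    change Rn (rd tZero d.1) m ↔ Rn (rd tZero (rdF tB d).1) m
    rw [node_zero]
  rot_oneA d m := by
    change Rn (rd tOne d.1) m ↔ Rn (rd tNeg (rdF tA d).1) m
    rw [node_negA]
  rot_oneB d m := by
    change Rn (rd tOne d.1) m ↔ Rn (rd tNeg (rdF tB d).1) m
    rw [node_negB]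
  cross_a d m h0 hm := by
    have h := okD_all d
    simp only [okD, Bool.and_eq_true] at h
    obtain ⟨⟨⟨⟨⟨⟨⟨h1, h2⟩, h3⟩, h4⟩, -⟩, -⟩, -⟩, -⟩ := h
    have hc : rd tC d.1 ≠ 0 := by
      have h5 : rd tC d.1 ≠ rd tC 0 := h0
      rwa [col_zero] at h5
    exact ⟨fun h => okT_spec h1 hc m h hm, fun h => okT_spec h2 hc m h hm,
      fun h => okT_spec h3 hc m h hm, fun h => okT_spec h4 hc m h hm⟩
  cross_b d m h0 hm := by
    have h := okD_all d
    simp only [okD, Bool.and_eq_true] at h
    obtain ⟨⟨⟨⟨⟨⟨⟨-, -⟩, -⟩, -⟩, h1⟩, h2⟩, h3⟩, h4⟩ := h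
    have hc : rd tC (rdF tB d).1 ≠ 0 := by
      have h5 : rd tC (rdF tB d).1 ≠ rd tC 0 := h0
      rwa [col_zero] at h5
    exact ⟨fun h => okT_spec h1 hc m h hm, fun h => okT_spec h2 hc m h hm,
      fun h => okT_spec h3 hc m h hm, fun h => okT_spec h4 hc m h hm⟩

/-! ### The curves -/

/-- Going straight. -/
def fwd (d : Fin 236) : Fin 236 := rdF tB (rdF tA d)

/-- Representative of a colour. -/
def rep (c : ℕ) : Fin 236 := ⟨reps.getD c 0 % 236, Nat.mod_lt _ (by norm_num)⟩

/-- Length of a colour. -/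
def len (c : ℕ) : ℕ := lens.getD c 0

theorem fwd_ix : ∀ d : Fin 236, fwd^[rd tIx d.1] (rep (rd tC d.1)) = d ∧
    rd tIx d.1 ≤ len (rd tC d.1) := by decide +kernel

theorem fwd_len : ∀ c : Fin 13, fwd^[len c.1] (rep c.1) = rep c.1 := by decide +kernel

/-- Following a word of `a` and `b`. -/
def follow (w : List Bool) : Fin 236 := w.foldl (fun d t => cond t (rdF tA d) (rdF tB d)) 0

theorem follow_words : ∀ c : Fin 13, rd tC (follow (words.getD c.1 [])).1 = c.1 := by decide +kernel

theorem simple_all : ∀ d : Fin 236, rd tC d.1 ≤ 12 → rd tC (rdF tB d).1 ≠ rd tC d.1 := by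
  decide +kernel

theorem lab_follow (w : List Bool) :
    X.lab ((w.map (fun t => cond t gA gB)).prod) = follow w := by
  induction w using List.reverseRecOn with
  | nil =>
    simp only [List.map_nil, List.prod_nil, follow, List.foldl_nil]
    simp [Data.lab, X_d0]
  | append_singleton l x ih =>
    rw [List.map_append, List.prod_append, List.map_singleton, List.prod_singleton]
    cases x
    · simp only [cond_false]
      rw [Data.lab_mul_gB, ih, X_b]
      simp [follow, List.foldl_append]
    · simp only [cond_true]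
      rw [Data.lab_mul_gA, ih, X_a]
      simp [follow, List.foldl_append]

theorem single {i : ℕ} (hi : i ≤ 12) : X.Single i where
  ex := by
    refine ⟨(((words.getD i []).map (fun t => cond t gA gB)).prod), ?_⟩
    rw [lab_follow, X_col]
    exact follow_words ⟨i, by omega⟩
  cyc := by
    intro d d' hd hd'
    change Fin 236 at d d'
    rw [X_col] at hd hd'
    have h1 := fwd_ix d
    have h2 := fwd_ix d'
    rw [hd] at h1
    rw [hd'] at h2
    have h3 := fwd_len ⟨i, by omega⟩
    simp only at h3
    refine ⟨rd tIx d'.1 + (len i - rd tIx d.1), ?_⟩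
    change (fwd)^[rd tIx d'.1 + (len i - rd tIx d.1)] d = d'
    rw [Function.iterate_add_apply]
    have h4 : fwd^[len i - rd tIx d.1] d = rep i := by
      have h5 : fwd^[len i - rd tIx d.1] (fwd^[rd tIx d.1] (rep i)) = rep i := by
        rw [← Function.iterate_add_apply, Nat.sub_add_cancel h1.2]
        exact h3
      rwa [h1.1] at h5
    rw [h4]
    exact h2.1
  simple := by
    intro d hd
    change Fin 236 at d
    rw [X_col] at hd
    rw [X_b, X_col]
    have := simple_all d (by rw [hd]; exact hi)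
    rw [hd] at this
    exact this

theorem disj_all : ∀ d : Fin 236,
    ¬ ((1 ≤ rd tC d.1 ∧ rd tC d.1 ≤ 11) ∧ rd tC (rdF tB d).1 = 0) ∧
    ¬ (rd tC d.1 = 0 ∧ (1 ≤ rd tC (rdF tB d).1 ∧ rd tC (rdF tB d).1 ≤ 11)) := by decide +kernel

/-- Unordered pair of colours at a square. -/
def pairCode (d : Fin 236) : ℕ :=
  min (rd tC d.1) (rd tC (rdF tB d).1) * 256 + max (rd tC d.1) (rd tC (rdF tB d).1)

theorem once_all : ∀ d : Fin 236, ((rd tC d.1 ≤ 11 ∧ rd tC (rdF tB d).1 ≤ 11) ∨
    pairCode d = 12) → ∀ d' : Fin 236, pairCode d' = pairCode d → d = d' := by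
  decide +kernel

theorem meets_code {d : Fin 236} {i j : ℕ} (h : X.Meets d i j) : pairCode d = min i j * 256 + max i j := by
  rcases h with ⟨h1, h2⟩ | ⟨h1, h2⟩
  · rw [X_b, X_col] at h2
    rw [X_col] at h1
    rw [pairCode, h1, h2]
  · rw [X_b, X_col] at h2
    rw [X_col] at h1
    rw [pairCode, h1, h2, min_comm, max_comm]

end Ex

end OneSys
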