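import Pool.Agent.Helper65.OneSys.Base2

open UpperHalfPlane Matrix
open scoped MatrixGroups Pointwise

namespace OneSys

/-- Key step: two points of the base wall at which an affine function has values of opposite sign
give a third point of the base wall at which the function vanishes. -/
private theorem Conn.affine (u : F2) (w w' : ℍ) (hw : sd w = 0) (hw' : sd w' = 0)
    (h : wz u w * wz u w' ≤ 0) : ∃ q : ℍ, sd q = 0 ∧ wz u q = 0 := by
  by_cases h0 : wz u w = 0
  · exact ⟨w, hw, h0⟩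
  have key : ∀ z : ℍ, sd z = 0 → (z.re - 1) ^ 2 + z.im ^ 2 = 2 ∧
      wz u z = (ca u : ℝ) * (2 * z.re + 1) + 2 * (cb u : ℝ) * z.re + (cc u : ℝ) := by
    intro z hz
    unfold sd at hz
    have hn : Complex.normSq (z : ℂ) = 2 * z.re + 1 := by linarith
    refine ⟨?_, by unfold wz; rw [hn]⟩
    have := Complex.normSq_apply (z : ℂ)
    rw [hn] at this
    simp only [UpperHalfPlane.coe_re, UpperHalfPlane.coe_im] at this
    nlinarith
  obtain ⟨hc, he⟩ := key w hw
  obtain ⟨hc', he'⟩ := key w' hw'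
  have hy := w.im_pos
  have hy' := w'.im_pos
  have hd : wz u w - wz u w' ≠ 0 := by
    intro hd
    have : wz u w = wz u w' := by linarith
    rw [← this] at h
    have := mul_self_pos.2 h0
    linarith
  -- parameter of the zero
  set s : ℝ := wz u w / (wz u w - wz u w') with hs
  have hs1 : s * (wz u w - wz u w') = wz u w := by
    rw [hs]; field_simp
  have hs0 : 0 ≤ s := by
    rw [hs]
    rcases lt_or_gt_of_ne h0 with h1 | h1
    · apply div_nonneg_of_nonpos h1.le
      nlinarith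
    · apply div_nonneg h1.le
      nlinarith
  have hs2 : s ≤ 1 := by
    rw [hs]
    rcases lt_or_gt_of_ne h0 with h1 | h1
    · have h2 : 0 ≤ wz u w' := by nlinarith
      rw [div_le_one_of_neg (by linarith)]
      linarith
    · have h2 : wz u w' ≤ 0 := by nlinarith
      rw [div_le_one (by linarith)]
      linarith
  set x : ℝ := (1 - s) * w.re + s * w'.re with hx
  have hpos : 0 < 2 - (x - 1) ^ 2 := by
    have h1 : (w.re - 1) ^ 2 < 2 := by nlinarith
    have h2 : (w'.re - 1) ^ 2 < 2 := by nlinarith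
    have h3 : (x - 1) ^ 2 ≤ (1 - s) * (w.re - 1) ^ 2 + s * (w'.re - 1) ^ 2 := by
      have : (1 - s) * (w.re - 1) ^ 2 + s * (w'.re - 1) ^ 2 - (x - 1) ^ 2
          = s * (1 - s) * (w.re - w'.re) ^ 2 := by rw [hx]; ring
      have h4 : 0 ≤ s * (1 - s) * (w.re - w'.re) ^ 2 :=
        mul_nonneg (mul_nonneg hs0 (by linarith)) (sq_nonneg _)
      linarith
    rcases eq_or_lt_of_le hs0 with h4 | h4
    · rw [← h4] at h3
      linarith
    · nlinarith
  set q : ℍ := ⟨⟨x, Real.sqrt (2 - (x - 1) ^ 2)⟩, by simpa using hpos⟩ with hq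
  have hqre : q.re = x := rfl
  have hqim : q.im = Real.sqrt (2 - (x - 1) ^ 2) := rfl
  have hq0 : sd q = 0 := by
    unfold sd
    rw [Complex.normSq_apply]
    simp only [UpperHalfPlane.coe_re, UpperHalfPlane.coe_im, hqre, hqim]
    rw [Real.mul_self_sqrt hpos.le]
    ring
  refine ⟨q, hq0, ?_⟩
  rw [(key q hq0).2, hqre]
  have : (ca u : ℝ) * (2 * x + 1) + 2 * (cb u : ℝ) * x + (cc u : ℝ)
      = wz u w - s * (wz u w - wz u w') := by
    rw [he, he', hx]; ring
  rw [this, hs1]; ring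

theorem wall_sign (u v : F2) (h : Disjoint (wall u) (wall v)) (z z' : ℍ) (hz : z ∈ wall v)
    (hz' : z' ∈ wall v) : 0 < wz u z * wz u z' := by
  have hmul : ∀ q : ℍ, ∃ r : ℝ, 0 < r ∧ wz u (rho v • q) = r * wz (v⁻¹ * u) q := by
    intro q
    have := wz_smul v (v⁻¹ * u) q
    rwa [mul_inv_cancel_left] at this
  have hcancel : ∀ z : ℍ, rho v • (rho v⁻¹ • z) = z := by
    intro z
    rw [← mul_smul, ← map_mul, mul_inv_cancel, map_one, one_smul]
  have hcancel' : ∀ z : ℍ, rho v⁻¹ • (rho v • z) = z := by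
    intro z
    rw [← mul_smul, ← map_mul, inv_mul_cancel, map_one, one_smul]
  have hne : ∀ q : ℍ, sd q = 0 → wz (v⁻¹ * u) q ≠ 0 := by
    intro q hq h0
    obtain ⟨r, -, hr⟩ := hmul q
    rw [h0, mul_zero] at hr
    refine Set.disjoint_left.1 h ((mem_wall_iff u _).2 hr) ?_
    show sd (rho v⁻¹ • (rho v • q)) = 0
    rw [hcancel', hq]
  obtain ⟨r, hr, he⟩ := hmul (rho v⁻¹ • z)
  obtain ⟨r', hr', he'⟩ := hmul (rho v⁻¹ • z')
  rw [hcancel] at he he'
  have hpos : 0 < wz (v⁻¹ * u) (rho v⁻¹ • z) * wz (v⁻¹ * u) (rho v⁻¹ • z') := by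
    by_contra hcon
    obtain ⟨q, hq, hq0⟩ := Conn.affine (v⁻¹ * u) _ _ hz hz' (not_lt.1 hcon)
    exact hne q hq hq0
  rw [he, he']
  have : r * wz (v⁻¹ * u) (rho v⁻¹ • z) * (r' * wz (v⁻¹ * u) (rho v⁻¹ • z'))
      = (r * r') * (wz (v⁻¹ * u) (rho v⁻¹ • z) * wz (v⁻¹ * u) (rho v⁻¹ • z')) := by ring
  rw [this]
  positivity

end OneSys
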