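import Pool.Agent.Helper65.OneSys.Stab

open UpperHalfPlane Matrix
open scoped MatrixGroups Pointwise

namespace OneSys

theorem Crx.form_one : ca 1 = 1 ∧ cb 1 = -1 ∧ cc 1 = -1 := by
  simp [ca, cb, cc]

theorem Crx.form_gB : ca gB = 1 ∧ cb gB = 1 ∧ cc gB = -1 := by
  have h : rho gB⁻¹ = matB⁻¹ := by rw [map_inv, rho_gB]
  have h00 : (rho gB⁻¹) 0 0 = 1 := by rw [h]; simp [matB, Matrix.SpecialLinearGroup.coe_inv, Matrix.adjugate_fin_two]
  have h01 : (rho gB⁻¹) 0 1 = 0 := by rw [h]; simp [matB, Matrix.SpecialLinearGroup.coe_inv, Matrix.adjugate_fin_two]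
  have h10 : (rho gB⁻¹) 1 0 = -2 := by rw [h]; simp [matB, Matrix.SpecialLinearGroup.coe_inv, Matrix.adjugate_fin_two]
  have h11 : (rho gB⁻¹) 1 1 = 1 := by rw [h]; simp [matB, Matrix.SpecialLinearGroup.coe_inv, Matrix.adjugate_fin_two]
  simp only [ca, cb, cc, h00, h01, h10, h11]
  norm_num

theorem Crx.normSq (z : ℍ) : Complex.normSq (z : ℂ) = z.re ^ 2 + z.im ^ 2 := by
  rw [Complex.normSq_apply]
  have h1 : (z : ℂ).re = z.re := rfl
  have h2 : (z : ℂ).im = z.im := rfl
  rw [h1, h2]
  ring

theorem Crx.ext {z w : ℍ} (h1 : z.re = w.re) (h2 : z.im = w.im) : z = w := by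
  apply UpperHalfPlane.ext
  exact Complex.ext h1 h2

/-- the action of `AB` on the points -/
theorem Crx.step {s t : ℤ} (ht : 0 < t) (ht' : 0 < 12 * s + 17 * t) (h : 2 * t ^ 2 - s ^ 2 = 1)
    {z : ℍ} (hz : (z : ℂ) = 1 + (s + Complex.I) / t) :
    ((rho (gA * gB) • z : ℍ) : ℂ) =
      1 + (((17 * s + 24 * t : ℤ) : ℂ) + Complex.I) / ((12 * s + 17 * t : ℤ) : ℂ) := by
  have h1 : rho (gA * gB) • z = matA • (matB • z) := by
    rw [map_mul, rho_gA, rho_gB, mul_smul]
  rw [h1, Free.matA_smul, Free.matB_smul]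
  have ht0 : (t : ℂ) ≠ 0 := by exact_mod_cast ht.ne'
  have ht1 : (12 : ℂ) * s + 17 * t ≠ 0 := by exact_mod_cast ht'.ne'
  have hden : (2 : ℂ) * z + 1 ≠ 0 := by
    intro h2
    have := congrArg Complex.im h2
    simp at this
    exact z.im_pos.ne' this
  have hh : (2 : ℂ) * t ^ 2 - s ^ 2 = 1 := by exact_mod_cast h
  have hI : Complex.I ^ 2 = -1 := Complex.I_sq
  have hzt : (z : ℂ) * t = t + s + Complex.I := by
    rw [hz]
    field_simp
    ring
  have hden' : (2 : ℂ) * (t + s + Complex.I) + t ≠ 0 := by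
    intro h3
    apply hden
    have : ((2 : ℂ) * z + 1) * t = 0 := by
      rw [add_mul, mul_assoc, hzt, one_mul]
      exact h3
    rcases mul_eq_zero.1 this with h4 | h4
    · exact h4
    · exact absurd h4 ht0
  have e2 : (z : ℂ) / (2 * z + 1) = (t + s + Complex.I) / (2 * (t + s + Complex.I) + t) := by
    rw [div_eq_div_iff hden hden', ← hzt]
    ring
  have e3 : ((t : ℂ) + s + Complex.I) / (2 * (t + s + Complex.I) + t) =
      (17 * s + 24 * t + Complex.I) / (12 * s + 17 * t) - 1 := by
    rw [div_eq_iff hden', sub_mul, div_mul_eq_mul_div, eq_sub_iff_add_eq, eq_div_iff ht1]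
    linear_combination (-2 : ℂ) * hh - 2 * hI
  rw [e2, e3]
  push_cast
  ring

theorem Crx.pell (k : ℕ) : ∀ (s t : ℤ) (z : ℍ), 0 < t → t < k → 2 * t ^ 2 - s ^ 2 = 1 →
    (z : ℂ) = 1 + (s + Complex.I) / t → ∃ w : F2, z = rho w • I := by
  induction k with
  | zero =>
    intro s t z ht hk
    omega
  | succ k ih =>
    intro s t z ht hk h hz
    rcases (show t = 1 ∨ 2 ≤ t by omega) with h1 | h1
    · subst h1
      have hs : s = 1 ∨ s = -1 := by
        have : (s - 1) * (s + 1) = 0 := by linarith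
        rcases mul_eq_zero.1 this with h2 | h2
        · left; linarith
        · right; linarith
      rcases hs with rfl | rfl
      · refine ⟨gA, ?_⟩
        apply UpperHalfPlane.ext
        rw [hz, rho_gA, UpperHalfPlane.coe_specialLinearGroup_apply]
        simp [matA]
        ring
      · refine ⟨1, ?_⟩
        apply UpperHalfPlane.ext
        rw [hz, map_one, one_smul]
        simp
    · have h2 : t ≠ 2 := by
        rintro rfl
        have h3 : s ^ 2 = 7 := by linarith
        have h4 : s < 3 := by nlinarith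
        have h5 : -3 < s := by nlinarith
        interval_cases s <;> omega
      have h3 : 3 ≤ t := by omega
      rcases lt_trichotomy s 0 with hs | hs | hs
      · -- apply AB
        have hp : 0 < 12 * s + 17 * t := by
          by_contra hlt
          have h4 : 17 * t ≤ 12 * (-s) := by linarith
          nlinarith
        have hlt : 12 * s + 17 * t < t := by
          by_contra hge
          have h4 : 3 * (-s) ≤ 4 * t := by linarith
          nlinarith
        obtain ⟨w, hw⟩ := ih (17 * s + 24 * t) (12 * s + 17 * t) (rho (gA * gB) • z) hp (by omega)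
          (by linear_combination h) (Crx.step ht hp h hz)
        refine ⟨(gA * gB)⁻¹ * w, ?_⟩
        rw [map_mul, mul_smul, ← hw, map_inv, inv_smul_smul]
      · subst hs
        omega
      · -- apply the inverse
        have hp : 0 < 17 * t - 12 * s := by
          by_contra hlt
          have h4 : 17 * t ≤ 12 * s := by linarith
          nlinarith
        have hlt : 17 * t - 12 * s < t := by
          by_contra hge
          have h4 : 3 * s ≤ 4 * t := by linarith
          nlinarith
        have hpr : (0 : ℝ) < ((17 * t - 12 * s : ℤ) : ℝ) := by exact_mod_cast hp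
        set z0c : ℂ := 1 + (((17 * s - 24 * t : ℤ) : ℂ) + Complex.I) / ((17 * t - 12 * s : ℤ) : ℂ)
          with hz0c
        have him : 0 < z0c.im := by
          have e : z0c = ((1 + ((17 * s - 24 * t : ℤ) : ℝ) / ((17 * t - 12 * s : ℤ) : ℝ) : ℝ) : ℂ) +
              ((1 / ((17 * t - 12 * s : ℤ) : ℝ) : ℝ) : ℂ) * Complex.I := by
            rw [hz0c]
            push_cast
            ring
          rw [e]
          simp only [Complex.add_im, Complex.ofReal_im, Complex.mul_im, Complex.ofReal_re,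
            Complex.I_im, Complex.I_re, mul_one, mul_zero, add_zero, zero_add]
          positivity
        set z0 : ℍ := ⟨z0c, him⟩ with hz0
        obtain ⟨w, hw⟩ := ih (17 * s - 24 * t) (17 * t - 12 * s) z0 hp (by omega)
          (by linear_combination h) rfl
        refine ⟨(gA * gB) * w, ?_⟩
        rw [map_mul, mul_smul, ← hw]
        apply UpperHalfPlane.ext
        have h5 : 12 * (17 * s - 24 * t) + 17 * (17 * t - 12 * s) = t := by ring
        have h6 : 17 * (17 * s - 24 * t) + 24 * (17 * t - 12 * s) = s := by ring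
        have := Crx.step (s := 17 * s - 24 * t) (t := 17 * t - 12 * s) (z := z0) hp
          (by rw [h5]; exact ht) (by linear_combination h) rfl
        rw [this, h5, h6, hz]

theorem Crx.at_I (v : F2) (h : (I : ℍ) ∈ wall v) : SameWall 1 v ∨ SameWall gB v := by
  rw [mem_wall_iff] at h
  unfold wz at h
  rw [Crx.normSq] at h
  simp only [UpperHalfPlane.I_re, UpperHalfPlane.I_im] at h
  have h1 : ca v + cc v = 0 := by
    have : ((ca v + cc v : ℤ) : ℝ) = 0 := by
      push_cast
      linarith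
    exact_mod_cast this
  have hd := disc v
  have ha := ca_odd v
  have hb := cb_odd v
  obtain ⟨o1, o2, o3⟩ := Crx.form_one
  obtain ⟨b1, b2, b3⟩ := Crx.form_gB
  have hc : cc v = -ca v := by linarith
  rw [hc] at hd
  have hs : cb v ^ 2 + ca v ^ 2 = 2 := by linarith
  have ha1 : ca v = 1 ∨ ca v = -1 := by
    have h2 : ca v < 2 := by nlinarith [sq_nonneg (cb v)]
    have h3 : -2 < ca v := by nlinarith [sq_nonneg (cb v)]
    omega
  have hb1 : cb v = 1 ∨ cb v = -1 := by
    have h2 : cb v < 2 := by nlinarith [sq_nonneg (ca v)]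
    have h3 : -2 < cb v := by nlinarith [sq_nonneg (ca v)]
    omega
  rcases ha1 with ha1 | ha1 <;> rcases hb1 with hb1 | hb1
  · right
    exact sameWall_of_form _ _ (Or.inl ⟨by omega, by omega, by omega⟩)
  · left
    exact sameWall_of_form _ _ (Or.inl ⟨by omega, by omega, by omega⟩)
  · left
    exact sameWall_of_form _ _ (Or.inr ⟨by omega, by omega, by omega⟩)
  · right
    exact sameWall_of_form _ _ (Or.inr ⟨by omega, by omega, by omega⟩)

theorem Crx.base (v : F2) (z : ℍ) (hu : z ∈ wall 1) (hv : z ∈ wall v) (hne : ¬ SameWall 1 v) :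
    ∃ w : F2, z = rho w • I := by
  rw [mem_wall_iff] at hu hv
  unfold wz at hu hv
  obtain ⟨o1, o2, o3⟩ := Crx.form_one
  rw [Crx.normSq] at hu hv
  rw [o1, o2, o3] at hu
  push_cast at hu
  have hd := disc v
  have ha := ca_odd v
  have hb := cb_odd v
  have hc := cc_odd v
  have hsf := fun h => hne (sameWall_of_form 1 v h)
  rw [o1, o2, o3] at hsf
  have hY := z.im_pos
  generalize ca v = a at *
  generalize cb v = b at *
  generalize cc v = c at *
  set X := z.re with hX
  set Y := z.im with hYY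
  have hdr : (b : ℝ) ^ 2 - a * c = 2 := by exact_mod_cast hd
  have e1 : 2 * ((a : ℝ) + b) * (X - 1) = -(3 * a + 2 * b + c) := by
    linear_combination hv - (a : ℝ) * hu
  have hp : a + b ≠ 0 := by
    intro h0
    have h0r : (a : ℝ) + b = 0 := by exact_mod_cast h0
    rw [h0r] at e1
    have h1 : 3 * a + 2 * b + c = 0 := by
      have : ((3 * a + 2 * b + c : ℤ) : ℝ) = 0 := by
        push_cast
        linarith
      exact_mod_cast this
    have h2 : b = -a := by linarith
    have h3 : c = -a := by linarith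
    rw [h2, h3] at hd
    have h4 : (a - 1) * (a + 1) = 0 := by nlinarith
    rcases mul_eq_zero.1 h4 with h5 | h5
    · exact hsf (Or.inl ⟨by omega, by omega, by omega⟩)
    · exact hsf (Or.inr ⟨by omega, by omega, by omega⟩)
  have hpr : (a : ℝ) + b ≠ 0 := by exact_mod_cast hp
  have e2 : 4 * ((a : ℝ) + b) ^ 2 * Y ^ 2 = 16 - (a - 2 * b - c) ^ 2 := by
    have h1 : Y ^ 2 = 2 - (X - 1) ^ 2 := by linarith
    have h2 : (2 * ((a : ℝ) + b) * (X - 1)) ^ 2 = (3 * a + 2 * b + c) ^ 2 := by
      rw [e1]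
      ring
    rw [h1]
    linear_combination -h2 + 8 * hdr
  have hP : a - 2 * b - c = 0 := by
    have h1 : (a - 2 * b - c) ^ 2 < 16 := by
      have : 0 < 4 * ((a : ℝ) + b) ^ 2 * Y ^ 2 := by positivity
      rw [e2] at this
      have h2 : (((a - 2 * b - c) ^ 2 : ℤ) : ℝ) < 16 := by
        push_cast
        linarith
      exact_mod_cast h2
    have h2 : a - 2 * b - c < 4 := by nlinarith
    have h3 : -4 < a - 2 * b - c := by nlinarith
    obtain ⟨a', rfl⟩ : ∃ a', a = 2 * a' + 1 := ⟨a / 2, by omega⟩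
    obtain ⟨b', rfl⟩ : ∃ b', b = 2 * b' + 1 := ⟨b / 2, by omega⟩
    obtain ⟨c', rfl⟩ : ∃ c', c = 2 * c' + 1 := ⟨c / 2, by omega⟩
    have h4 : a' + c' = 2 * (b' ^ 2 + b' - a' * c') - 1 := by linarith
    generalize b' ^ 2 + b' - a' * c' = q at h4
    omega
  obtain ⟨w, hw⟩ : ∃ w, a + b = 2 * w := ⟨(a + b) / 2, by omega⟩
  have hcc : c = a - 2 * b := by linarith
  have hpell : 2 * w ^ 2 - a ^ 2 = 1 := by
    rw [hcc] at hd
    have h1 : (a + b) ^ 2 - 2 * a ^ 2 = 2 := by linarith
    rw [hw] at h1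
    linarith
  have hwr : (a : ℝ) + b = 2 * w := by exact_mod_cast hw
  have hccr : (c : ℝ) = a - 2 * b := by exact_mod_cast hcc
  have hw0 : w ≠ 0 := by
    rintro rfl
    omega
  have hw0r : (w : ℝ) ≠ 0 := by exact_mod_cast hw0
  have hXw : X = 1 + (-a) / w := by
    rw [hwr, hccr] at e1
    field_simp
    linarith
  have hYw : ((w : ℝ) * Y) ^ 2 = 1 := by
    rw [hwr, hccr] at e2
    have : (a : ℝ) - 2 * b - (a - 2 * b) = 0 := by ring
    rw [this] at e2
    linarith
  rcases lt_or_gt_of_ne hw0 with hneg | hpos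
  · have hnegr : (w : ℝ) < 0 := by exact_mod_cast hneg
    have h1 : (w : ℝ) * Y < 0 := mul_neg_of_neg_of_pos hnegr hY
    have h2 : (w : ℝ) * Y = -1 := by nlinarith
    refine Crx.pell ((-w).toNat + 1) a (-w) z (by omega) (by omega) (by linarith) ?_
    apply Complex.ext
    · have e3 : ((1 : ℂ) + ((a : ℂ) + Complex.I) / ((-w : ℤ) : ℂ)).re = 1 + (a : ℝ) / (-w : ℝ) := by
        have : (1 : ℂ) + ((a : ℂ) + Complex.I) / ((-w : ℤ) : ℂ) =
            ((1 + (a : ℝ) / (-w : ℝ) : ℝ) : ℂ) + ((1 / (-w : ℝ) : ℝ) : ℂ) * Complex.I := by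
          push_cast
          ring
        rw [this, Complex.add_re, Complex.ofReal_re, Complex.re_ofReal_mul, Complex.I_re, mul_zero,
          add_zero]
      rw [e3]
      change X = _
      rw [hXw]
      field_simp
    · have e3 : ((1 : ℂ) + ((a : ℂ) + Complex.I) / ((-w : ℤ) : ℂ)).im = 1 / (-w : ℝ) := by
        have : (1 : ℂ) + ((a : ℂ) + Complex.I) / ((-w : ℤ) : ℂ) =
            ((1 + (a : ℝ) / (-w : ℝ) : ℝ) : ℂ) + ((1 / (-w : ℝ) : ℝ) : ℂ) * Complex.I := by
          push_cast
          ring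
        rw [this, Complex.add_im, Complex.ofReal_im, Complex.im_ofReal_mul, Complex.I_im, mul_one,
          zero_add]
      rw [e3]
      change Y = _
      field_simp
      linarith
  · have hposr : (0 : ℝ) < (w : ℝ) := by exact_mod_cast hpos
    have h1 : 0 < (w : ℝ) * Y := mul_pos hposr hY
    have h2 : (w : ℝ) * Y = 1 := by nlinarith
    refine Crx.pell (w.toNat + 1) (-a) w z (by omega) (by omega) (by linarith) ?_
    apply Complex.ext
    · have e3 : ((1 : ℂ) + (((-a : ℤ) : ℂ) + Complex.I) / (w : ℂ)).re = 1 + (-a : ℝ) / (w : ℝ) := by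
        have : (1 : ℂ) + (((-a : ℤ) : ℂ) + Complex.I) / (w : ℂ) =
            ((1 + (-a : ℝ) / (w : ℝ) : ℝ) : ℂ) + ((1 / (w : ℝ) : ℝ) : ℂ) * Complex.I := by
          push_cast
          ring
        rw [this, Complex.add_re, Complex.ofReal_re, Complex.re_ofReal_mul, Complex.I_re, mul_zero,
          add_zero]
      rw [e3]
      exact hXw
    · have e3 : ((1 : ℂ) + (((-a : ℤ) : ℂ) + Complex.I) / (w : ℂ)).im = 1 / (w : ℝ) := by
        have : (1 : ℂ) + (((-a : ℤ) : ℂ) + Complex.I) / (w : ℂ) =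
            ((1 + (-a : ℝ) / (w : ℝ) : ℝ) : ℂ) + ((1 / (w : ℝ) : ℝ) : ℂ) * Complex.I := by
          push_cast
          ring
        rw [this, Complex.add_im, Complex.ofReal_im, Complex.im_ofReal_mul, Complex.I_im, mul_one,
          zero_add]
      rw [e3]
      change Y = _
      field_simp
      linarith

theorem crossing (u v : F2) (z : ℍ) (hu : z ∈ wall u) (hv : z ∈ wall v) (hne : ¬ SameWall u v) :
    ∃ w : F2, z = rho w • I ∧ ((SameWall w u ∧ SameWall (w * gB) v) ∨
      (SameWall w v ∧ SameWall (w * gB) u)) := by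
  have hmv : ∀ (g x : F2) (y : ℍ), y ∈ wall x → rho g • y ∈ wall (g * x) := by
    intro g x y hy
    rw [← smul_wall]
    exact Set.smul_mem_smul_set hy
  have h1 := hmv u⁻¹ u z hu
  have h2 := hmv u⁻¹ v z hv
  rw [inv_mul_cancel] at h1
  obtain ⟨w', hw'⟩ := Crx.base (u⁻¹ * v) (rho u⁻¹ • z) h1 h2 (fun h => hne (by
    have := SameWall.mul_left u h
    rwa [mul_one, mul_inv_cancel_left] at this))
  set w := u * w' with hw
  have hz : z = rho w • I := by
    rw [hw, map_mul, mul_smul, ← hw', map_inv, smul_inv_smul]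
  have hwi : rho w⁻¹ • z = I := by
    rw [hz, map_inv, inv_smul_smul]
  have h3 := hmv w⁻¹ u z hu
  have h4 := hmv w⁻¹ v z hv
  rw [hwi] at h3 h4
  have key : ∀ x : F2, SameWall 1 (w⁻¹ * x) ∨ SameWall gB (w⁻¹ * x) →
      SameWall w x ∨ SameWall (w * gB) x := by
    intro x hx
    rcases hx with hx | hx
    · left
      have := SameWall.mul_left w hx
      rwa [mul_one, mul_inv_cancel_left] at this
    · right
      have := SameWall.mul_left w hx
      rwa [mul_inv_cancel_left] at this
  refine ⟨w, hz, ?_⟩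
  rcases key u (Crx.at_I _ h3) with h5 | h5 <;> rcases key v (Crx.at_I _ h4) with h6 | h6
  · exact absurd (h5.symm.trans h6) hne
  · exact Or.inl ⟨h5, h6⟩
  · exact Or.inr ⟨h6, h5⟩
  · exact absurd (h5.symm.trans h6) hne

end OneSys
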