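/-
Copyright: team pool, helper65.
Definitions for MP_14cec7_gt (do maximal 1-systems of curves fill the surface?).
-/
import Mathlib

open UpperHalfPlane Matrix
open scoped MatrixGroups Pointwise

namespace OneSys

/-! ### The statement -/

/-- The surface `S = G \ ℍ` defined by a subgroup `G` of `SL(2, ℤ)`: the space of `G`-orbits of
the upper half plane.  When `G` has finite index in `SL(2, ℤ)` and acts freely on `ℍ`, this is a
complete hyperbolic surface of finite area, i.e. a surface of finite type (with punctures), and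
`ℍ → S` is its universal cover. -/
noncomputable def Surface (G : Subgroup SL(2, ℤ)) : Type := MulAction.orbitRel.Quotient G ℍ

/-- The covering map `ℍ → S = G \ ℍ`. -/
noncomputable def proj (G : Subgroup SL(2, ℤ)) (z : ℍ) : Surface G := Quotient.mk (MulAction.orbitRel G ℍ) z

/-- The axis of `g = (a b; c d)`: the set of `z ∈ ℍ` with `c |z|² + (d - a) Re z - b = 0`.
When `g` is hyperbolic this is the hyperbolic geodesic line whose two end points are the real fixed
points of `z ↦ (a z + b) / (c z + d)`, i.e. the (real) roots of `c x² + (d - a) x - b = 0`. -/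
def axis (g : SL(2, ℤ)) : Set ℍ :=
  {z | (g 1 0 : ℝ) * Complex.normSq (z : ℂ) + ((g 1 1 : ℝ) - (g 0 0 : ℝ)) * z.re - (g 0 1 : ℝ) = 0}

/-- `γ ⊆ S` is a simple closed geodesic of `S = G \ ℍ`: it is the image of the axis of a
hyperbolic element `g` of `G`, and the translates of this axis by the elements of `G` are pairwise
equal or disjoint.  (Every isotopy class of essential, non peripheral simple closed curves of `S`
contains exactly one simple closed geodesic.) -/
def IsSimpleClosedGeodesic (G : Subgroup SL(2, ℤ)) (γ : Set (Surface G)) : Prop :=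
  ∃ g ∈ G, g.val.IsHyperbolic ∧ γ = proj G '' axis g ∧
    ∀ h ∈ G, h • axis g = axis g ∨ Disjoint (h • axis g) (axis g)

/-- `Γ` is a 1-system on `S = G \ ℍ`, each homotopy class being represented by its geodesic: a set
of simple closed geodesics, two distinct ones meeting in at most one point.  (Distinct geodesics
are in minimal position, so the number of their intersection points is the geometric intersection
number of the homotopy classes.) -/
def IsOneSystem (G : Subgroup SL(2, ℤ)) (Γ : Set (Set (Surface G))) : Prop :=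
  (∀ γ ∈ Γ, IsSimpleClosedGeodesic G γ) ∧
    ∀ γ ∈ Γ, ∀ γ' ∈ Γ, γ ≠ γ' → (γ ∩ γ').encard ≤ 1

/-- The preimage in `ℍ` of the complement `S ∖ ⋃ Γ` of the curves of `Γ`. -/
def complLift (G : Subgroup SL(2, ℤ)) (Γ : Set (Set (Surface G))) : Set ℍ :=
  {z | ∀ γ ∈ Γ, proj G z ∉ γ}

/-- `Γ` fills `S = G \ ℍ`: every component of `S ∖ ⋃ Γ` is an open disk or a once-punctured disk.
The components of `S ∖ ⋃ Γ` are the quotients `U / G_U`, where `U` is a connected component of the
preimage of `S ∖ ⋃ Γ` in `ℍ` (a convex open set) and `G_U` is the stabiliser of `U` in `G`; such a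
component is a disk iff `G_U` is trivial, and a once-punctured disk (the neighbourhood of a
puncture of `S`) iff `G_U` is generated by a parabolic element. -/
def Fills (G : Subgroup SL(2, ℤ)) (Γ : Set (Set (Surface G))) : Prop :=
  ∀ z ∈ complLift G Γ,
    (∀ g ∈ G, g • connectedComponentIn (complLift G Γ) z = connectedComponentIn (complLift G Γ) z →
      g = 1) ∨
    (∃ p ∈ G, p.val.IsParabolic ∧ ∀ g ∈ G,
      g • connectedComponentIn (complLift G Γ) z = connectedComponentIn (complLift G Γ) z ↔
        g ∈ Subgroup.zpowers p)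

/-! ### Working definitions: the tessellation of `ℍ` by ideal squares -/

/-- Free group of rank two. -/
abbrev F2 := FreeGroup Bool

/-- The generator `A`. -/
def gA : F2 := FreeGroup.of true

/-- The generator `B`. -/
def gB : F2 := FreeGroup.of false

/-- The matrix `(1 2; 0 1)`. -/
def matA : SL(2, ℤ) := ⟨!![1, 2; 0, 1], by simp [Matrix.det_fin_two]⟩

/-- The matrix `(1 0; 2 1)`. -/
def matB : SL(2, ℤ) := ⟨!![1, 0; 2, 1], by simp [Matrix.det_fin_two]⟩

/-- The Sanov embedding of the free group in `SL(2, ℤ)`. -/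
def rho : F2 →* SL(2, ℤ) := FreeGroup.lift (fun t => cond t matA matB)

/-- The function whose zero set is the base wall `|z - 1|² = 2`. -/
noncomputable def sd (z : ℍ) : ℝ := Complex.normSq (z : ℂ) - 2 * z.re - 1

/-- The wall of `u`: the translate by `ρ(u)` of the line `|z - 1|² = 2`. -/
def wall (u : F2) : Set ℍ := {z | sd (rho u⁻¹ • z) = 0}

/-- Two elements of the free group give the same wall. -/
def SameWall (u v : F2) : Prop := ∃ n : ℤ, v = u * (gA * gB) ^ n

/-- Coefficients of the form of the wall of `u`: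
`ca u * |z|² + 2 * cb u * Re z + cc u = 0` is the equation of `wall u`. -/
def ca (u : F2) : ℤ := (rho u⁻¹) 0 0 ^ 2 - 2 * (rho u⁻¹) 0 0 * (rho u⁻¹) 1 0 - (rho u⁻¹) 1 0 ^ 2
/-- See `ca`. -/
def cb (u : F2) : ℤ := (rho u⁻¹) 0 0 * (rho u⁻¹) 0 1
  - ((rho u⁻¹) 0 0 * (rho u⁻¹) 1 1 + (rho u⁻¹) 0 1 * (rho u⁻¹) 1 0) - (rho u⁻¹) 1 0 * (rho u⁻¹) 1 1
/-- See `ca`. -/
def cc (u : F2) : ℤ := (rho u⁻¹) 0 1 ^ 2 - 2 * (rho u⁻¹) 0 1 * (rho u⁻¹) 1 1 - (rho u⁻¹) 1 1 ^ 2

/-- The value at the point `z` of `ℍ` of the (real) form of the wall of `u`. -/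
noncomputable def wz (u : F2) (z : ℍ) : ℝ :=
  (ca u : ℝ) * Complex.normSq (z : ℂ) + 2 * (cb u : ℝ) * z.re + (cc u : ℝ)

/-- The value at the cusp `x / y` of the form of the wall of `u`. -/
def wv (u : F2) (v : ℤ × ℤ) : ℤ := ca u * v.1 ^ 2 + 2 * cb u * v.1 * v.2 + cc u * v.2 ^ 2

/-- The four corners `∞, 0, 1, -1` of the base square. -/
inductive Corner
  | inf | zero | one | neg
  deriving DecidableEq

/-- The integer vector of a corner of the base square. -/
def Corner.vec : Corner → ℤ × ℤ
  | .inf => (1, 0)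
  | .zero => (0, 1)
  | .one => (1, 1)
  | .neg => (-1, 1)

/-- Action of a matrix on integer vectors. -/
def act (g : SL(2, ℤ)) (v : ℤ × ℤ) : ℤ × ℤ := (g 0 0 * v.1 + g 0 1 * v.2, g 1 0 * v.1 + g 1 1 * v.2)

/-- The cusp (an integer vector, up to sign) at the corner `s.2` of the square `s.1`. -/
def pos (s : F2 × Corner) : ℤ × ℤ := act (rho s.1) s.2.vec

/-- Going from a square to a neighbouring square around a common corner. -/
inductive Rot : F2 × Corner → F2 × Corner → Prop
  | infA (g : F2) : Rot (g, .inf) (g * gA, .inf)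
  | infA' (g : F2) : Rot (g * gA, .inf) (g, .inf)
  | zeroB (g : F2) : Rot (g, .zero) (g * gB, .zero)
  | zeroB' (g : F2) : Rot (g * gB, .zero) (g, .zero)
  | oneA (g : F2) : Rot (g, .one) (g * gA, .neg)
  | oneA' (g : F2) : Rot (g * gA, .neg) (g, .one)
  | oneB (g : F2) : Rot (g, .one) (g * gB, .neg)
  | oneB' (g : F2) : Rot (g * gB, .neg) (g, .one)

/-- Going from a corner of a square to a neighbouring corner of the same square, crossing the wall
of the middle argument. -/
inductive Cross : F2 × Corner → F2 → F2 × Corner → Prop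
  | c1 (g : F2) : Cross (g, .inf) g (g, .one)
  | c2 (g : F2) : Cross (g, .one) g (g, .inf)
  | c3 (g : F2) : Cross (g, .neg) g (g, .zero)
  | c4 (g : F2) : Cross (g, .zero) g (g, .neg)
  | c5 (g : F2) : Cross (g, .zero) (g * gB) (g, .one)
  | c6 (g : F2) : Cross (g, .one) (g * gB) (g, .zero)
  | c7 (g : F2) : Cross (g, .inf) (g * gB) (g, .neg)
  | c8 (g : F2) : Cross (g, .neg) (g * gB) (g, .inf)

/-- A gallery of cusps, with the list of the walls crossed. -/
inductive Gallery : F2 × Corner → List F2 → F2 × Corner → Prop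
  | nil (s : F2 × Corner) : Gallery s [] s
  | rot {s s' t : F2 × Corner} {l : List F2} (h : Rot s s') (hg : Gallery s' l t) : Gallery s l t
  | cross {s s' t : F2 × Corner} {u : F2} {l : List F2} (h : Cross s u s') (hg : Gallery s' l t) :
      Gallery s (u :: l) t

/-! ### Finite data -/

/-- The finite data: two permutations `a`, `b` of a finite set, a base point and a colouring of the
cycles of `b ∘ a`. -/
structure Data where
  /-- number of squares -/
  N : ℕ
  /-- gluing across the side `(1, ∞)` -/
  a : Equiv.Perm (Fin N)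
  /-- gluing across the side `(0, 1)` -/
  b : Equiv.Perm (Fin N)
  /-- base square -/
  d0 : Fin N
  /-- colours of the walls -/
  col : Fin N → ℕ
  /-- the wall of a square continues through the next square -/
  col_ba : ∀ d, col (b (a d)) = col d

namespace Data

variable (X : Data)

/-- The action of the free group on the finite set. -/
def phi : F2 →* Equiv.Perm (Fin X.N) := FreeGroup.lift (fun t => cond t X.a⁻¹ X.b⁻¹)

/-- The label of the square `u`. -/
def lab (u : F2) : Fin X.N := (X.phi u)⁻¹ X.d0

/-- The stabiliser of the base point in the free group. -/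
def G2 : Subgroup F2 := (MulAction.stabilizer (Equiv.Perm (Fin X.N)) X.d0).comap X.phi

/-- The group of the surface. -/
def grp : Subgroup SL(2, ℤ) := X.G2.map rho

/-- The curve of colour `i`. -/
def curve (i : ℕ) : Set (Surface X.grp) :=
  {x | ∃ u : F2, X.col (X.lab u) = i ∧ ∃ z ∈ wall u, proj X.grp z = x}

/-- The squares of colour `i` form one cycle of `b ∘ a`, and the curve does not cross itself. -/
structure Single (i : ℕ) : Prop where
  ex : ∃ u, X.col (X.lab u) = i
  cyc : ∀ d d', X.col d = i → X.col d' = i → ∃ n : ℕ, (fun x => X.b (X.a x))^[n] d = d'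
  simple : ∀ d, X.col d = i → X.col (X.b d) ≠ i

/-- Colours `i` and `j` cross at the square `d`. -/
def Meets (d : Fin X.N) (i j : ℕ) : Prop :=
  (X.col d = i ∧ X.col (X.b d) = j) ∨ (X.col d = j ∧ X.col (X.b d) = i)

/-- The certificate. -/
structure Cert (cs : Finset ℕ) where
  /-- reachable states -/
  R : Fin X.N → Corner → Finset ℕ → Prop
  start : R X.d0 .inf ∅
  goal : ∀ m, ¬ R X.d0 .zero m
  rot_inf : ∀ d m, R d .inf m ↔ R (X.a d) .inf m
  rot_zero : ∀ d m, R d .zero m ↔ R (X.b d) .zero m
  rot_oneA : ∀ d m, R d .one m ↔ R (X.a d) .neg m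
  rot_oneB : ∀ d m, R d .one m ↔ R (X.b d) .neg m
  cross_a : ∀ d m, X.col d ≠ X.col X.d0 → (X.col d ∈ cs → X.col d ∉ m) →
    (R d .inf m → R d .one (if X.col d ∈ cs then insert (X.col d) m else m)) ∧
    (R d .one m → R d .inf (if X.col d ∈ cs then insert (X.col d) m else m)) ∧
    (R d .neg m → R d .zero (if X.col d ∈ cs then insert (X.col d) m else m)) ∧
    (R d .zero m → R d .neg (if X.col d ∈ cs then insert (X.col d) m else m))
  cross_b : ∀ d m, X.col (X.b d) ≠ X.col X.d0 → (X.col (X.b d) ∈ cs → X.col (X.b d) ∉ m) →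
    (R d .zero m → R d .one (if X.col (X.b d) ∈ cs then insert (X.col (X.b d)) m else m)) ∧
    (R d .one m → R d .zero (if X.col (X.b d) ∈ cs then insert (X.col (X.b d)) m else m)) ∧
    (R d .inf m → R d .neg (if X.col (X.b d) ∈ cs then insert (X.col (X.b d)) m else m)) ∧
    (R d .neg m → R d .inf (if X.col (X.b d) ∈ cs then insert (X.col (X.b d)) m else m))

end Data

end OneSys
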