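import Pool.Agent.Helper65.OneSys.Defs

open UpperHalfPlane Matrix
open scoped MatrixGroups Pointwise

set_option linter.unusedSimpArgs false

namespace OneSys

/-- Representatives of the left cosets of the Sanov group. -/
private def Fi.F : Fin 12 → SL(2, ℤ) := ![
  ⟨!![1, 0; 0, 1], by simp [Matrix.det_fin_two]⟩,
  ⟨!![0, -1; 1, 0], by simp [Matrix.det_fin_two]⟩,
  ⟨!![1, 1; 0, 1], by simp [Matrix.det_fin_two]⟩,
  ⟨!![-1, 0; 0, -1], by simp [Matrix.det_fin_two]⟩,
  ⟨!![1, -1; 1, 0], by simp [Matrix.det_fin_two]⟩,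
  ⟨!![0, -1; 1, 1], by simp [Matrix.det_fin_two]⟩,
  ⟨!![0, 1; -1, 0], by simp [Matrix.det_fin_two]⟩,
  ⟨!![-1, -1; 0, -1], by simp [Matrix.det_fin_two]⟩,
  ⟨!![-1, 0; 1, -1], by simp [Matrix.det_fin_two]⟩,
  ⟨!![1, 0; 1, 1], by simp [Matrix.det_fin_two]⟩,
  ⟨!![-1, 1; -1, 0], by simp [Matrix.det_fin_two]⟩,
  ⟨!![0, 1; -1, -1], by simp [Matrix.det_fin_two]⟩]


private theorem Fi.matA_mem : matA ∈ rho.range := ⟨gA, by simp [rho, gA]⟩
private theorem Fi.matB_mem : matB ∈ rho.range := ⟨gB, by simp [rho, gB]⟩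

private theorem Fi.ext' {x y : SL(2, ℤ)} (h : x.val = y.val) : x = y := Subtype.ext h


private theorem Fi.stepS (i : Fin 12) : ∃ j, ∃ h ∈ rho.range, ModularGroup.S * Fi.F i = Fi.F j * h := by
  fin_cases i
  · exact ⟨1, 1, (one_mem _), by
      apply Fi.ext'
      ext a b; fin_cases a <;> fin_cases b <;>
        simp [Fi.F, ModularGroup.S, matA, matB, Matrix.mul_apply, Fin.sum_univ_two, Matrix.adjugate_fin_two]⟩
  · exact ⟨3, 1, (one_mem _), by
      apply Fi.ext'
      ext a b; fin_cases a <;> fin_cases b <;>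
        simp [Fi.F, ModularGroup.S, matA, matB, Matrix.mul_apply, Fin.sum_univ_two, Matrix.adjugate_fin_two]⟩
  · exact ⟨5, 1, (one_mem _), by
      apply Fi.ext'
      ext a b; fin_cases a <;> fin_cases b <;>
        simp [Fi.F, ModularGroup.S, matA, matB, Matrix.mul_apply, Fin.sum_univ_two, Matrix.adjugate_fin_two]⟩
  · exact ⟨6, 1, (one_mem _), by
      apply Fi.ext'
      ext a b; fin_cases a <;> fin_cases b <;>
        simp [Fi.F, ModularGroup.S, matA, matB, Matrix.mul_apply, Fin.sum_univ_two, Matrix.adjugate_fin_two]⟩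
  · exact ⟨8, 1, (one_mem _), by
      apply Fi.ext'
      ext a b; fin_cases a <;> fin_cases b <;>
        simp [Fi.F, ModularGroup.S, matA, matB, Matrix.mul_apply, Fin.sum_univ_two, Matrix.adjugate_fin_two]⟩
  · exact ⟨7, 1, (one_mem _), by
      apply Fi.ext'
      ext a b; fin_cases a <;> fin_cases b <;>
        simp [Fi.F, ModularGroup.S, matA, matB, Matrix.mul_apply, Fin.sum_univ_two, Matrix.adjugate_fin_two]⟩
  · exact ⟨0, 1, (one_mem _), by
      apply Fi.ext'
      ext a b; fin_cases a <;> fin_cases b <;>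
        simp [Fi.F, ModularGroup.S, matA, matB, Matrix.mul_apply, Fin.sum_univ_two, Matrix.adjugate_fin_two]⟩
  · exact ⟨11, 1, (one_mem _), by
      apply Fi.ext'
      ext a b; fin_cases a <;> fin_cases b <;>
        simp [Fi.F, ModularGroup.S, matA, matB, Matrix.mul_apply, Fin.sum_univ_two, Matrix.adjugate_fin_two]⟩
  · exact ⟨10, 1, (one_mem _), by
      apply Fi.ext'
      ext a b; fin_cases a <;> fin_cases b <;>
        simp [Fi.F, ModularGroup.S, matA, matB, Matrix.mul_apply, Fin.sum_univ_two, Matrix.adjugate_fin_two]⟩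
  · exact ⟨4, matB, Fi.matB_mem, by
      apply Fi.ext'
      ext a b; fin_cases a <;> fin_cases b <;>
        simp [Fi.F, ModularGroup.S, matA, matB, Matrix.mul_apply, Fin.sum_univ_two, Matrix.adjugate_fin_two]⟩
  · exact ⟨9, matB⁻¹, (inv_mem Fi.matB_mem), by
      apply Fi.ext'
      ext a b; fin_cases a <;> fin_cases b <;>
        simp [Fi.F, ModularGroup.S, matA, matB, Matrix.mul_apply, Fin.sum_univ_two, Matrix.adjugate_fin_two]⟩
  · exact ⟨2, 1, (one_mem _), by
      apply Fi.ext'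
      ext a b; fin_cases a <;> fin_cases b <;>
        simp [Fi.F, ModularGroup.S, matA, matB, Matrix.mul_apply, Fin.sum_univ_two, Matrix.adjugate_fin_two]⟩

private theorem Fi.stepT (i : Fin 12) : ∃ j, ∃ h ∈ rho.range, ModularGroup.T * Fi.F i = Fi.F j * h := by
  fin_cases i
  · exact ⟨2, 1, (one_mem _), by
      apply Fi.ext'
      ext a b; fin_cases a <;> fin_cases b <;>
        simp [Fi.F, ModularGroup.T, matA, matB, Matrix.mul_apply, Fin.sum_univ_two, Matrix.adjugate_fin_two]⟩
  · exact ⟨4, 1, (one_mem _), by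
      apply Fi.ext'
      ext a b; fin_cases a <;> fin_cases b <;>
        simp [Fi.F, ModularGroup.T, matA, matB, Matrix.mul_apply, Fin.sum_univ_two, Matrix.adjugate_fin_two]⟩
  · exact ⟨0, matA, Fi.matA_mem, by
      apply Fi.ext'
      ext a b; fin_cases a <;> fin_cases b <;>
        simp [Fi.F, ModularGroup.T, matA, matB, Matrix.mul_apply, Fin.sum_univ_two, Matrix.adjugate_fin_two]⟩
  · exact ⟨7, 1, (one_mem _), by
      apply Fi.ext'
      ext a b; fin_cases a <;> fin_cases b <;>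
        simp [Fi.F, ModularGroup.T, matA, matB, Matrix.mul_apply, Fin.sum_univ_two, Matrix.adjugate_fin_two]⟩
  · exact ⟨1, matB⁻¹, (inv_mem Fi.matB_mem), by
      apply Fi.ext'
      ext a b; fin_cases a <;> fin_cases b <;>
        simp [Fi.F, ModularGroup.T, matA, matB, Matrix.mul_apply, Fin.sum_univ_two, Matrix.adjugate_fin_two]⟩
  · exact ⟨9, 1, (one_mem _), by
      apply Fi.ext'
      ext a b; fin_cases a <;> fin_cases b <;>
        simp [Fi.F, ModularGroup.T, matA, matB, Matrix.mul_apply, Fin.sum_univ_two, Matrix.adjugate_fin_two]⟩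
  · exact ⟨10, 1, (one_mem _), by
      apply Fi.ext'
      ext a b; fin_cases a <;> fin_cases b <;>
        simp [Fi.F, ModularGroup.T, matA, matB, Matrix.mul_apply, Fin.sum_univ_two, Matrix.adjugate_fin_two]⟩
  · exact ⟨3, matA, Fi.matA_mem, by
      apply Fi.ext'
      ext a b; fin_cases a <;> fin_cases b <;>
        simp [Fi.F, ModularGroup.T, matA, matB, Matrix.mul_apply, Fin.sum_univ_two, Matrix.adjugate_fin_two]⟩
  · exact ⟨5, matA⁻¹, (inv_mem Fi.matA_mem), by
      apply Fi.ext'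
      ext a b; fin_cases a <;> fin_cases b <;>
        simp [Fi.F, ModularGroup.T, matA, matB, Matrix.mul_apply, Fin.sum_univ_two, Matrix.adjugate_fin_two]⟩
  · exact ⟨11, matA⁻¹ * matB, (mul_mem (inv_mem Fi.matA_mem) Fi.matB_mem), by
      apply Fi.ext'
      ext a b; fin_cases a <;> fin_cases b <;>
        simp [Fi.F, ModularGroup.T, matA, matB, Matrix.mul_apply, Fin.sum_univ_two, Matrix.adjugate_fin_two]⟩
  · exact ⟨6, matB⁻¹, (inv_mem Fi.matB_mem), by
      apply Fi.ext'
      ext a b; fin_cases a <;> fin_cases b <;>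
        simp [Fi.F, ModularGroup.T, matA, matB, Matrix.mul_apply, Fin.sum_univ_two, Matrix.adjugate_fin_two]⟩
  · exact ⟨8, matB, Fi.matB_mem, by
      apply Fi.ext'
      ext a b; fin_cases a <;> fin_cases b <;>
        simp [Fi.F, ModularGroup.T, matA, matB, Matrix.mul_apply, Fin.sum_univ_two, Matrix.adjugate_fin_two]⟩

theorem rho_range_finiteIndex : rho.range.FiniteIndex := by
  classical
  set s : Set (SL(2, ℤ) ⧸ rho.range) := Set.range (fun i => (Fi.F i : SL(2, ℤ) ⧸ rho.range)) with hs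
  have hsf : s.Finite := Set.finite_range _
  have hst : MulAction.stabilizer SL(2, ℤ) s = ⊤ := by
    rw [eq_top_iff, ← SpecialLinearGroup.SL2Z_generators, Subgroup.closure_le]
    have key : ∀ x : SL(2, ℤ), (∀ i, ∃ j, ∃ h ∈ rho.range, x * Fi.F i = Fi.F j * h) →
        x ∈ MulAction.stabilizer SL(2, ℤ) s := by
      intro x hx
      rw [MulAction.mem_stabilizer_set_iff_smul_set_subset hsf]
      rintro _ ⟨_, ⟨i, rfl⟩, rfl⟩
      obtain ⟨j, h, hh, e⟩ := hx i
      refine ⟨j, ?_⟩
      change ((Fi.F j : SL(2, ℤ)) : SL(2, ℤ) ⧸ rho.range) = ((x * Fi.F i : SL(2, ℤ)) : SL(2, ℤ) ⧸ rho.range)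
      rw [e, QuotientGroup.eq]
      simpa using hh
    rintro x (rfl | rfl)
    · exact key _ Fi.stepS
    · exact key _ Fi.stepT
  have huniv : s = Set.univ := by
    rw [Set.eq_univ_iff_forall]
    intro q
    induction q using QuotientGroup.induction_on with
    | H g =>
      have hg : g ∈ MulAction.stabilizer SL(2, ℤ) s := by rw [hst]; trivial
      rw [MulAction.mem_stabilizer_set] at hg
      have h0 : ((Fi.F 0 : SL(2, ℤ)) : SL(2, ℤ) ⧸ rho.range) ∈ s := ⟨0, rfl⟩
      have h1 := (hg _).2 h0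
      have e : Fi.F 0 = 1 := by
        apply Fi.ext'
        ext a b; fin_cases a <;> fin_cases b <;> simp [Fi.F]
      rw [e] at h1
      have e2 : g • ((1 : SL(2, ℤ)) : SL(2, ℤ) ⧸ rho.range) = (g : SL(2, ℤ) ⧸ rho.range) := by
        change ((g * 1 : SL(2, ℤ)) : SL(2, ℤ) ⧸ rho.range) = _
        rw [mul_one]
      rwa [e2] at h1
  have hfin : Finite (SL(2, ℤ) ⧸ rho.range) := by
    rw [← Set.finite_univ_iff, ← huniv]; exact hsf
  exact Subgroup.finiteIndex_of_finite_quotient

theorem grp_finiteIndex (X : Data) : X.grp.FiniteIndex := by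
  have h1 : X.G2.FiniteIndex := by
    constructor
    unfold Data.G2
    rw [Subgroup.index_comap]
    exact fun h => Subgroup.index_ne_zero_of_finite (Subgroup.index_eq_zero_of_relIndex_eq_zero h)
  have h2 := rho_range_finiteIndex
  constructor
  unfold Data.grp
  rw [Subgroup.index_map]
  refine mul_ne_zero ?_ h2.index_ne_zero
  exact (Subgroup.finiteIndex_of_le (le_sup_left : X.G2 ≤ X.G2 ⊔ rho.ker)).index_ne_zero

end OneSys
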