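import Pool.Agent.Helper65.OneSys.Base1

open UpperHalfPlane Matrix
open scoped MatrixGroups Pointwise

namespace OneSys

namespace Nf

/-! ### End points of the axis of a hyperbolic element -/

/-- The two fixed points. -/
structure Ends (g : SL(2, ℤ)) (ξ η : ℝ) : Prop where
  lt : ξ < η
  sum : (g 1 0 : ℝ) * (ξ + η) = (g 0 0 : ℝ) - (g 1 1 : ℝ)
  prod : (g 1 0 : ℝ) * (ξ * η) = - (g 0 1 : ℝ)
  irrξ : Irrational ξ
  irrη : Irrational η
  c0 : g 1 0 ≠ 0

theorem det_eq (g : SL(2, ℤ)) : g 0 0 * g 1 1 - g 0 1 * g 1 0 = 1 := by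
  have := g.det_coe
  rw [Matrix.det_fin_two] at this
  exact this

theorem discr_eq (g : SL(2, ℤ)) : g.val.discr = (g 0 0 + g 1 1) ^ 2 - 4 := by
  rw [Matrix.discr_fin_two, g.det_coe, Matrix.trace_fin_two]
  ring

theorem not_sq (t : ℤ) (ht : 0 < t ^ 2 - 4) : ¬ IsSquare (t ^ 2 - 4) := by
  rintro ⟨k, hk⟩
  have ht3 : 3 ≤ |t| := by
    by_contra hlt
    have h1 : |t| ≤ 2 := by omega
    have h2 : |t| ^ 2 ≤ 2 ^ 2 := pow_le_pow_left₀ (abs_nonneg t) h1 2
    rw [sq_abs] at h2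
    omega
  have h1 : |k| < |t| := by
    apply lt_of_pow_lt_pow_left₀ 2 (abs_nonneg t)
    rw [sq_abs, sq_abs]
    nlinarith
  have h2 : |t| - 1 < |k| := by
    apply lt_of_pow_lt_pow_left₀ 2 (abs_nonneg k)
    rw [sq_abs k]
    have : (|t| - 1) ^ 2 = t ^ 2 - 2 * |t| + 1 := by
      rw [← sq_abs t]; ring
    rw [this]
    nlinarith
  omega

theorem exists_ends (g : SL(2, ℤ)) (hg : g.val.IsHyperbolic) : ∃ ξ η : ℝ, Ends g ξ η := by
  have hd : 0 < (g 0 0 + g 1 1) ^ 2 - 4 := by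
    rw [← discr_eq]; exact hg
  have hns := not_sq _ hd
  have hdet := det_eq g
  have hc : g 1 0 ≠ 0 := by
    intro h0
    apply hns
    rw [h0, mul_zero, sub_zero] at hdet
    refine ⟨g 0 0 - g 1 1, ?_⟩
    linear_combination 4 * hdet
  have hirr : Irrational (√(((g 0 0 + g 1 1) ^ 2 - 4 : ℤ) : ℝ)) :=
    irrational_sqrt_intCast_iff.2 ⟨hns, hd.le⟩
  have hsq : (√(((g 0 0 + g 1 1) ^ 2 - 4 : ℤ) : ℝ)) ^ 2 = ((g 0 0 : ℝ) + g 1 1) ^ 2 - 4 := by
    rw [Real.sq_sqrt (by exact_mod_cast hd.le)]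
    push_cast; ring
  set s := √(((g 0 0 + g 1 1) ^ 2 - 4 : ℤ) : ℝ) with hs
  have hspos : 0 < s := Real.sqrt_pos.2 (by exact_mod_cast hd)
  have hdetR : (g 0 0 : ℝ) * g 1 1 - (g 0 1 : ℝ) * g 1 0 = 1 := by exact_mod_cast hdet
  have hcR : (g 1 0 : ℝ) ≠ 0 := by exact_mod_cast hc
  have irr1 : Irrational ((((g 0 0 : ℝ) - g 1 1) - s) / (2 * g 1 0)) := by
    rintro ⟨q, hq⟩
    apply hirr
    refine ⟨(g 0 0 - g 1 1) - 2 * g 1 0 * q, ?_⟩
    push_cast
    rw [hq]
    field_simp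
    ring
  have irr2 : Irrational ((((g 0 0 : ℝ) - g 1 1) + s) / (2 * g 1 0)) := by
    rintro ⟨q, hq⟩
    apply hirr
    refine ⟨2 * g 1 0 * q - (g 0 0 - g 1 1), ?_⟩
    push_cast
    rw [hq]
    field_simp
    ring
  rcases lt_or_gt_of_ne hcR with hneg | hpos
  · refine ⟨(((g 0 0 : ℝ) - g 1 1) + s) / (2 * g 1 0), (((g 0 0 : ℝ) - g 1 1) - s) / (2 * g 1 0),
      ?_, ?_, ?_, irr2, irr1, hc⟩
    · rw [div_lt_div_right_of_neg (by linarith)]
      linarith
    · field_simp; ring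
    · field_simp
      linear_combination (-1) * hsq + (-4) * hdetR
  · refine ⟨(((g 0 0 : ℝ) - g 1 1) - s) / (2 * g 1 0), (((g 0 0 : ℝ) - g 1 1) + s) / (2 * g 1 0),
      ?_, ?_, ?_, irr1, irr2, hc⟩
    · rw [div_lt_div_iff_of_pos_right (by linarith)]
      linarith
    · field_simp; ring
    · field_simp
      linear_combination (-1) * hsq + (-4) * hdetR

/-! ### The coordinate -/

/-- The multiplier. -/
noncomputable def nu (g : SL(2, ℤ)) (η : ℝ) : ℝ := (g 1 0 : ℝ) * η + g 1 1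

variable {g : SL(2, ℤ)} {ξ η : ℝ}

theorem nu_mul (E : Ends g ξ η) : nu g η * nu g ξ = 1 := by
  have hdet := det_eq g
  have hdetR : (g 0 0 : ℝ) * g 1 1 - (g 0 1 : ℝ) * g 1 0 = 1 := by exact_mod_cast hdet
  unfold nu
  have h1 := E.sum
  have h2 := E.prod
  linear_combination (g 1 0 : ℝ) * h2 + (g 1 1 : ℝ) * h1 + hdetR

theorem nu_ne (E : Ends g ξ η) : nu g η ≠ 0 := by
  intro h
  have := nu_mul E
  rw [h] at this
  simp at this

theorem nu_sq_pos (E : Ends g ξ η) : 0 < nu g η ^ 2 := by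
  have := nu_ne E
  positivity

theorem nu_sq_ne (E : Ends g ξ η) : nu g η ^ 2 ≠ 1 := by
  intro h
  have hc : (g 1 0 : ℝ) ≠ 0 := by exact_mod_cast E.c0
  have h2 : nu g η = 1 ∨ nu g η = -1 := by
    have : (nu g η - 1) * (nu g η + 1) = 0 := by linear_combination h
    rcases mul_eq_zero.1 this with h' | h'
    · left; linarith
    · right; linarith
  apply E.irrη
  rcases h2 with h2 | h2
  · refine ⟨(1 - g 1 1) / g 1 0, ?_⟩
    push_cast
    unfold nu at h2
    field_simp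
    linarith
  · refine ⟨(-1 - g 1 1) / g 1 0, ?_⟩
    push_cast
    unfold nu at h2
    field_simp
    linarith

theorem im_pos' (h : ξ < η) (w : ℍ) : 0 < (((η : ℂ) * w + ξ) / ((w : ℂ) + 1)).im := by
  have hw := w.im_pos
  have hne : Complex.normSq ((w : ℂ) + 1) ≠ 0 := by
    intro h0
    rw [Complex.normSq_eq_zero] at h0
    have := congrArg Complex.im h0
    simp at this
    exact w.im_ne_zero this
  have hpos : 0 < Complex.normSq ((w : ℂ) + 1) := lt_of_le_of_ne (Complex.normSq_nonneg _) (Ne.symm hne)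
  have : (((η : ℂ) * w + ξ) / ((w : ℂ) + 1)).im = (η - ξ) * w.im / Complex.normSq ((w : ℂ) + 1) := by
    rw [Complex.div_im]
    simp
    field_simp
    ring
  rw [this]
  have : 0 < η - ξ := by linarith
  positivity

/-- The coordinate change. -/
noncomputable def Z (h : ξ < η) (w : ℍ) : ℍ := ⟨((η : ℂ) * w + ξ) / ((w : ℂ) + 1), im_pos' h w⟩

/-- Scaling. -/
noncomputable def sc (m : ℝ) (hm : 0 < m) (w : ℍ) : ℍ := ⟨(m : ℂ) * w, by
  simp only [Complex.mul_im, Complex.ofReal_re, Complex.ofReal_im, zero_mul, add_zero]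
  exact mul_pos hm w.im_pos⟩

theorem wp1_ne (w : ℍ) : (w : ℂ) + 1 ≠ 0 := by
  intro h0
  have := congrArg Complex.im h0
  simp at this
  exact w.im_ne_zero this

theorem continuous_Z (h : ξ < η) : Continuous (Z h) := by
  unfold Z
  apply Continuous.upperHalfPlaneMk
  refine Continuous.div ?_ ?_ ?_
  · exact (continuous_const.mul continuous_coe).add continuous_const
  · exact continuous_coe.add continuous_const
  · exact wp1_ne

theorem smul_Z (E : Ends g ξ η) (w : ℍ) :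
    g • Z E.lt w = Z E.lt (sc (nu g η ^ 2) (nu_sq_pos E) w) := by
  ext
  rw [coe_specialLinearGroup_apply]
  simp only [Z, sc]
  have hw1 := wp1_ne w
  have hw2 := wp1_ne (sc (nu g η ^ 2) (nu_sq_pos E) w)
  simp only [sc] at hw2
  have hnu : (nu g η : ℂ) ≠ 0 := by exact_mod_cast nu_ne E
  have h1 : ((g 0 0 : ℂ)) * η + (g 0 1 : ℂ) = η * nu g η := by
    have hs := E.sum
    have hp := E.prod
    have : (g 0 0 : ℝ) * η + (g 0 1 : ℝ) = η * nu g η := by
      unfold nu; linear_combination (-η) * hs + hp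
    exact_mod_cast this
  have h2 : ((g 0 0 : ℂ)) * ξ + (g 0 1 : ℂ) = ξ * nu g ξ := by
    have hs := E.sum
    have hp := E.prod
    have : (g 0 0 : ℝ) * ξ + (g 0 1 : ℝ) = ξ * nu g ξ := by
      unfold nu; linear_combination (-ξ) * hs + hp
    exact_mod_cast this
  have h3 : (nu g η : ℂ) * nu g ξ = 1 := by exact_mod_cast nu_mul E
  have h4 : (nu g η : ℂ) = (g 1 0 : ℂ) * η + g 1 1 := by simp [nu]
  have h5 : (nu g ξ : ℂ) = (g 1 0 : ℂ) * ξ + g 1 1 := by simp [nu]
  have hden : (nu g η : ℂ) * w + nu g ξ ≠ 0 := by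
    intro h0
    apply hw2
    have : (nu g η : ℂ) * ((nu g η : ℂ) * w + nu g ξ) = 0 := by rw [h0, mul_zero]
    push_cast
    linear_combination this - h3
  have hnum : (g 0 0 : ℂ) * (((η : ℂ) * w + ξ) / ((w : ℂ) + 1)) + (g 0 1 : ℂ)
      = (η * nu g η * w + ξ * nu g ξ) / ((w : ℂ) + 1) := by
    rw [← h1, ← h2]
    field_simp
    ring
  have hdn : (g 1 0 : ℂ) * (((η : ℂ) * w + ξ) / ((w : ℂ) + 1)) + (g 1 1 : ℂ)
      = (nu g η * w + nu g ξ) / ((w : ℂ) + 1) := by
    rw [h4, h5]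
    field_simp
    ring
  have hA : ((algebraMap ℤ ℝ (g 0 0) : ℝ) : ℂ) = (g 0 0 : ℂ) := by simp
  have hB : ((algebraMap ℤ ℝ (g 0 1) : ℝ) : ℂ) = (g 0 1 : ℂ) := by simp
  have hC : ((algebraMap ℤ ℝ (g 1 0) : ℝ) : ℂ) = (g 1 0 : ℂ) := by simp
  have hD : ((algebraMap ℤ ℝ (g 1 1) : ℝ) : ℂ) = (g 1 1 : ℂ) := by simp
  rw [hA, hB, hC, hD, hnum, hdn, div_div_div_cancel_right₀ hw1, div_eq_div_iff hden hw2]
  push_cast
  linear_combination (-((η : ℂ) - ξ) * (nu g η : ℂ) * w) * h3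

/-! ### Axes in the coordinate -/

/-- coefficient -/
noncomputable def qf (k : SL(2, ℤ)) (x : ℝ) : ℝ :=
  (k 1 0 : ℝ) * x ^ 2 + ((k 1 1 : ℝ) - (k 0 0 : ℝ)) * x - (k 0 1 : ℝ)

/-- coefficient -/
noncomputable def bf (k : SL(2, ℤ)) (ξ η : ℝ) : ℝ :=
  2 * (k 1 0 : ℝ) * (ξ * η) + ((k 1 1 : ℝ) - (k 0 0 : ℝ)) * (ξ + η) - 2 * (k 0 1 : ℝ)

theorem mem_axis_Z (h : ξ < η) (k : SL(2, ℤ)) (w : ℍ) :
    Z h w ∈ axis k ↔ qf k η * (w.re ^ 2 + w.im ^ 2) + bf k ξ η * w.re + qf k ξ = 0 := by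
  have hw1 := wp1_ne w
  have hne : Complex.normSq ((w : ℂ) + 1) ≠ 0 := by
    rw [Ne, Complex.normSq_eq_zero]; exact hw1
  have hn : Complex.normSq ((w : ℂ) + 1) = (w.re + 1) ^ 2 + w.im ^ 2 := by
    rw [Complex.normSq_apply]
    simp
    ring
  have h1 : Complex.normSq ((Z h w : ℍ) : ℂ) * Complex.normSq ((w : ℂ) + 1)
      = (η * w.re + ξ) ^ 2 + η ^ 2 * w.im ^ 2 := by
    have : ((Z h w : ℍ) : ℂ) = ((η : ℂ) * w + ξ) / ((w : ℂ) + 1) := rfl
    rw [this, map_div₀, div_mul_cancel₀ _ hne, Complex.normSq_apply]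
    simp
    ring
  have h2 : (Z h w).re * Complex.normSq ((w : ℂ) + 1)
      = η * (w.re ^ 2 + w.im ^ 2) + (η + ξ) * w.re + ξ := by
    have : (Z h w).re = (((η : ℂ) * w + ξ) / ((w : ℂ) + 1)).re := rfl
    rw [this, Complex.div_re]
    simp
    field_simp
    ring
  unfold axis
  simp only [Set.mem_ofPred_eq]
  rw [← mul_left_inj' hne, zero_mul]
  have : ((k 1 0 : ℝ) * Complex.normSq ((Z h w : ℍ) : ℂ) + ((k 1 1 : ℝ) - (k 0 0 : ℝ)) * (Z h w).re
      - (k 0 1 : ℝ)) * Complex.normSq ((w : ℂ) + 1)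
      = qf k η * (w.re ^ 2 + w.im ^ 2) + bf k ξ η * w.re + qf k ξ := by
    have e : ((k 1 0 : ℝ) * Complex.normSq ((Z h w : ℍ) : ℂ) + ((k 1 1 : ℝ) - (k 0 0 : ℝ)) * (Z h w).re
      - (k 0 1 : ℝ)) * Complex.normSq ((w : ℂ) + 1)
      = (k 1 0 : ℝ) * (Complex.normSq ((Z h w : ℍ) : ℂ) * Complex.normSq ((w : ℂ) + 1))
        + ((k 1 1 : ℝ) - (k 0 0 : ℝ)) * ((Z h w).re * Complex.normSq ((w : ℂ) + 1))
        - (k 0 1 : ℝ) * Complex.normSq ((w : ℂ) + 1) := by ring
    rw [e, h1, h2, hn]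
    unfold qf bf
    ring
  rw [this]

theorem qf_self_η (E : Ends g ξ η) : qf g η = 0 := by
  have hs := E.sum
  have hp := E.prod
  unfold qf
  linear_combination η * hs - hp

theorem qf_self_ξ (E : Ends g ξ η) : qf g ξ = 0 := by
  have hs := E.sum
  have hp := E.prod
  unfold qf
  linear_combination ξ * hs - hp

theorem imag_mem (E : Ends g ξ η) (w : ℍ) (hw : w.re = 0) : Z E.lt w ∈ axis g := by
  rw [mem_axis_Z, qf_self_η E, qf_self_ξ E, hw]
  ring

/-- An integral form vanishing at an irrational root of the form of `g` is proportional to it. -/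
theorem prop_of_root (hc : g 1 0 ≠ 0) (x : ℝ) (hx : Irrational x) (hg : qf g x = 0)
    (k : SL(2, ℤ)) (hk : qf k x = 0) : axis g ⊆ axis k := by
  unfold qf at hg hk
  have hcR : (g 1 0 : ℝ) ≠ 0 := by exact_mod_cast hc
  -- the linear relation
  have hlin : ((g 1 0 * (k 1 1 - k 0 0) - k 1 0 * (g 1 1 - g 0 0) : ℤ) : ℝ) * x
      = ((g 1 0 * k 0 1 - k 1 0 * g 0 1 : ℤ) : ℝ) := by
    push_cast
    linear_combination (g 1 0 : ℝ) * hk - (k 1 0 : ℝ) * hg
  have hz : g 1 0 * (k 1 1 - k 0 0) - k 1 0 * (g 1 1 - g 0 0) = 0 := by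
    by_contra hne
    apply hx
    refine ⟨((g 1 0 * k 0 1 - k 1 0 * g 0 1 : ℤ) : ℚ) /
      ((g 1 0 * (k 1 1 - k 0 0) - k 1 0 * (g 1 1 - g 0 0) : ℤ) : ℚ), ?_⟩
    have hneR : ((g 1 0 * (k 1 1 - k 0 0) - k 1 0 * (g 1 1 - g 0 0) : ℤ) : ℝ) ≠ 0 := by
      exact_mod_cast hne
    rw [Rat.cast_div, Rat.cast_intCast, Rat.cast_intCast, ← hlin]
    field_simp
  have hz2 : ((g 1 0 * k 0 1 - k 1 0 * g 0 1 : ℤ) : ℝ) = 0 := by
    rw [← hlin, hz]; simp
  have hzR : (g 1 0 : ℝ) * ((k 1 1 : ℝ) - k 0 0) - (k 1 0 : ℝ) * ((g 1 1 : ℝ) - g 0 0) = 0 := by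
    exact_mod_cast hz
  push_cast at hz2
  intro z hz
  unfold axis at hz ⊢
  simp only [Set.mem_ofPred_eq] at hz ⊢
  have : (g 1 0 : ℝ) * ((k 1 0 : ℝ) * Complex.normSq (z : ℂ) + ((k 1 1 : ℝ) - (k 0 0 : ℝ)) * z.re
      - (k 0 1 : ℝ)) = 0 := by
    linear_combination (k 1 0 : ℝ) * hz + z.re * hzR - hz2
  exact (mul_eq_zero.1 this).resolve_left hcR

theorem key_real (a c β m : ℝ) (hac : 0 < a * c) (hβ : β ^ 2 * m ≤ a * c * (m + 1) ^ 2)
    (u v : ℝ) (hF : a * (u ^ 2 + v ^ 2) + β * u + c = 0) (hm : 0 < m)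
    (hcone : u ^ 2 * (m - 1) ^ 2 < 4 * m * v ^ 2) : False := by
  have h1 : (a * (u ^ 2 + v ^ 2) + c) ^ 2 = β ^ 2 * u ^ 2 := by
    have : a * (u ^ 2 + v ^ 2) + c = - (β * u) := by linarith
    rw [this]; ring
  have h2 : 4 * (a * c) * (u ^ 2 + v ^ 2) ≤ (a * (u ^ 2 + v ^ 2) + c) ^ 2 := by
    nlinarith [sq_nonneg (a * (u ^ 2 + v ^ 2) - c)]
  have h3 : 4 * (a * c) * (u ^ 2 + v ^ 2) * m ≤ a * c * (m + 1) ^ 2 * u ^ 2 := by
    calc 4 * (a * c) * (u ^ 2 + v ^ 2) * m ≤ (β ^ 2 * u ^ 2) * m := by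
          rw [← h1]; exact mul_le_mul_of_nonneg_right h2 hm.le
      _ = (β ^ 2 * m) * u ^ 2 := by ring
      _ ≤ a * c * (m + 1) ^ 2 * u ^ 2 := mul_le_mul_of_nonneg_right hβ (sq_nonneg u)
  have h4 : 4 * (u ^ 2 + v ^ 2) * m ≤ (m + 1) ^ 2 * u ^ 2 := by
    by_contra hlt
    push Not at hlt
    have := mul_lt_mul_of_pos_left hlt hac
    nlinarith
  nlinarith

theorem sc_re (m : ℝ) (hm : 0 < m) (w : ℍ) : (sc m hm w).re = m * w.re := by
  have : (sc m hm w).re = ((m : ℂ) * (w : ℂ)).re := rfl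
  rw [this]
  simp

theorem sc_im (m : ℝ) (hm : 0 < m) (w : ℍ) : (sc m hm w).im = m * w.im := by
  have : (sc m hm w).im = ((m : ℂ) * (w : ℂ)).im := rfl
  rw [this]
  simp

theorem no_point (E : Ends g ξ η) (k : SL(2, ℤ)) (hdisj : Disjoint (axis g) (axis k))
    (hsim : g • axis k = axis k ∨ Disjoint (g • axis k) (axis k)) (w : ℍ) (hw1 : 0 < w.re)
    (hw2 : w.re ^ 2 * (nu g η ^ 2 - 1) ^ 2 < 4 * nu g η ^ 2 * w.im ^ 2) :
    Z E.lt w ∉ axis k := by
  intro hmem
  set m := nu g η ^ 2 with hmdef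
  have hm := nu_sq_pos E
  rw [← hmdef] at hm
  have hm1 : m ≠ 1 := nu_sq_ne E
  set a := qf k η with ha
  set c := qf k ξ with hc
  set β := bf k ξ η with hβ
  have hI : Z E.lt I ∈ axis g := imag_mem E I (by simp)
  have ha0 : a ≠ 0 := by
    intro h0
    have hsub := prop_of_root E.c0 η E.irrη (qf_self_η E) k h0
    exact Set.disjoint_left.1 hdisj hI (hsub hI)
  have hc0 : c ≠ 0 := by
    intro h0
    have hsub := prop_of_root E.c0 ξ E.irrξ (qf_self_ξ E) k h0
    exact Set.disjoint_left.1 hdisj hI (hsub hI)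
  have hac : 0 < a * c := by
    by_contra hle
    push Not at hle
    have hlt : a * c < 0 := lt_of_le_of_ne hle (mul_ne_zero ha0 hc0)
    have hpos : 0 < -c / a := by
      rw [div_pos_iff]
      rcases mul_neg_iff.1 hlt with ⟨h1, h2⟩ | ⟨h1, h2⟩
      · left; constructor <;> linarith
      · right; constructor <;> linarith
    let w0 : ℍ := ⟨(√(-c / a) : ℝ) * Complex.I, by
      simp only [Complex.mul_im, Complex.ofReal_re, Complex.I_im, mul_one, Complex.ofReal_im,
        zero_mul, add_zero]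
      exact Real.sqrt_pos.2 hpos⟩
    have hre : w0.re = 0 := by
      have : w0.re = (((√(-c / a) : ℝ) : ℂ) * Complex.I).re := rfl
      rw [this]; simp
    have him : w0.im = √(-c / a) := by
      have : w0.im = (((√(-c / a) : ℝ) : ℂ) * Complex.I).im := rfl
      rw [this]; simp
    have h1 := imag_mem E w0 hre
    have h2 : Z E.lt w0 ∈ axis k := by
      rw [mem_axis_Z, hre, him, Real.sq_sqrt hpos.le, ← ha, ← hc]
      field_simp
      ring
    exact Set.disjoint_left.1 hdisj h1 h2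
  have hF := (mem_axis_Z E.lt k w).1 hmem
  rw [← ha, ← hc, ← hβ] at hF
  rcases hsim with heq | hdis
  · -- the translate is equal
    have hstep : ∀ w' : ℍ, Z E.lt w' ∈ axis k → Z E.lt (sc m hm w') ∈ axis k := by
      intro w' hw'
      rw [← smul_Z E, ← heq]
      exact Set.smul_mem_smul_set hw'
    have h1 := hstep w hmem
    have h2 := hstep _ h1
    rw [mem_axis_Z, ← ha, ← hc, ← hβ, sc_re, sc_im] at h1
    rw [mem_axis_Z, ← ha, ← hc, ← hβ, sc_re, sc_im, sc_re, sc_im] at h2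
    have hm1' : m - 1 ≠ 0 := sub_ne_zero.2 hm1
    have e1 : a * (w.re ^ 2 + w.im ^ 2) * (m + 1) + β * w.re = 0 := by
      apply mul_left_cancel₀ hm1'
      linear_combination h1 - hF
    have e2 : a * (w.re ^ 2 + w.im ^ 2) * (m ^ 2 + 1) + β * w.re = 0 := by
      have hm2 : m ^ 2 - 1 ≠ 0 := by
        intro h0
        have : (m - 1) * (m + 1) = 0 := by linear_combination h0
        rcases mul_eq_zero.1 this with h | h
        · exact hm1' h
        · linarith
      apply mul_left_cancel₀ hm2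
      linear_combination h2 - hF
    have e3 : a * (w.re ^ 2 + w.im ^ 2) * (m * (m - 1)) = 0 := by linear_combination e2 - e1
    have hn : 0 < w.re ^ 2 + w.im ^ 2 := by positivity
    rcases mul_eq_zero.1 e3 with h | h
    · rcases mul_eq_zero.1 h with h | h
      · exact ha0 h
      · linarith
    · rcases mul_eq_zero.1 h with h | h
      · linarith
      · exact hm1' h
  · -- the translate is disjoint
    by_cases hb : β ^ 2 * m ≤ a * c * (m + 1) ^ 2
    · exact key_real a c β m hac hb w.re w.im hF hm hw2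
    · push Not at hb
      have hβ0 : β ≠ 0 := by
        intro h0
        rw [h0] at hb
        have : 0 ≤ a * c * (m + 1) ^ 2 := by positivity
        nlinarith
      -- the common point
      have hca : 0 < c / (a * m) := by
        have : c / (a * m) = (a * c) / (a ^ 2 * m) := by field_simp
        rw [this]
        positivity
      set x := -(c * (m + 1)) / (β * m) with hx
      have hxx : x ^ 2 < c / (a * m) := by
        have h1 : x ^ 2 = c ^ 2 * (m + 1) ^ 2 / (β ^ 2 * m ^ 2) := by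
          rw [hx]; field_simp
        have h2 : c / (a * m) = (a * c) / (a ^ 2 * m) := by field_simp
        rw [h1, h2, div_lt_div_iff₀ (by positivity) (by positivity)]
        have h3 : c ^ 2 * (m + 1) ^ 2 * (a ^ 2 * m) = (a * c * m) * (a * c * (m + 1) ^ 2) := by ring
        have h4 : a * c * (β ^ 2 * m ^ 2) = (a * c * m) * (β ^ 2 * m) := by ring
        rw [h3, h4]
        exact mul_lt_mul_of_pos_left hb (by positivity)
      have hy : 0 < c / (a * m) - x ^ 2 := by linarith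
      let w0 : ℍ := ⟨(x : ℂ) + (√(c / (a * m) - x ^ 2) : ℝ) * Complex.I, by
        simp only [Complex.add_im, Complex.ofReal_im, Complex.mul_im, Complex.ofReal_re,
          Complex.I_im, mul_one, zero_mul, add_zero, zero_add]
        exact Real.sqrt_pos.2 hy⟩
      have hre : w0.re = x := by
        have : w0.re = ((x : ℂ) + ((√(c / (a * m) - x ^ 2) : ℝ) : ℂ) * Complex.I).re := rfl
        rw [this]; simp
      have him : w0.im = √(c / (a * m) - x ^ 2) := by
        have : w0.im = ((x : ℂ) + ((√(c / (a * m) - x ^ 2) : ℝ) : ℂ) * Complex.I).im := rfl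
        rw [this]; simp
      have hn : w0.re ^ 2 + w0.im ^ 2 = c / (a * m) := by
        rw [hre, him, Real.sq_sqrt hy.le]; ring
      have h1 : Z E.lt w0 ∈ axis k := by
        rw [mem_axis_Z, hn, hre, ← ha, ← hc, ← hβ, hx]
        field_simp
        ring
      have h2 : Z E.lt (sc m hm w0) ∈ axis k := by
        rw [mem_axis_Z, ← ha, ← hc, ← hβ, sc_re, sc_im]
        have : (m * w0.re) ^ 2 + (m * w0.im) ^ 2 = m ^ 2 * (c / (a * m)) := by
          rw [← hn]; ring
        rw [this, hre, hx]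
        field_simp
        ring
      have h3 : Z E.lt (sc m hm w0) ∈ g • axis k := by
        have := smul_Z E w0
        rw [← this]
        exact Set.smul_mem_smul_set h1
      exact Set.disjoint_left.1 hdis h3 h2

/-! ### Topology -/

/-- A cone in the coordinate. -/
def cone (m : ℝ) : Set ℍ := {w | 0 < w.re ∧ w.re * |m - 1| < 2 * √m * w.im}

theorem cone_sq {m : ℝ} (hm : 0 < m) {w : ℍ} (hw : w ∈ cone m) :
    w.re ^ 2 * (m - 1) ^ 2 < 4 * m * w.im ^ 2 := by
  obtain ⟨h1, h2⟩ := hw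
  have h3 : (w.re * |m - 1|) ^ 2 < (2 * √m * w.im) ^ 2 := by
    apply pow_lt_pow_left₀ h2 (by positivity) (by norm_num)
  have h4 : (w.re * |m - 1|) ^ 2 = w.re ^ 2 * (m - 1) ^ 2 := by
    rw [mul_pow, sq_abs]
  have h5 : (2 * √m * w.im) ^ 2 = 4 * m * w.im ^ 2 := by
    rw [mul_pow, mul_pow, Real.sq_sqrt hm.le]; ring
  rw [h4, h5] at h3
  exact h3

theorem cone_coe {m : ℝ} (hm : 0 < m) : ((↑) : ℍ → ℂ) '' cone m =
    {w : ℂ | 0 < w.re ∧ w.re * |m - 1| < 2 * √m * w.im} := by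
  ext w
  constructor
  · rintro ⟨z, hz, rfl⟩
    exact hz
  · rintro ⟨h1, h2⟩
    have him : 0 < w.im := by
      by_contra hle
      push Not at hle
      have h3 : 0 ≤ w.re * |m - 1| := by positivity
      have h4 : 2 * √m * w.im ≤ 0 := by
        apply mul_nonpos_of_nonneg_of_nonpos (by positivity) hle
      linarith
    exact ⟨⟨w, him⟩, ⟨h1, h2⟩, rfl⟩

theorem cone_preconn {m : ℝ} (hm : 0 < m) : IsPreconnected (cone m) := by
  rw [← UpperHalfPlane.isEmbedding_coe.isInducing.isPreconnected_image, cone_coe hm]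
  apply Convex.isPreconnected
  intro x hx y hy a b ha hb hab
  obtain ⟨hx1, hx2⟩ := hx
  obtain ⟨hy1, hy2⟩ := hy
  constructor
  · simp only [Complex.add_re, Complex.smul_re, smul_eq_mul]
    rcases eq_or_lt_of_le ha with h | h
    · rw [← h]; rw [← h] at hab
      have : b = 1 := by linarith
      rw [this]; simpa using hy1
    · have := mul_pos h hx1
      have := mul_nonneg hb hy1.le
      linarith
  · simp only [Complex.add_re, Complex.smul_re, smul_eq_mul, Complex.add_im, Complex.smul_im]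
    rcases eq_or_lt_of_le ha with h | h
    · rw [← h]; rw [← h] at hab
      have : b = 1 := by linarith
      rw [this]; simpa using hy2
    · have h1 := mul_lt_mul_of_pos_left hx2 h
      have h2 := mul_le_mul_of_nonneg_left hy2.le hb
      linarith

theorem cone_sc {m n : ℝ} (hn : 0 < n) {w : ℍ} (hw : w ∈ cone m) : sc n hn w ∈ cone m := by
  obtain ⟨h1, h2⟩ := hw
  refine ⟨?_, ?_⟩
  · rw [sc_re]; positivity
  · rw [sc_re, sc_im]
    have := mul_lt_mul_of_pos_left h2 hn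
    linarith

theorem cone_nonempty {m : ℝ} (hm : 0 < m) : (cone m).Nonempty := by
  have h0 : 0 < √m := Real.sqrt_pos.2 hm
  let w : ℂ := ⟨√m, |m - 1| + 1⟩
  have him : 0 < w.im := by
    show 0 < |m - 1| + 1
    positivity
  refine ⟨⟨w, him⟩, ?_, ?_⟩
  · exact h0
  · show √m * |m - 1| < 2 * √m * (|m - 1| + 1)
    have : 0 ≤ |m - 1| := abs_nonneg _
    nlinarith

variable {G : Subgroup SL(2, ℤ)} {Γ : Set (Set (Surface G))}

theorem proj_smul {k : SL(2, ℤ)} (hk : k ∈ G) (z : ℍ) : proj G (k • z) = proj G z := by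
  unfold proj
  apply Quotient.sound
  exact ⟨⟨k, hk⟩, rfl⟩

theorem proj_eq {z z' : ℍ} (h : proj G z = proj G z') : ∃ k ∈ G, z = k • z' := by
  have h2 := Quotient.exact h
  obtain ⟨⟨k, hk⟩, hkz⟩ := h2
  exact ⟨k, hk, hkz.symm⟩

theorem smul_complLift {k : SL(2, ℤ)} (hk : k ∈ G) : k • complLift G Γ = complLift G Γ := by
  ext z
  rw [Set.mem_smul_set_iff_inv_smul_mem]
  unfold complLift
  simp only [Set.mem_ofPred_eq]
  rw [proj_smul (inv_mem hk)]

theorem smul_component {k : SL(2, ℤ)} (hk : k ∈ G) (z : ℍ) (hz : z ∈ complLift G Γ) :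
    k • connectedComponentIn (complLift G Γ) z = connectedComponentIn (complLift G Γ) (k • z) := by
  have hcont : ∀ k : SL(2, ℤ), Continuous (fun z : ℍ => k • z) := fun k => by
    have h : (fun z : ℍ => k • z) = (fun z : ℍ => (Matrix.SpecialLinearGroup.mapGL ℝ k) • z) := by
      funext z; rfl
    rw [h]
    exact continuous_const_smul _
  let φ : ℍ ≃ₜ ℍ :=
    { toFun := fun z => k • z
      invFun := fun z => k⁻¹ • z
      left_inv := fun z => inv_smul_smul k z
      right_inv := fun z => smul_inv_smul k z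
      continuous_toFun := hcont k
      continuous_invFun := hcont k⁻¹ }
  have h1 := φ.image_connectedComponentIn hz
  have h2 : φ '' complLift G Γ = complLift G Γ := smul_complLift hk
  rw [h2] at h1
  exact h1

theorem pow_disc (p : SL(2, ℤ)) (n : ℤ) : ∃ u v : ℤ,
    (p ^ n).val = !![u * p 0 0 + v, u * p 0 1; u * p 1 0, u * p 1 1 + v] := by
  have hdet := det_eq p
  have hp : p.val = !![p 0 0, p 0 1; p 1 0, p 1 1] := Matrix.eta_fin_two _
  have hinv : (p⁻¹).val = !![p 1 1, -p 0 1; -p 1 0, p 0 0] := by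
    rw [Matrix.SpecialLinearGroup.coe_inv, Matrix.adjugate_fin_two]
  induction n using Int.induction_on with
  | zero => exact ⟨0, 1, by ext i j; fin_cases i <;> fin_cases j <;> simp⟩
  | succ n ih =>
    obtain ⟨u, v, h⟩ := ih
    refine ⟨u * (p 0 0 + p 1 1) + v, -u, ?_⟩
    rw [_root_.zpow_add_one, Matrix.SpecialLinearGroup.coe_mul, h]
    rw [hp]
    ext i j
    fin_cases i <;> fin_cases j <;> simp [Matrix.mul_apply, Fin.sum_univ_two] <;>
      first
        | ring1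
        | linear_combination u * hdet
        | linear_combination (-u) * hdet
  | pred n ih =>
    obtain ⟨u, v, h⟩ := ih
    refine ⟨-v, u + v * (p 0 0 + p 1 1), ?_⟩
    rw [_root_.zpow_sub_one, Matrix.SpecialLinearGroup.coe_mul, h, hinv]
    rw [hp]
    ext i j
    fin_cases i <;> fin_cases j <;> simp [Matrix.mul_apply, Fin.sum_univ_two] <;>
      first
        | ring1
        | linear_combination u * hdet
        | linear_combination (-u) * hdet

theorem not_mem_zpowers (k p : SL(2, ℤ)) (hk : k.val.IsHyperbolic) (hp : p.val.IsParabolic) :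
    k ∉ Subgroup.zpowers p := by
  rintro ⟨n, rfl⟩
  obtain ⟨u, v, h⟩ := pow_disc p n
  have h1 : ((fun x => p ^ x) n).val.discr = u ^ 2 * p.val.discr := by
    show (p ^ n).val.discr = _
    rw [h, Matrix.discr_fin_two, Matrix.discr_fin_two, Matrix.trace_fin_two, Matrix.det_fin_two,
      Matrix.trace_fin_two, Matrix.det_fin_two]
    simp
    ring
  have h2 : p.val.discr = 0 := hp.2
  have h3 : 0 < ((fun x => p ^ x) n).val.discr := hk
  rw [h1, h2] at h3
  simp at h3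

theorem lift_subset (h : IsOneSystem G Γ) (α : Set (Surface G))
    (hiso : ∀ γ ∈ Γ, γ ≠ α → Disjoint γ α) (hg : g ∈ G) (hα' : α = proj G '' axis g)
    (hsim : ∀ h ∈ G, h • axis g = axis g ∨ Disjoint (h • axis g) (axis g)) (E : Ends g ξ η)
    (hα : α ∈ Γ) (w : ℍ) (hw : w ∈ cone (nu g η ^ 2)) : Z E.lt w ∈ complLift G Γ := by
  have hw1 : 0 < w.re := hw.1
  have hw2 := cone_sq (nu_sq_pos E) hw
  intro γ hγ hmem
  -- a translate of an axis through the point
  have main : ∀ k : SL(2, ℤ), k ∈ G → ∀ g1 : SL(2, ℤ), Z E.lt w ∈ k • axis g1 →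
      Disjoint (axis g) (k • axis g1) →
      (∀ h ∈ G, h • axis g1 = axis g1 ∨ Disjoint (h • axis g1) (axis g1)) → False := by
    intro k hk g1 hz hd hs
    rw [smul_axis] at hz hd
    refine no_point E _ hd ?_ w hw1 hw2 hz
    have h1 := hs (k⁻¹ * g * k) (mul_mem (mul_mem (inv_mem hk) hg) hk)
    have h2 : g • axis (k * g1 * k⁻¹) = k • ((k⁻¹ * g * k) • axis g1) := by
      rw [← smul_axis k g1, smul_smul, smul_smul]
      congr 1
      group
    rw [h2, ← smul_axis k g1]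
    rcases h1 with h1 | h1
    · left; rw [h1]
    · right
      exact Set.disjoint_smul_set.2 h1
  by_cases hγα : γ = α
  · subst hγα
    rw [hα'] at hmem
    obtain ⟨z', hz', hzz⟩ := hmem
    obtain ⟨k, hk, hkz⟩ := proj_eq hzz.symm
    rcases hsim k hk with heq | hdis
    · -- the point is on the axis of g
      have hz : Z E.lt w ∈ axis g := by
        rw [hkz, ← heq]
        exact Set.smul_mem_smul_set hz'
      rw [mem_axis_Z, qf_self_η E, qf_self_ξ E] at hz
      have hb : bf g ξ η * w.re = 0 := by linarith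
      rcases mul_eq_zero.1 hb with hb | hb
      · have hs := E.sum
        have hp := E.prod
        have hlt := E.lt
        have hc : (g 1 0 : ℝ) ≠ 0 := by exact_mod_cast E.c0
        have : (g 1 0 : ℝ) * (ξ - η) ^ 2 = 0 := by
          unfold bf at hb
          linear_combination (ξ + η) * hs - 2 * hp - hb
        rcases mul_eq_zero.1 this with h0 | h0
        · exact hc h0
        · have : ξ - η = 0 := by simpa using h0
          linarith
      · linarith
    · refine main k hk g ?_ hdis.symm hsim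
      rw [hkz]
      exact Set.smul_mem_smul_set hz'
  · obtain ⟨g1, hg1, -, hγ1, hs1⟩ := h.1 γ hγ
    have hdj := hiso γ hγ hγα
    rw [hγ1] at hmem
    obtain ⟨z', hz', hzz⟩ := hmem
    obtain ⟨k, hk, hkz⟩ := proj_eq hzz.symm
    refine main k hk g1 ?_ ?_ hs1
    · rw [hkz]
      exact Set.smul_mem_smul_set hz'
    · rw [Set.disjoint_left]
      rintro z hz ⟨z2, hz2, rfl⟩
      have h1 : proj G (k • z2) ∈ α := by
        rw [hα']; exact ⟨_, hz, rfl⟩
      have h2 : proj G (k • z2) ∈ γ := by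
        rw [hγ1, proj_smul hk]; exact ⟨_, hz2, rfl⟩
      exact Set.disjoint_left.1 hdj h2 h1

end Nf

theorem not_fills (G : Subgroup SL(2, ℤ)) (Γ : Set (Set (Surface G))) (h : IsOneSystem G Γ)
    (α : Set (Surface G)) (hα : α ∈ Γ) (hiso : ∀ γ ∈ Γ, γ ≠ α → Disjoint γ α) :
    ¬ Fills G Γ := by
  obtain ⟨g, hg, hhyp, hα', hsim⟩ := h.1 α hα
  obtain ⟨ξ, η, E⟩ := Nf.exists_ends g hhyp
  have hm := Nf.nu_sq_pos E
  obtain ⟨w, hw⟩ := Nf.cone_nonempty hm
  have hN : Nf.Z E.lt '' Nf.cone (Nf.nu g η ^ 2) ⊆ complLift G Γ := by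
    rintro _ ⟨w', hw', rfl⟩
    exact Nf.lift_subset h α hiso hg hα' hsim E hα w' hw'
  have hpre : IsPreconnected (Nf.Z E.lt '' Nf.cone (Nf.nu g η ^ 2)) :=
    (Nf.cone_preconn hm).image _ (Nf.continuous_Z E.lt).continuousOn
  have hz : Nf.Z E.lt w ∈ complLift G Γ := hN ⟨w, hw, rfl⟩
  have hgz : g • Nf.Z E.lt w ∈ Nf.Z E.lt '' Nf.cone (Nf.nu g η ^ 2) := by
    rw [Nf.smul_Z E]
    exact ⟨_, Nf.cone_sc hm hw, rfl⟩
  have hsub := hpre.subset_connectedComponentIn ⟨w, hw, rfl⟩ hN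
  have hinv : g • connectedComponentIn (complLift G Γ) (Nf.Z E.lt w)
      = connectedComponentIn (complLift G Γ) (Nf.Z E.lt w) := by
    rw [Nf.smul_component hg _ hz]
    exact (connectedComponentIn_eq (hsub hgz)).symm
  intro hF
  rcases hF _ hz with h1 | ⟨p, hp, hpar, h2⟩
  · have := h1 g hg hinv
    rw [this] at hhyp
    have h3 := Nf.discr_eq (1 : SL(2, ℤ))
    have h4 : 0 < (1 : SL(2, ℤ)).val.discr := hhyp
    rw [h3] at h4
    simp at h4
  · exact Nf.not_mem_zpowers g p hhyp hpar ((h2 g hg).1 hinv)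

end OneSys
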