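import Pool.Agent.Helper65.OneSys.Lab

open UpperHalfPlane Matrix
open scoped MatrixGroups Pointwise

namespace OneSys

namespace Data
variable (X : Data)

private theorem Sys.rho_mem {h : F2} (hh : h ∈ X.G2) : rho h ∈ X.grp :=
  Subgroup.mem_map_of_mem rho hh

private theorem Sys.proj_smul {h : F2} (hh : h ∈ X.G2) (z : ℍ) :
    proj X.grp (rho h • z) = proj X.grp z := by
  unfold proj
  apply Quotient.sound
  exact ⟨⟨rho h, Sys.rho_mem X hh⟩, rfl⟩

private theorem Sys.proj_eq {z z' : ℍ} (h : proj X.grp z = proj X.grp z') :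
    ∃ k ∈ X.G2, z = rho k • z' := by
  have h2 := Quotient.exact h
  obtain ⟨⟨g, hg⟩, hgz⟩ := h2
  obtain ⟨k, hk, rfl⟩ := hg
  exact ⟨k, hk, hgz.symm⟩

private theorem Sys.mem_mul {h u : F2} {z : ℍ} (hz : z ∈ wall u) : rho h • z ∈ wall (h * u) := by
  rw [← smul_wall]
  exact Set.smul_mem_smul_set hz

/-- Points common to two curves. -/
private theorem Sys.common {i j : ℕ} (hij : i ≠ j) {x : Surface X.grp} (hi : x ∈ X.curve i)
    (hj : x ∈ X.curve j) : ∃ w : F2, x = proj X.grp (rho w • I) ∧ X.Meets (X.lab w) i j := by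
  obtain ⟨u, hu, z1, hz1, rfl⟩ := hi
  obtain ⟨v, hv, z2, hz2, hzz⟩ := hj
  obtain ⟨k, hk, rfl⟩ := Sys.proj_eq X hzz.symm
  have h1 : rho k • z2 ∈ wall (k * v) := Sys.mem_mul hz2
  have h2 : X.col (X.lab (k * v)) = j := by rw [X.lab_mul k v hk, hv]
  have hne : ¬ SameWall u (k * v) := by
    intro hs
    have := X.col_sameWall hs
    rw [hu, h2] at this
    exact hij this
  obtain ⟨w, hw, hm⟩ := X.meets_of_mem hz1 h1 hne
  refine ⟨w, by rw [hw], ?_⟩
  rw [hu, h2] at hm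
  exact hm

theorem curve_geodesic {i : ℕ} (h : X.Single i) : IsSimpleClosedGeodesic X.grp (X.curve i) := by
  obtain ⟨u, hu⟩ := h.ex
  set n := orderOf (X.phi (gA * gB)) with hn
  have hn0 : n ≠ 0 := by
    have : 0 < orderOf (X.phi (gA * gB)) := orderOf_pos _
    omega
  have hmem : u * (gA * gB) ^ n * u⁻¹ ∈ X.G2 := by
    have : X.phi (u * (gA * gB) ^ n * u⁻¹) = 1 := by
      rw [map_mul, map_mul, map_pow, hn, pow_orderOf_eq_one, mul_one, ← map_mul, mul_inv_cancel,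
        map_one]
    show X.phi (u * (gA * gB) ^ n * u⁻¹) ∈ MulAction.stabilizer (Equiv.Perm (Fin X.N)) X.d0
    rw [this]
    exact one_mem _
  obtain ⟨hhyp, haxis⟩ := wall_eq_axis u n hn0
  refine ⟨rho (u * (gA * gB) ^ n * u⁻¹), Sys.rho_mem X hmem, hhyp, ?_, ?_⟩
  · rw [haxis]
    ext x
    constructor
    · rintro ⟨v, hv, z, hz, rfl⟩
      obtain ⟨k, hk, hs⟩ := h.sameWall X hu hv
      rw [← hs.wall_eq, ← smul_wall] at hz
      obtain ⟨z', hz', rfl⟩ := hz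
      exact ⟨z', hz', (Sys.proj_smul X hk z').symm⟩
    · rintro ⟨z, hz, rfl⟩
      exact ⟨u, hu, z, hz, rfl⟩
  · rintro g ⟨k, hk, rfl⟩
    rw [haxis, smul_wall]
    by_cases hs : SameWall (k * u) u
    · exact Or.inl hs.wall_eq
    · right
      rw [Set.disjoint_left]
      intro z hz1 hz2
      obtain ⟨w, -, hm⟩ := X.meets_of_mem hz1 hz2 hs
      rw [X.lab_mul k u hk, hu] at hm
      rcases hm with ⟨h1, h2⟩ | ⟨h1, h2⟩
      · exact h.simple _ h1 h2
      · exact h.simple _ h1 h2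

theorem curve_encard {i j : ℕ} (hij : i ≠ j)
    (h : ∀ d d', X.Meets d i j → X.Meets d' i j → d = d') :
    (X.curve i ∩ X.curve j).encard ≤ 1 := by
  rw [Set.encard_le_one_iff]
  rintro x y ⟨hx1, hx2⟩ ⟨hy1, hy2⟩
  obtain ⟨w, rfl, hm⟩ := Sys.common X hij hx1 hx2
  obtain ⟨w', rfl, hm'⟩ := Sys.common X hij hy1 hy2
  obtain ⟨k, hk, rfl⟩ := (X.lab_eq_iff w w').1 (h _ _ hm hm')
  rw [map_mul, mul_smul]
  exact (Sys.proj_smul X hk _).symm

theorem curve_disjoint {i j : ℕ} (hij : i ≠ j) (h : ∀ d, ¬ X.Meets d i j) :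
    Disjoint (X.curve i) (X.curve j) := by
  rw [Set.disjoint_left]
  intro x hx hy
  obtain ⟨w, -, hm⟩ := Sys.common X hij hx hy
  exact h _ hm

theorem curve_base : proj X.grp I ∈ X.curve (X.col (X.b X.d0)) ∩ X.curve (X.col X.d0) := by
  have hlab1 : X.lab 1 = X.d0 := by
    rw [← X.mem_G2]
    exact one_mem _
  refine ⟨⟨gB, ?_, I, ?_, rfl⟩, ⟨1, by rw [hlab1], I, ?_, rfl⟩⟩
  · rw [← one_mul gB, X.lab_mul_gB, hlab1]
  · have hB : rho gB = matB := by simp [rho, gB]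
    rw [mem_wall_iff]
    simp [wz, ca, cb, cc, hB, matB, Matrix.adjugate_fin_two]
  · rw [mem_wall_iff]
    simp [wz, ca, cb, cc]

end Data

end OneSys
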