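import Pool.Agent.Helper65.OneSys.Defs

open UpperHalfPlane Matrix
open scoped MatrixGroups Pointwise

namespace OneSys

theorem exists_maximal (G : Subgroup SL(2, ℤ)) (Γ : Set (Set (Surface G))) (h : IsOneSystem G Γ) :
    ∃ Γ', Γ ⊆ Γ' ∧ Maximal (IsOneSystem G) Γ' := by
  have key := zorn_subset_nonempty {Γ' : Set (Set (Surface G)) | IsOneSystem G Γ'} ?_ Γ h
  · obtain ⟨m, hm, hmax⟩ := key
    exact ⟨m, hm, hmax⟩
  · intro c hc hchain hne
    refine ⟨⋃₀ c, ⟨?_, ?_⟩, fun s hs => Set.subset_sUnion_of_mem hs⟩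
    · rintro γ ⟨s, hs, hγ⟩
      exact (hc hs).1 γ hγ
    · rintro γ ⟨s, hs, hγ⟩ γ' ⟨s', hs', hγ'⟩ hne'
      rcases hchain.total hs hs' with hle | hle
      · exact (hc hs').2 γ (hle hγ) γ' hγ' hne'
      · exact (hc hs).2 γ hγ γ' (hle hγ') hne'

end OneSys
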