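import Pool.Agent.Helper65.OneSys.Key
import Pool.Agent.Helper65.OneSys.Sys
import Pool.Agent.Helper65.OneSys.Nf
import Pool.Agent.Helper65.OneSys.Zorn
import Pool.Agent.Helper65.OneSys.Fi

open UpperHalfPlane Matrix
open scoped MatrixGroups Pointwise

namespace OneSys

namespace Data
variable (X : Data)

theorem main {cs : Finset ℕ} (C : X.Cert cs) (hα : X.Single (X.col X.d0))
    (hcs : ∀ i ∈ cs, X.Single i) (hα' : X.col X.d0 ∉ cs)
    (hdis : ∀ i ∈ cs, ∀ d, ¬ X.Meets d i (X.col X.d0))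
    (honce : ∀ i ∈ cs, ∀ j ∈ cs, i ≠ j → ∀ d d', X.Meets d i j → X.Meets d' i j → d = d')
    (hδ : X.Single (X.col (X.b X.d0)))
    (hδ1 : ∀ d d', X.Meets d (X.col (X.b X.d0)) (X.col X.d0) →
      X.Meets d' (X.col (X.b X.d0)) (X.col X.d0) → d = d') :
    ∃ G : Subgroup SL(2, ℤ), G.FiniteIndex ∧ (∀ g ∈ G, ∀ z : ℍ, g • z = z → g = 1) ∧
      ∃ Γ : Set (Set (Surface G)), Maximal (IsOneSystem G) Γ ∧ ¬ Fills G Γ ∧
        ∃ α ∈ Γ, (∀ γ ∈ Γ, γ ≠ α → Disjoint γ α) ∧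
          ∃ δ, IsSimpleClosedGeodesic G δ ∧ (δ ∩ α).encard = 1 := by
  have hsimp : X.col (X.b X.d0) ≠ X.col X.d0 := hα.simple X.d0 rfl
  set α := X.curve (X.col X.d0) with hαdef
  have hαg : IsSimpleClosedGeodesic X.grp α := X.curve_geodesic hα
  -- the initial system
  have hΓ0 : IsOneSystem X.grp (insert α {γ | ∃ i ∈ cs, γ = X.curve i}) := by
    refine ⟨?_, ?_⟩
    · rintro γ (rfl | ⟨i, hi, rfl⟩)
      · exact hαg
      · exact X.curve_geodesic (hcs i hi)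
    · rintro γ (rfl | ⟨i, hi, rfl⟩) γ' (rfl | ⟨j, hj, rfl⟩) hne
      · exact absurd rfl hne
      · have hji : j ≠ X.col X.d0 := fun h => hα' (h ▸ hj)
        have := X.curve_disjoint hji (hdis j hj)
        rw [Set.inter_comm, this.inter_eq]; simp
      · have hji : i ≠ X.col X.d0 := fun h => hα' (h ▸ hi)
        have := X.curve_disjoint hji (hdis i hi)
        rw [this.inter_eq]; simp
      · have hij : i ≠ j := fun h => hne (by rw [h])
        exact X.curve_encard hij (honce i hi j hj hij)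
  obtain ⟨Γ, hsub, hmax⟩ := exists_maximal X.grp _ hΓ0
  have hαΓ : α ∈ Γ := hsub (Set.mem_insert _ _)
  have hiso : ∀ γ ∈ Γ, γ ≠ α → Disjoint γ α := by
    intro γ hγ hne
    by_cases hc : ∃ i ∈ cs, γ = X.curve i
    · obtain ⟨i, hi, rfl⟩ := hc
      exact X.curve_disjoint (fun h => hα' (h ▸ hi)) (hdis i hi)
    · refine X.key C hα hcs hα' hdis γ (hmax.prop.1 γ hγ) hne (hmax.prop.2 γ hγ α hαΓ hne) ?_
      intro i hi
      exact hmax.prop.2 γ hγ _ (hsub (Set.mem_insert_of_mem _ ⟨i, hi, rfl⟩))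
        (fun h => hc ⟨i, hi, h⟩)
  refine ⟨X.grp, grp_finiteIndex X, X.grp_free, Γ, hmax, not_fills X.grp Γ hmax.prop α hαΓ hiso,
    α, hαΓ, hiso, X.curve (X.col (X.b X.d0)), X.curve_geodesic hδ, ?_⟩
  refine le_antisymm (X.curve_encard hsimp hδ1) ?_
  exact Set.one_le_encard_iff_nonempty.2 ⟨_, X.curve_base⟩

end Data

end OneSys
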