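import Pool.Agent.Helper65.OneSys.Cert
import Pool.Agent.Helper65.OneSys.Main

open UpperHalfPlane Matrix
open scoped MatrixGroups Pointwise

namespace OneSys

namespace Ex

theorem X_d0_col : X.col X.d0 = 0 := col_zero

theorem X_b_col : X.col (X.b X.d0) = 12 := by
  have h : rd tC (rdF tB 0).1 = 12 := by decide +kernel
  exact h

theorem main : ∃ G : Subgroup SL(2, ℤ), G.FiniteIndex ∧ (∀ g ∈ G, ∀ z : ℍ, g • z = z → g = 1) ∧
      ∃ Γ : Set (Set (Surface G)), Maximal (IsOneSystem G) Γ ∧ ¬ Fills G Γ ∧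
        ∃ α ∈ Γ, (∀ γ ∈ Γ, γ ≠ α → Disjoint γ α) ∧
          ∃ δ, IsSimpleClosedGeodesic G δ ∧ (δ ∩ α).encard = 1 := by
  refine Data.main X cert ?_ ?_ ?_ ?_ ?_ ?_ ?_
  · rw [X_d0_col]; exact single (by norm_num)
  · intro i hi
    exact single (((mem_cs i).1 hi).2.trans (by norm_num))
  · rw [X_d0_col, mem_cs]; omega
  · intro i hi d hd
    rw [X_d0_col] at hd
    rw [mem_cs] at hi
    change Fin 236 at d
    have h := disj_all d
    rcases hd with ⟨h1, h2⟩ | ⟨h1, h2⟩
    · rw [X_b, X_col] at h2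
      rw [X_col] at h1
      exact h.1 ⟨by rw [h1]; exact hi, h2⟩
    · rw [X_b, X_col] at h2
      rw [X_col] at h1
      exact h.2 ⟨h1, by rw [h2]; exact hi⟩
  · intro i hi j hj hij d d' hd hd'
    rw [mem_cs] at hi hj
    change Fin 236 at d d'
    have h1 := meets_code hd
    have h2 := meets_code hd'
    refine once_all d (Or.inl ?_) d' (by rw [h1, h2])
    rcases hd with ⟨h3, h4⟩ | ⟨h3, h4⟩
    · rw [X_b, X_col] at h4
      rw [X_col] at h3
      omega
    · rw [X_b, X_col] at h4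
      rw [X_col] at h3
      omega
  · rw [X_b_col]; exact single le_rfl
  · intro d d' hd hd'
    rw [X_b_col, X_d0_col] at hd hd'
    change Fin 236 at d d'
    have h1 := meets_code hd
    have h2 := meets_code hd'
    exact once_all d (Or.inr h1) d' (by rw [h1, h2])

end Ex

end OneSys
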