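import Pool.Agent.Helper65.OneSys.Base2

open UpperHalfPlane Matrix
open scoped MatrixGroups Pointwise

namespace OneSys

namespace Free

/-- the set `X` of the ping pong lemma -/
def X (t : Bool) : Set ℍ := {z | cond t (1 ≤ z.re) (Complex.normSq (z : ℂ) ≤ z.re)}

/-- the set `Y` of the ping pong lemma -/
def Y (t : Bool) : Set ℍ := {z | cond t (z.re < -1) (Complex.normSq (z : ℂ) < -z.re)}

theorem normSq_eq (z : ℍ) : Complex.normSq (z : ℂ) = z.re ^ 2 + z.im ^ 2 := by
  rw [Complex.normSq_apply]
  show z.re * z.re + z.im * z.im = _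
  ring

theorem matA_smul (z : ℍ) : ((matA • z : ℍ) : ℂ) = z + 2 := by
  rw [coe_specialLinearGroup_apply]
  simp [matA]

theorem matA_inv_smul (z : ℍ) : ((matA⁻¹ • z : ℍ) : ℂ) = z - 2 := by
  rw [coe_specialLinearGroup_apply]
  simp [matA, Matrix.SpecialLinearGroup.coe_inv, Matrix.adjugate_fin_two]
  ring

theorem matB_smul (z : ℍ) : ((matB • z : ℍ) : ℂ) = z / (2 * z + 1) := by
  rw [coe_specialLinearGroup_apply]
  simp [matB]

theorem matB_inv_smul (z : ℍ) : ((matB⁻¹ • z : ℍ) : ℂ) = z / (-2 * z + 1) := by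
  rw [coe_specialLinearGroup_apply]
  simp [matB, Matrix.SpecialLinearGroup.coe_inv, Matrix.adjugate_fin_two]

theorem re_div (z : ℍ) (s : ℝ) : ((z : ℂ) / (s * z + 1)).re =
    (s * Complex.normSq (z : ℂ) + z.re) / Complex.normSq (s * (z : ℂ) + 1) := by
  rw [Complex.div_re, ← add_div, Complex.normSq_apply (z : ℂ)]
  congr 1
  simp only [Complex.add_re, Complex.mul_re, Complex.ofReal_re, Complex.ofReal_im, Complex.one_re,
    Complex.add_im, Complex.mul_im, Complex.one_im]
  show z.re * (s * z.re - 0 * z.im + 1) + z.im * (s * z.im + 0 * z.re + 0) =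
    s * (z.re * z.re + z.im * z.im) + z.re
  ring

theorem normSq_pos (z : ℍ) (s : ℝ) : 0 < Complex.normSq (s * (z : ℂ) + 1) := by
  rw [Complex.normSq_pos]
  intro h
  have him := congrArg Complex.im h
  have hre := congrArg Complex.re h
  simp only [Complex.add_re, Complex.mul_re, Complex.ofReal_re, Complex.ofReal_im, Complex.one_re,
    Complex.add_im, Complex.mul_im, Complex.one_im, Complex.zero_re, Complex.zero_im] at him hre
  have h1 : s * z.im = 0 := by
    have : s * (z : ℂ).im + 0 * (z : ℂ).re + 0 = 0 := him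
    have e : (z : ℂ).im = z.im := rfl
    rw [e] at this
    linarith
  rcases mul_eq_zero.mp h1 with h2 | h2
  · rw [h2] at hre
    norm_num at hre
  · exact z.im_pos.ne' h2

theorem ping (t : Bool) : (cond t matA matB) • (Y t)ᶜ ⊆ X t := by
  rintro w ⟨z, hz, rfl⟩
  cases t
  · simp only [Y, X, cond_false, Set.mem_compl_iff, Set.mem_ofPred_eq, not_lt] at hz ⊢
    show Complex.normSq ((matB • z : ℍ) : ℂ) ≤ ((matB • z : ℍ) : ℂ).re
    rw [matB_smul]
    have h := re_div z 2
    have hp := normSq_pos z 2
    push_cast at h hp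
    rw [h, Complex.normSq_div]
    apply div_le_div_of_nonneg_right _ hp.le
    linarith
  · simp only [Y, X, cond_true, Set.mem_compl_iff, Set.mem_ofPred_eq, not_lt] at hz ⊢
    show 1 ≤ ((matA • z : ℍ) : ℂ).re
    rw [matA_smul]
    show 1 ≤ z.re + 2
    linarith

theorem pong (t : Bool) : (cond t matA matB)⁻¹ • (X t)ᶜ ⊆ Y t := by
  rintro w ⟨z, hz, rfl⟩
  cases t
  · simp only [Y, X, cond_false, Set.mem_compl_iff, Set.mem_ofPred_eq, not_le] at hz ⊢
    show Complex.normSq ((matB⁻¹ • z : ℍ) : ℂ) < -((matB⁻¹ • z : ℍ) : ℂ).re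
    rw [matB_inv_smul]
    have h := re_div z (-2)
    have hp := normSq_pos z (-2)
    push_cast at h hp
    rw [h, Complex.normSq_div, ← neg_div]
    apply div_lt_div_of_pos_right _ hp
    linarith
  · simp only [Y, X, cond_true, Set.mem_compl_iff, Set.mem_ofPred_eq, not_le] at hz ⊢
    show ((matA⁻¹ • z : ℍ) : ℂ).re < -1
    rw [matA_inv_smul]
    show z.re - 2 < -1
    linarith

theorem X_nonempty (t : Bool) : (X t).Nonempty := by
  cases t
  · refine ⟨⟨⟨1 / 2, 1 / 2⟩, by norm_num⟩, ?_⟩
    simp only [X, cond_false, Set.mem_ofPred_eq]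
    rw [Complex.normSq_apply]
    show (1 / 2 : ℝ) * (1 / 2 : ℝ) + (1 / 2 : ℝ) * (1 / 2) ≤ 1 / 2
    norm_num
  · refine ⟨⟨⟨1, 1⟩, by norm_num⟩, ?_⟩
    simp only [X, cond_true, Set.mem_ofPred_eq]
    show (1 : ℝ) ≤ 1
    norm_num

theorem mem_X_true (z : ℍ) : z ∈ X true ↔ 1 ≤ z.re := Iff.rfl
theorem mem_X_false (z : ℍ) : z ∈ X false ↔ z.re ^ 2 + z.im ^ 2 ≤ z.re := by
  rw [← normSq_eq]; exact Iff.rfl
theorem mem_Y_true (z : ℍ) : z ∈ Y true ↔ z.re < -1 := Iff.rfl
theorem mem_Y_false (z : ℍ) : z ∈ Y false ↔ z.re ^ 2 + z.im ^ 2 < -z.re := by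
  rw [← normSq_eq]; exact Iff.rfl

end Free

open Free in
theorem rho_injective : Function.Injective rho := by
  unfold rho
  refine FreeGroup.injective_lift_of_ping_pong (fun t => cond t matA matB) X Y X_nonempty
    ?_ ?_ ?_ ping pong
  · intro i j hij
    have key : Disjoint (X true) (X false) := by
      rw [Set.disjoint_left]
      intro z h1 h2
      rw [mem_X_true] at h1
      rw [mem_X_false] at h2
      nlinarith [z.im_pos, mul_pos z.im_pos z.im_pos]
    cases i <;> cases j
    · exact absurd rfl hij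
    · exact key.symm
    · exact key
    · exact absurd rfl hij
  · intro i j hij
    have key : Disjoint (Y true) (Y false) := by
      rw [Set.disjoint_left]
      intro z h1 h2
      rw [mem_Y_true] at h1
      rw [mem_Y_false] at h2
      nlinarith [z.im_pos, mul_pos z.im_pos z.im_pos]
    cases i <;> cases j
    · exact absurd rfl hij
    · exact key.symm
    · exact key
    · exact absurd rfl hij
  · intro i j
    rw [Set.disjoint_left]
    intro z h1 h2
    have hp := mul_pos z.im_pos z.im_pos
    cases i <;> cases j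
    · rw [mem_X_false] at h1
      rw [mem_Y_false] at h2
      nlinarith [sq_nonneg z.re]
    · rw [mem_X_false] at h1
      rw [mem_Y_true] at h2
      nlinarith [sq_nonneg z.re]
    · rw [mem_X_true] at h1
      rw [mem_Y_false] at h2
      nlinarith [sq_nonneg z.re]
    · rw [mem_X_true] at h1
      rw [mem_Y_true] at h2
      linarith

theorem rho_free (u : F2) (z : ℍ) (h : rho u • z = z) : u = 1 := by
  have hmod := rho_mod u
  have hdet : (rho u) 0 0 * (rho u) 1 1 - (rho u) 0 1 * (rho u) 1 0 = 1 := by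
    have := (rho u).det_coe
    rw [Matrix.det_fin_two] at this
    exact this
  have hc : ((rho u • z : ℍ) : ℂ) = (z : ℂ) := by rw [h]
  rw [coe_specialLinearGroup_apply] at hc
  simp only [algebraMap_int_eq, eq_intCast, Complex.ofReal_intCast] at hc
  set a := (rho u) 0 0 with ha
  set b := (rho u) 0 1 with hb
  set c := (rho u) 1 0 with hcc
  set d := (rho u) 1 1 with hd
  have hne : (c : ℂ) * z + (d : ℂ) ≠ 0 := by
    intro h0
    have him := congrArg Complex.im h0
    have hre := congrArg Complex.re h0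
    simp at him hre
    rcases him with h1 | h1
    · rw [h1] at hre hdet
      have h2 : d = 0 := by
        have : (0 : ℝ) * z.re + (d : ℝ) = 0 := by simpa using hre
        have : (d : ℝ) = 0 := by linarith
        exact_mod_cast this
      rw [h2] at hdet
      norm_num at hdet
    · exact z.im_pos.ne' h1
  rw [div_eq_iff hne] at hc
  have him := congrArg Complex.im hc
  have hre := congrArg Complex.re hc
  have ex : (z : ℂ).re = z.re := rfl
  have ey : (z : ℂ).im = z.im := rfl
  simp only [Complex.add_re, Complex.mul_re, Complex.intCast_re, Complex.intCast_im,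
    Complex.add_im, Complex.mul_im, ex, ey] at him hre
  have hy := z.im_pos
  have h1 : 2 * (c : ℝ) * z.re + (d - a) = 0 := by
    have : z.im * (2 * (c : ℝ) * z.re + (d - a)) = 0 := by linarith
    rcases mul_eq_zero.mp this with h2 | h2
    · exact absurd h2 hy.ne'
    · exact h2
  have h2 : (b : ℝ) = -(c : ℝ) * (z.re ^ 2 + z.im ^ 2) := by
    have h3 : (a : ℝ) = 2 * (c : ℝ) * z.re + d := by linarith
    rw [h3] at hre
    linarith
  have hdetR : (a : ℝ) * d - b * c = 1 := by exact_mod_cast hdet
  by_cases hc0 : c = 0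
  · have hb0 : b = 0 := by
      rw [hc0] at h2
      have : (b : ℝ) = 0 := by rw [h2]; push_cast; ring
      exact_mod_cast this
    have had : a = d := by
      rw [hc0] at h1
      have : (d : ℝ) - a = 0 := by
        have := h1
        push_cast at this
        linarith
      have : (a : ℝ) = d := by linarith
      exact_mod_cast this
    have ha1 : a = 1 := by
      rw [hb0, hc0, ← had] at hdet
      have h5 : a * a = 1 := by linarith
      have h6 : a = 1 ∨ a = -1 := mul_self_eq_one_iff.mp h5
      rcases h6 with h6 | h6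
      · exact h6
      · have := hmod.1
        omega
    apply rho_injective
    rw [map_one]
    ext i j
    fin_cases i <;> fin_cases j
    · show a = 1
      exact ha1
    · show b = 0
      exact hb0
    · show c = 0
      exact hc0
    · show d = 1
      rw [← had]
      exact ha1
  · exfalso
    have h4 : ((a : ℝ) + d) ^ 2 - 4 = -(4 * (c : ℝ) ^ 2 * z.im ^ 2) := by
      have h3 : (a : ℝ) = 2 * (c : ℝ) * z.re + d := by linarith
      have h5 : ((a : ℝ) + d) ^ 2 - 4 = (a - d) ^ 2 + 4 * b * c + 4 * ((a : ℝ) * d - b * c - 1) := by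
        ring
      rw [h5, hdetR, h2]
      have h6 : (a : ℝ) - d = 2 * (c : ℝ) * z.re := by linarith
      rw [h6]
      ring
    have hc2 : (0 : ℝ) < (c : ℝ) ^ 2 := by
      have : (c : ℝ) ≠ 0 := by exact_mod_cast hc0
      positivity
    have h5 : ((a : ℝ) + d) ^ 2 < 4 := by
      have : 0 < 4 * (c : ℝ) ^ 2 * z.im ^ 2 := by positivity
      linarith
    have h6 : (a + d) ^ 2 < 4 := by exact_mod_cast h5
    have h7 : a + d < 2 := by nlinarith
    have h8 : -2 < a + d := by nlinarith
    have := hmod.1
    have := hmod.2.1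
    omega

end OneSys
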