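import Pool.Agent.Helper65.OneSys.Adj

open UpperHalfPlane Matrix
open scoped MatrixGroups Pointwise

namespace OneSys

namespace Gal

/-- determinant of two vectors -/
def dt (v w : ℤ × ℤ) : ℤ := v.1 * w.2 - v.2 * w.1

theorem det_one (g : SL(2, ℤ)) : g 0 0 * g 1 1 - g 0 1 * g 1 0 = 1 := by
  have h := g.det_coe
  rw [Matrix.det_fin_two] at h
  exact h

theorem dt_act (g : SL(2, ℤ)) (v w : ℤ × ℤ) : dt (act g v) (act g w) = dt v w := by
  have h := det_one g
  simp only [dt, act]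
  linear_combination (v.1 * w.2 - v.2 * w.1) * h

theorem pos_mul (g h : F2) (c : Corner) : pos (g * h, c) = act (rho g) (pos (h, c)) := by
  simp only [pos, map_mul, act_mul]

theorem pos_one (c : Corner) : pos (1, c) = c.vec := by
  simp only [pos, map_one, act_one]

theorem pos_eq (g : F2) (c : Corner) : pos (g, c) = act (rho g) c.vec := rfl

theorem act_ne_zero (g : SL(2, ℤ)) (v : ℤ × ℤ) (hv : v ≠ 0) : act g v ≠ 0 := by
  intro h
  apply hv
  have h1 : act g⁻¹ (act g v) = v := by rw [← act_mul, inv_mul_cancel, act_one]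
  rw [h] at h1
  rw [← h1]
  simp [act]

theorem pos_ne_zero (s : F2 × Corner) : pos s ≠ 0 := by
  apply act_ne_zero
  cases s.2 <;> simp [Corner.vec]

theorem wv_one (w : ℤ × ℤ) : wv 1 w = w.1 ^ 2 - 2 * w.1 * w.2 - w.2 ^ 2 := by
  simp [wv, ca, cb, cc]
  ring

theorem wv_gB (w : ℤ × ℤ) : wv gB w = w.1 ^ 2 + 2 * w.1 * w.2 - w.2 ^ 2 := by
  have h := wv_act gB 1 (w.1, w.2 - 2 * w.1)
  rw [mul_one, wv_one, rho_gB] at h
  have h1 : act matB (w.1, w.2 - 2 * w.1) = w := by
    simp [act, matB]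
  rw [h1] at h
  rw [h]
  ring

theorem wv_neg (u : F2) (v : ℤ × ℤ) : wv u (-v) = wv u v := by
  simp [wv]

theorem wv_mul (g u : F2) (w : ℤ × ℤ) : wv (g * u) (act (rho g) w) = wv u w := wv_act g u w

theorem act_neg (g : SL(2, ℤ)) (v : ℤ × ℤ) : act g (-v) = -act g v := by
  simp only [act, Prod.fst_neg, Prod.snd_neg, Prod.neg_mk, Prod.mk.injEq]
  constructor <;> ring

theorem pos_mul' (g h : F2) (c : Corner) (v : ℤ × ℤ) (hv : act (rho h) c.vec = v) :
    pos (g * h, c) = act (rho g) v := by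
  rw [pos_mul, pos_eq, hv]

theorem rot_wv {s s' : F2 × Corner} (h : Rot s s') (u : F2) : wv u (pos s) = wv u (pos s') := by
  have a1 : act (rho gA) Corner.inf.vec = Corner.inf.vec := by
    rw [rho_gA]; simp [act, matA, Corner.vec]
  have a2 : act (rho gB) Corner.zero.vec = Corner.zero.vec := by
    rw [rho_gB]; simp [act, matB, Corner.vec]
  have a3 : act (rho gA) Corner.neg.vec = Corner.one.vec := by
    rw [rho_gA]; simp [act, matA, Corner.vec]
  have a4 : act (rho gB) Corner.neg.vec = -Corner.one.vec := by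
    rw [rho_gB]; simp [act, matB, Corner.vec]
  cases h with
  | infA g => rw [pos_mul' g gA _ _ a1, pos_eq]
  | infA' g => rw [pos_mul' g gA _ _ a1, pos_eq]
  | zeroB g => rw [pos_mul' g gB _ _ a2, pos_eq]
  | zeroB' g => rw [pos_mul' g gB _ _ a2, pos_eq]
  | oneA g => rw [pos_mul' g gA _ _ a3, pos_eq]
  | oneA' g => rw [pos_mul' g gA _ _ a3, pos_eq]
  | oneB g => rw [pos_mul' g gB _ _ a4, pos_eq, act_neg, wv_neg]
  | oneB' g => rw [pos_mul' g gB _ _ a4, pos_eq, act_neg, wv_neg]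

/-- the conclusion -/
def Good (s t : F2 × Corner) : Prop := ∃ l : List F2, Gallery s l t ∧
    (∀ u ∈ l, wv u (pos s) * wv u (pos t) < 0) ∧ l.Pairwise (fun u v => ¬ SameWall u v)

theorem Good.refl (s : F2 × Corner) : Good s s :=
  ⟨[], Gallery.nil s, by simp, List.Pairwise.nil⟩

theorem Good.rot {s s' t : F2 × Corner} (h : Rot s s') (hg : Good s' t) : Good s t := by
  obtain ⟨l, h1, h2, h3⟩ := hg
  refine ⟨l, Gallery.rot h h1, fun u hu => ?_, h3⟩
  rw [rot_wv h u]
  exact h2 u hu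

theorem Good.cross {s s' t : F2 × Corner} {u : F2} (h : Cross s u s')
    (hu : wv u (pos s) * wv u (pos t) < 0) (hg : Good s' t) : Good s t := by
  obtain ⟨l, h1, h2, h3⟩ := hg
  have hnot : ∀ v ∈ l, ¬ SameWall u v := by
    intro v hv hs
    have h4 := h2 v hv
    obtain ⟨e1, e2, e3⟩ := hs.form
    have h5 : ∀ x, wv v x = wv u x := fun x => by simp only [wv, e1, e2, e3]
    rw [h5, h5] at h4
    have h6 := cross_sep h
    nlinarith [mul_pos_of_neg_of_neg hu h4, sq_nonneg (wv u (pos t)), h6,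
      mul_nonneg (sq_nonneg (wv u (pos t))) (neg_nonneg.2 h6.le)]
  refine ⟨u :: l, Gallery.cross h h1, ?_, List.Pairwise.cons hnot h3⟩
  intro v hv
  rw [List.mem_cons] at hv
  rcases hv with rfl | hv
  · exact hu
  · have h4 := h2 v hv
    have h5 : 0 ≤ wv v (pos s) * wv v (pos s') := by
      by_contra h6
      push Not at h6
      exact hnot v hv (cross_unique h v h6)
    have h7 : wv v (pos s) ≠ 0 := wv_ne_zero v _ (pos_ne_zero s)
    have h8 : wv v (pos s') ≠ 0 := wv_ne_zero v _ (pos_ne_zero s')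
    have h9 : 0 < wv v (pos s) * wv v (pos s') := lt_of_le_of_ne h5 (mul_ne_zero h7 h8).symm
    by_contra h10
    push Not at h10
    have h11 : 0 < wv v (pos s') ^ 2 := by positivity
    have h12 : 0 ≤ (wv v (pos s) * wv v (pos s')) * (wv v (pos s) * wv v (pos t)) :=
      mul_nonneg h9.le h10
    have h13 : 0 < wv v (pos s) ^ 2 := by positivity
    nlinarith [mul_neg_of_pos_of_neg h13 h4]

theorem Good.infPow (k : ℤ) : ∀ (g : F2) (t : F2 × Corner), Good (g * gA ^ k, .inf) t →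
    Good (g, .inf) t := by
  induction k using Int.induction_on with
  | zero => intro g t h; simpa using h
  | succ n ih =>
    intro g t h
    apply ih
    refine Good.rot (Rot.infA _) ?_
    rw [mul_assoc, ← _root_.zpow_add_one]
    exact h
  | pred n ih =>
    intro g t h
    apply ih
    have h1 : g * gA ^ (-(n : ℤ)) = g * gA ^ (-(n : ℤ) - 1) * gA := by
      rw [mul_assoc, ← _root_.zpow_add_one]
      congr 2
      ring
    rw [h1]
    exact Good.rot (Rot.infA' _) h

theorem Good.zeroPow (k : ℤ) : ∀ (g : F2) (t : F2 × Corner), Good (g * gB ^ k, .zero) t →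
    Good (g, .zero) t := by
  induction k using Int.induction_on with
  | zero => intro g t h; simpa using h
  | succ n ih =>
    intro g t h
    apply ih
    refine Good.rot (Rot.zeroB _) ?_
    rw [mul_assoc, ← _root_.zpow_add_one]
    exact h
  | pred n ih =>
    intro g t h
    apply ih
    have h1 : g * gB ^ (-(n : ℤ)) = g * gB ^ (-(n : ℤ) - 1) * gB := by
      rw [mul_assoc, ← _root_.zpow_add_one]
      congr 2
      ring
    rw [h1]
    exact Good.rot (Rot.zeroB' _) h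

/-- the rotation around the cusp `1` -/
def hh : F2 := gA * gB⁻¹

theorem Good.hStep (g : F2) (t : F2 × Corner) (h : Good (g * hh, .one) t) : Good (g, .one) t := by
  refine Good.rot (Rot.oneA g) ?_
  have h1 : g * gA = g * hh * gB := by unfold hh; group
  rw [h1]
  exact Good.rot (Rot.oneB' _) h

theorem Good.hStep' (g : F2) (t : F2 × Corner) (h : Good (g, .one) t) : Good (g * hh, .one) t := by
  refine Good.rot (Rot.oneB _) ?_
  have h1 : g * hh * gB = g * gA := by unfold hh; group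
  rw [h1]
  exact Good.rot (Rot.oneA' _) h

theorem Good.onePow (k : ℤ) : ∀ (g : F2) (t : F2 × Corner), Good (g * hh ^ k, .one) t →
    Good (g, .one) t := by
  induction k using Int.induction_on with
  | zero => intro g t h; simpa using h
  | succ n ih =>
    intro g t h
    apply ih
    apply Good.hStep
    rw [mul_assoc, ← _root_.zpow_add_one]
    exact h
  | pred n ih =>
    intro g t h
    apply ih
    have h1 : g * hh ^ (-(n : ℤ)) = g * hh ^ (-(n : ℤ) - 1) * hh := by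
      rw [mul_assoc, ← _root_.zpow_add_one]
      congr 2
      ring
    rw [h1]
    exact Good.hStep' _ _ h

theorem ext4 {g h : SL(2, ℤ)} (h00 : g 0 0 = h 0 0) (h01 : g 0 1 = h 0 1) (h10 : g 1 0 = h 1 0)
    (h11 : g 1 1 = h 1 1) : g = h := by
  ext i j
  fin_cases i <;> fin_cases j
  · exact h00
  · exact h01
  · exact h10
  · exact h11

theorem mul_e (g h : SL(2, ℤ)) : (g * h) 0 0 = g 0 0 * h 0 0 + g 0 1 * h 1 0 ∧
    (g * h) 0 1 = g 0 0 * h 0 1 + g 0 1 * h 1 1 ∧ (g * h) 1 0 = g 1 0 * h 0 0 + g 1 1 * h 1 0 ∧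
    (g * h) 1 1 = g 1 0 * h 0 1 + g 1 1 * h 1 1 := by
  refine ⟨?_, ?_, ?_, ?_⟩ <;> simp [Matrix.mul_apply, Fin.sum_univ_two]

theorem inv_e (g : SL(2, ℤ)) : g⁻¹ 0 0 = g 1 1 ∧ g⁻¹ 0 1 = -g 0 1 ∧ g⁻¹ 1 0 = -g 1 0 ∧
    g⁻¹ 1 1 = g 0 0 := by
  refine ⟨?_, ?_, ?_, ?_⟩ <;>
    simp [Matrix.SpecialLinearGroup.SL2_inv_expl]

theorem pow_e (M : F2) (E : ℤ → SL(2, ℤ)) (h0 : E 0 = 1) (hs : ∀ k, E (k + 1) = E k * rho M) :
    ∀ k : ℤ, rho (M ^ k) = E k := by
  intro k
  induction k using Int.induction_on with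
  | zero => simp [h0]
  | succ n ih => rw [_root_.zpow_add_one, map_mul, ih, hs]
  | pred n ih =>
    have h1 := hs (-(n : ℤ) - 1)
    rw [sub_add_cancel] at h1
    rw [_root_.zpow_sub_one, map_mul, ih, h1, map_inv, mul_assoc, mul_inv_cancel, mul_one]

def EA (k : ℤ) : SL(2, ℤ) := ⟨!![1, 2 * k; 0, 1], by simp [Matrix.det_fin_two]⟩

def EB (k : ℤ) : SL(2, ℤ) := ⟨!![1, 0; 2 * k, 1], by simp [Matrix.det_fin_two]⟩

/-- the sign -/
def sg (k : ℤ) : ℤ := (((-1 : ℤˣ) ^ k : ℤˣ) : ℤ)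

theorem sg_sq (k : ℤ) : sg k * sg k = 1 := by
  unfold sg
  rcases Int.units_eq_one_or ((-1 : ℤˣ) ^ k) with h | h <;> simp [h]

theorem sg_or (k : ℤ) : sg k = 1 ∨ sg k = -1 := by
  unfold sg
  rcases Int.units_eq_one_or ((-1 : ℤˣ) ^ k) with h | h <;> simp [h]

theorem sg_succ (k : ℤ) : sg (k + 1) = -sg k := by
  unfold sg
  rw [_root_.zpow_add_one]
  simp

theorem sg_even (k : ℤ) : sg (2 * k) = 1 := by
  unfold sg
  rw [_root_.zpow_mul]
  simp

def EH (k : ℤ) : SL(2, ℤ) := ⟨!![sg k * (1 + 2 * k), -(sg k * (2 * k)); sg k * (2 * k),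
  sg k * (1 - 2 * k)], by
    rw [Matrix.det_fin_two]
    simp
    linear_combination sg_sq k⟩

theorem rho_A_pow (k : ℤ) : rho (gA ^ k) = EA k := by
  refine pow_e gA EA ?_ ?_ k
  · apply ext4 <;> simp [EA]
  · intro k
    obtain ⟨h1, h2, h3, h4⟩ := mul_e (EA k) (rho gA)
    apply ext4
    · rw [h1, rho_gA]; simp [EA, matA]
    · rw [h2, rho_gA]; simp [EA, matA]; ring
    · rw [h3, rho_gA]; simp [EA, matA]
    · rw [h4, rho_gA]; simp [EA, matA]

theorem rho_B_pow (k : ℤ) : rho (gB ^ k) = EB k := by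
  refine pow_e gB EB ?_ ?_ k
  · apply ext4 <;> simp [EB]
  · intro k
    obtain ⟨h1, h2, h3, h4⟩ := mul_e (EB k) (rho gB)
    apply ext4
    · rw [h1, rho_gB]; simp [EB, matB]
    · rw [h2, rho_gB]; simp [EB, matB]
    · rw [h3, rho_gB]; simp [EB, matB]; ring
    · rw [h4, rho_gB]; simp [EB, matB]

theorem rho_hh : (rho hh) 0 0 = -3 ∧ (rho hh) 0 1 = 2 ∧ (rho hh) 1 0 = -2 ∧ (rho hh) 1 1 = 1 := by
  unfold hh
  rw [map_mul, map_inv, rho_gA, rho_gB]
  obtain ⟨h1, h2, h3, h4⟩ := mul_e matA matB⁻¹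
  obtain ⟨i1, i2, i3, i4⟩ := inv_e matB
  rw [h1, h2, h3, h4, i1, i2, i3, i4]
  refine ⟨?_, ?_, ?_, ?_⟩ <;> simp [matA, matB]

theorem rho_h_pow (k : ℤ) : rho (hh ^ k) = EH k := by
  refine pow_e hh EH ?_ ?_ k
  · apply ext4 <;> simp [EH, sg]
  · intro k
    obtain ⟨h1, h2, h3, h4⟩ := mul_e (EH k) (rho hh)
    obtain ⟨i1, i2, i3, i4⟩ := rho_hh
    rw [i1, i3] at h1
    rw [i2, i4] at h2
    rw [i1, i3] at h3
    rw [i2, i4] at h4
    apply ext4
    · rw [h1]; simp [EH, sg_succ]; ring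
    · rw [h2]; simp [EH, sg_succ]; ring
    · rw [h3]; simp [EH, sg_succ]; ring
    · rw [h4]; simp [EH, sg_succ]; ring

theorem near_int (x y : ℤ) (hy : y ≠ 0) : ∃ n : ℤ, 2 * |x - n * y| ≤ |y| := by
  have h1 := Int.emod_nonneg x hy
  have h2 := Int.emod_lt_abs x hy
  have h3 := Int.emod_add_mul_ediv x y
  rcases le_or_gt (2 * (x % y)) |y| with h | h
  · refine ⟨x / y, ?_⟩
    have h4 : x - x / y * y = x % y := by linarith
    rw [h4, abs_of_nonneg h1]
    exact h
  · rcases lt_or_gt_of_ne hy with hy' | hy'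
    · refine ⟨x / y - 1, ?_⟩
      rw [abs_of_neg hy'] at h h2 ⊢
      have h4 : x - (x / y - 1) * y = x % y + y := by linarith
      rw [h4, abs_of_nonpos (by linarith)]
      linarith
    · refine ⟨x / y + 1, ?_⟩
      rw [abs_of_pos hy'] at h h2 ⊢
      have h4 : x - (x / y + 1) * y = x % y - y := by linarith
      rw [h4, abs_of_nonpos (by linarith)]
      linarith

theorem near_odd (x y : ℤ) (hy : y ≠ 0) : ∃ k : ℤ, |x - (2 * k + 1) * y| ≤ |y| := by
  obtain ⟨n, hn⟩ := near_int (x - y) (2 * y) (by omega)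
  refine ⟨n, ?_⟩
  have h1 : x - y - n * (2 * y) = x - (2 * n + 1) * y := by ring
  rw [h1, abs_mul, abs_two] at hn
  linarith

theorem pos_back (g : F2) (t : F2 × Corner) : ∃ w, pos t = act (rho g) w ∧
    pos (g⁻¹ * t.1, t.2) = w := by
  refine ⟨pos (g⁻¹ * t.1, t.2), ?_, rfl⟩
  rw [← pos_mul, mul_inv_cancel_left]

/-- the weight of a corner -/
def cw : Corner → ℕ
  | .inf => 1
  | .zero => 1
  | .one => 0
  | .neg => 0

/-- the measure -/
def mu (s t : F2 × Corner) : ℕ := 2 * (dt (pos s) (pos t)).natAbs + cw s.2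

theorem natAbs_le {a b : ℤ} (h : |a| ≤ |b|) : a.natAbs ≤ b.natAbs := by
  rw [Int.abs_eq_natAbs, Int.abs_eq_natAbs] at h
  exact_mod_cast h

theorem mu_eq (g : F2) (c : Corner) (t : F2 × Corner) (w : ℤ × ℤ) (hw : pos t = act (rho g) w) :
    mu (g, c) t = 2 * (dt c.vec w).natAbs + cw c := by
  unfold mu
  rw [hw, pos_eq, dt_act]

theorem sep_eq (g u : F2) (c : Corner) (t : F2 × Corner) (w : ℤ × ℤ)
    (hw : pos t = act (rho g) w) : wv (g * u) (pos (g, c)) * wv (g * u) (pos t) =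
      wv u c.vec * wv u w := by
  rw [hw, pos_eq, wv_mul, wv_mul]

theorem step_inf (m : ℕ) (ih : ∀ m' < m, ∀ (g : F2) (c : Corner) (t : F2 × Corner), c ≠ .neg →
    mu (g, c) t = m' → Good (g, c) t) (g : F2) (t : F2 × Corner) (w : ℤ × ℤ)
    (hw : pos t = act (rho g) w) (h0 : w.2 ≠ 0) (hm : mu (g, .inf) t = m) :
    Good (g, .inf) t := by
  obtain ⟨k, hk⟩ := near_odd w.1 w.2 h0
  apply Good.infPow k
  have hw' : pos t = act (rho (g * gA ^ k)) (w.1 - 2 * k * w.2, w.2) := by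
    rw [hw, map_mul, act_mul, rho_A_pow]
    congr 1
    simp [act, EA]
  have hv : w.2 * w.2 > 0 := mul_self_pos.2 h0
  have habs : (w.1 - (2 * k + 1) * w.2) ^ 2 ≤ w.2 ^ 2 := sq_le_sq.2 hk
  refine Good.cross (Cross.c1 (g * gA ^ k)) ?_ (ih _ ?_ _ _ _ (by simp) rfl)
  · have e := sep_eq (g * gA ^ k) 1 .inf t _ hw'
    rw [mul_one] at e
    rw [e, wv_one, wv_one]
    simp only [Corner.vec]
    nlinarith
  · rw [← hm, mu_eq _ _ _ _ hw', mu_eq _ _ _ _ hw]
    simp only [dt, Corner.vec, cw]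
    have h1 : (1 * w.2 - 1 * (w.1 - 2 * k * w.2)).natAbs ≤ w.2.natAbs := by
      apply natAbs_le
      rw [show 1 * w.2 - 1 * (w.1 - 2 * k * w.2) = -(w.1 - (2 * k + 1) * w.2) by ring, abs_neg]
      exact hk
    have h2 : (1 * w.2 - 0 * w.1) = w.2 := by ring
    rw [h2]
    omega

theorem step_zero (m : ℕ) (ih : ∀ m' < m, ∀ (g : F2) (c : Corner) (t : F2 × Corner), c ≠ .neg →
    mu (g, c) t = m' → Good (g, c) t) (g : F2) (t : F2 × Corner) (w : ℤ × ℤ)
    (hw : pos t = act (rho g) w) (h0 : w.1 ≠ 0) (hm : mu (g, .zero) t = m) :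
    Good (g, .zero) t := by
  obtain ⟨k, hk⟩ := near_odd w.2 w.1 h0
  apply Good.zeroPow k
  have hw' : pos t = act (rho (g * gB ^ k)) (w.1, w.2 - 2 * k * w.1) := by
    rw [hw, map_mul, act_mul, rho_B_pow]
    congr 1
    simp [act, EB]
  have hv : w.1 * w.1 > 0 := mul_self_pos.2 h0
  have habs : (w.2 - (2 * k + 1) * w.1) ^ 2 ≤ w.1 ^ 2 := sq_le_sq.2 hk
  refine Good.cross (Cross.c5 (g * gB ^ k)) ?_ (ih _ ?_ _ _ _ (by simp) rfl)
  · have e := sep_eq (g * gB ^ k) gB .zero t _ hw'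
    rw [e, wv_gB, wv_gB]
    simp only [Corner.vec]
    nlinarith
  · rw [← hm, mu_eq _ _ _ _ hw', mu_eq _ _ _ _ hw]
    simp only [dt, Corner.vec, cw]
    have h1 : (1 * (w.2 - 2 * k * w.1) - 1 * w.1).natAbs ≤ w.1.natAbs := by
      apply natAbs_le
      rw [show 1 * (w.2 - 2 * k * w.1) - 1 * w.1 = w.2 - (2 * k + 1) * w.1 by ring]
      exact hk
    have h2 : (0 * w.2 - 1 * w.1) = -w.1 := by ring
    rw [h2, Int.natAbs_neg]
    omega

theorem step_one (m : ℕ) (ih : ∀ m' < m, ∀ (g : F2) (c : Corner) (t : F2 × Corner), c ≠ .neg →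
    mu (g, c) t = m' → Good (g, c) t) (g : F2) (t : F2 × Corner) (w : ℤ × ℤ)
    (hw : pos t = act (rho g) w) (h0 : w.2 - w.1 ≠ 0) (hm : mu (g, .one) t = m) :
    Good (g, .one) t := by
  obtain ⟨n, hn⟩ := near_int w.2 (w.2 - w.1) h0
  have hv : (w.2 - w.1) * (w.2 - w.1) > 0 := mul_self_pos.2 h0
  have hbd : ∀ a : ℤ, 2 * |a| ≤ |w.2 - w.1| → 4 * a ^ 2 ≤ (w.2 - w.1) ^ 2 ∧
      2 * a.natAbs + 1 < 2 * (w.2 - w.1).natAbs := by
    intro a ha
    constructor
    · have h1 : (2 * a) ^ 2 ≤ (w.2 - w.1) ^ 2 := sq_le_sq.2 (by rwa [abs_mul, abs_two])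
      linarith
    · have h2 : 0 < (w.2 - w.1).natAbs := Int.natAbs_pos.2 h0
      rw [Int.abs_eq_natAbs, Int.abs_eq_natAbs] at ha
      omega
  have hw' : ∀ k : ℤ, pos t = act (rho (g * hh ^ k)) (sg k * (w.1 + 2 * k * (w.2 - w.1)),
      sg k * (w.2 + 2 * k * (w.2 - w.1))) := by
    intro k
    rw [hw, map_mul, act_mul, rho_h_pow]
    congr 1
    have hs := sg_sq k
    simp only [act, EH]
    ext
    · simp
      linear_combination (-w.1) * hs
    · simp
      linear_combination (-w.2) * hs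
  rcases Int.even_or_odd' n with ⟨j, hj | hj⟩
  · -- even neighbour
    set k : ℤ := -j with hk
    have hn' : 2 * |w.2 + 2 * k * (w.2 - w.1)| ≤ |w.2 - w.1| := by
      have : w.2 + 2 * k * (w.2 - w.1) = w.2 - n * (w.2 - w.1) := by rw [hj, hk]; ring
      rw [this]
      exact hn
    obtain ⟨b1, b2⟩ := hbd _ hn'
    apply Good.onePow k
    have hs := sg_sq k
    refine Good.cross (Cross.c2 (g * hh ^ k)) ?_ (ih _ ?_ _ _ _ (by simp) rfl)
    · have e := sep_eq (g * hh ^ k) 1 .one t _ (hw' k)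
      rw [mul_one] at e
      rw [e, wv_one, wv_one]
      simp only [Corner.vec]
      have e2 : (sg k * (w.1 + 2 * k * (w.2 - w.1))) ^ 2 - 2 * (sg k * (w.1 + 2 * k * (w.2 - w.1))) *
          (sg k * (w.2 + 2 * k * (w.2 - w.1))) - (sg k * (w.2 + 2 * k * (w.2 - w.1))) ^ 2 =
          (w.2 - w.1) ^ 2 - 2 * (w.2 + 2 * k * (w.2 - w.1)) ^ 2 := by
        linear_combination ((w.2 - w.1) ^ 2 - 2 * (w.2 + 2 * k * (w.2 - w.1)) ^ 2) * hs
      rw [e2]
      nlinarith
    · rw [← hm, mu_eq _ _ _ _ (hw' k), mu_eq _ _ _ _ hw]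
      simp only [dt, Corner.vec, cw]
      have e3 : (1 * (sg k * (w.2 + 2 * k * (w.2 - w.1))) -
          0 * (sg k * (w.1 + 2 * k * (w.2 - w.1)))).natAbs =
          (w.2 + 2 * k * (w.2 - w.1)).natAbs := by
        rcases sg_or k with h | h <;> rw [h]
        · congr 1; ring
        · rw [← Int.natAbs_neg]; congr 1; ring
      have e4 : (1 * w.2 - 1 * w.1) = w.2 - w.1 := by ring
      rw [e3, e4]
      omega
  · -- odd neighbour
    set k : ℤ := -j with hk
    have hn' : 2 * |w.1 + 2 * k * (w.2 - w.1)| ≤ |w.2 - w.1| := by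
      have : w.1 + 2 * k * (w.2 - w.1) = w.2 - n * (w.2 - w.1) := by rw [hj, hk]; ring
      rw [this]
      exact hn
    obtain ⟨b1, b2⟩ := hbd _ hn'
    apply Good.onePow k
    have hs := sg_sq k
    refine Good.cross (Cross.c6 (g * hh ^ k)) ?_ (ih _ ?_ _ _ _ (by simp) rfl)
    · have e := sep_eq (g * hh ^ k) gB .one t _ (hw' k)
      rw [e, wv_gB, wv_gB]
      simp only [Corner.vec]
      have e2 : (sg k * (w.1 + 2 * k * (w.2 - w.1))) ^ 2 + 2 * (sg k * (w.1 + 2 * k * (w.2 - w.1))) *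
          (sg k * (w.2 + 2 * k * (w.2 - w.1))) - (sg k * (w.2 + 2 * k * (w.2 - w.1))) ^ 2 =
          2 * (w.1 + 2 * k * (w.2 - w.1)) ^ 2 - (w.2 - w.1) ^ 2 := by
        linear_combination (2 * (w.1 + 2 * k * (w.2 - w.1)) ^ 2 - (w.2 - w.1) ^ 2) * hs
      rw [e2]
      nlinarith
    · rw [← hm, mu_eq _ _ _ _ (hw' k), mu_eq _ _ _ _ hw]
      simp only [dt, Corner.vec, cw]
      have e3 : (0 * (sg k * (w.2 + 2 * k * (w.2 - w.1))) -
          1 * (sg k * (w.1 + 2 * k * (w.2 - w.1)))).natAbs =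
          (w.1 + 2 * k * (w.2 - w.1)).natAbs := by
        rcases sg_or k with h | h <;> rw [h]
        · rw [← Int.natAbs_neg]; congr 1; ring
        · congr 1; ring
      have e4 : (1 * w.2 - 1 * w.1) = w.2 - w.1 := by ring
      rw [e3, e4]
      omega

theorem gallery_rot {s t' t : F2 × Corner} {l : List F2} (h : Gallery s l t') (hr : Rot t' t) :
    Gallery s l t := by
  induction h with
  | nil s => exact Gallery.rot hr (Gallery.nil t)
  | rot h _ ih => exact Gallery.rot h (ih hr)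
  | cross h _ ih => exact Gallery.cross h (ih hr)

theorem Good.rot_end {s t' t : F2 × Corner} (hg : Good s t') (hr : Rot t' t) : Good s t := by
  obtain ⟨l, h1, h2, h3⟩ := hg
  refine ⟨l, gallery_rot h1 hr, fun u hu => ?_, h3⟩
  rw [← rot_wv hr u]
  exact h2 u hu

theorem base_inf (g v : F2) (c : Corner) (h0 : (pos (v, c)).2 = 0) : Good (g, .inf) (g * v, c) := by
  obtain ⟨m1, m2, m3, m4⟩ := rho_mod v
  have hd := det_one (rho v)
  cases c with
  | inf =>
    simp only [pos, act, Corner.vec, mul_one, mul_zero, add_zero] at h0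
    rw [h0, mul_zero, sub_zero] at hd
    have h1 : (rho v) 0 0 = 1 ∧ (rho v) 1 1 = 1 := by
      rcases Int.mul_eq_one_iff_eq_one_or_neg_one.1 hd with h | h
      · exact h
      · omega
    obtain ⟨k, hk⟩ : ∃ k, (rho v) 0 1 = 2 * k := ⟨(rho v) 0 1 / 2, by omega⟩
    have hv : v = gA ^ k := by
      apply rho_injective
      rw [rho_A_pow]
      apply ext4
      · rw [h1.1]; simp [EA]
      · rw [hk]; simp [EA]
      · rw [h0]; simp [EA]
      · rw [h1.2]; simp [EA]
    rw [hv]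
    exact Good.infPow k g _ (Good.refl _)
  | zero =>
    simp only [pos, act, Corner.vec, mul_one, mul_zero, zero_add] at h0
    omega
  | one =>
    simp only [pos, act, Corner.vec, mul_one] at h0
    omega
  | neg =>
    simp only [pos, act, Corner.vec, mul_one, mul_neg] at h0
    omega

theorem base_zero (g v : F2) (c : Corner) (h0 : (pos (v, c)).1 = 0) :
    Good (g, .zero) (g * v, c) := by
  obtain ⟨m1, m2, m3, m4⟩ := rho_mod v
  have hd := det_one (rho v)
  cases c with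
  | inf =>
    simp only [pos, act, Corner.vec, mul_one, mul_zero, add_zero] at h0
    omega
  | zero =>
    simp only [pos, act, Corner.vec, mul_one, mul_zero, zero_add] at h0
    rw [h0, zero_mul, sub_zero] at hd
    have h1 : (rho v) 0 0 = 1 ∧ (rho v) 1 1 = 1 := by
      rcases Int.mul_eq_one_iff_eq_one_or_neg_one.1 hd with h | h
      · exact h
      · omega
    obtain ⟨k, hk⟩ : ∃ k, (rho v) 1 0 = 2 * k := ⟨(rho v) 1 0 / 2, by omega⟩
    have hv : v = gB ^ k := by
      apply rho_injective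
      rw [rho_B_pow]
      apply ext4
      · rw [h1.1]; simp [EB]
      · rw [h0]; simp [EB]
      · rw [hk]; simp [EB]
      · rw [h1.2]; simp [EB]
    rw [hv]
    exact Good.zeroPow k g _ (Good.refl _)
  | one =>
    simp only [pos, act, Corner.vec, mul_one] at h0
    omega
  | neg =>
    simp only [pos, act, Corner.vec, mul_one, mul_neg] at h0
    omega

theorem base_one' (g v : F2) (h0 : (pos (v, .one)).1 = (pos (v, .one)).2) :
    Good (g, .one) (g * v, .one) := by
  obtain ⟨m1, m2, m3, m4⟩ := rho_mod v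
  have hd := det_one (rho v)
  simp only [pos, act, Corner.vec, mul_one] at h0
  have hd' : ((rho v) 0 0 + (rho v) 0 1) * ((rho v) 0 0 - (rho v) 1 0) = 1 := by
    linear_combination hd + ((rho v) 0 0) * h0
  obtain ⟨a, ha⟩ : ∃ a, (rho v) 0 0 = 4 * a + 1 := ⟨(rho v) 0 0 / 4, by omega⟩
  have hv : ∃ k : ℤ, v = hh ^ k := by
    rcases Int.mul_eq_one_iff_eq_one_or_neg_one.1 hd' with ⟨h1, h2⟩ | ⟨h1, h2⟩
    · refine ⟨2 * a, rho_injective ?_⟩
      rw [rho_h_pow]
      apply ext4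
      · simp [EH, sg_even]; omega
      · simp [EH, sg_even]; omega
      · simp [EH, sg_even]; omega
      · simp [EH, sg_even]; omega
    · refine ⟨2 * (-a - 1) + 1, rho_injective ?_⟩
      rw [rho_h_pow]
      apply ext4
      · simp [EH, sg_even, sg_succ]; omega
      · simp [EH, sg_even, sg_succ]; omega
      · simp [EH, sg_even, sg_succ]; omega
      · simp [EH, sg_even, sg_succ]; omega
  obtain ⟨k, rfl⟩ := hv
  exact Good.onePow k g _ (Good.refl _)

theorem pos_neg_one (v : F2) : pos (v * gA⁻¹, .one) = pos (v, .neg) := by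
  have a3 : act (rho gA) Corner.neg.vec = Corner.one.vec := by
    rw [rho_gA]; simp [act, matA, Corner.vec]
  have h := pos_mul' (v * gA⁻¹) gA .neg _ a3
  rw [inv_mul_cancel_right] at h
  rw [h, pos_eq]

theorem base_one (g v : F2) (c : Corner) (h0 : (pos (v, c)).1 = (pos (v, c)).2) :
    Good (g, .one) (g * v, c) := by
  obtain ⟨m1, m2, m3, m4⟩ := rho_mod v
  cases c with
  | inf =>
    simp only [pos, act, Corner.vec, mul_one, mul_zero, add_zero] at h0
    omega
  | zero =>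
    simp only [pos, act, Corner.vec, mul_one, mul_zero, zero_add] at h0
    omega
  | one => exact base_one' g v h0
  | neg =>
    rw [← pos_neg_one] at h0
    have h1 := base_one' g (v * gA⁻¹) h0
    have h2 := Good.rot_end h1 (Rot.oneA _)
    rwa [mul_assoc, mul_assoc, inv_mul_cancel, mul_one] at h2

theorem main (m : ℕ) : ∀ (g : F2) (c : Corner) (t : F2 × Corner), c ≠ .neg →
    mu (g, c) t = m → Good (g, c) t := by
  induction m using Nat.strong_induction_on with
  | _ m ih =>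
    intro g c t hc hm
    obtain ⟨w, hw, hw'⟩ := pos_back g t
    have ht : t = (g * (g⁻¹ * t.1), t.2) := by rw [mul_inv_cancel_left]
    cases c with
    | inf =>
      by_cases h0 : w.2 = 0
      · rw [ht]
        exact base_inf g _ _ (by rw [hw', h0])
      · exact step_inf m ih g t w hw h0 hm
    | zero =>
      by_cases h0 : w.1 = 0
      · rw [ht]
        exact base_zero g _ _ (by rw [hw', h0])
      · exact step_zero m ih g t w hw h0 hm
    | one =>
      by_cases h0 : w.2 - w.1 = 0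
      · rw [ht]
        exact base_one g _ _ (by rw [hw']; omega)
      · exact step_one m ih g t w hw h0 hm
    | neg => exact absurd rfl hc

theorem good (s t : F2 × Corner) : Good s t := by
  obtain ⟨g, c⟩ := s
  by_cases hc : c = .neg
  · subst hc
    have h1 := main _ (g * gA⁻¹) .one t (by simp) rfl
    have h2 := Good.rot (Rot.oneA' (g * gA⁻¹)) h1
    rwa [inv_mul_cancel_right] at h2
  · exact main _ g c t hc rfl

end Gal

theorem gallery (s t : F2 × Corner) : ∃ l : List F2, Gallery s l t ∧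
    (∀ u ∈ l, wv u (pos s) * wv u (pos t) < 0) ∧ l.Pairwise (fun u v => ¬ SameWall u v) :=
  Gal.good s t

end OneSys
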