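import Pool.Agent.Helper65.OneSys.Defs

open UpperHalfPlane Matrix
open scoped MatrixGroups Pointwise

namespace OneSys

namespace Data
variable (X : Data)

private theorem labA (u : F2) : X.lab (u * gA) = X.a (X.lab u) := by
  simp [lab, phi, gA]

private theorem labB (u : F2) : X.lab (u * gB) = X.b (X.lab u) := by
  simp [lab, phi, gB]

private theorem reach_rot {cs : Finset ℕ} (C : X.Cert cs) {s s' : F2 × Corner} (h : Rot s s')
    (m : Finset ℕ) (hm : C.R (X.lab s.1) s.2 m) : C.R (X.lab s'.1) s'.2 m := by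
  cases h with
  | infA g => simpa only [labA, ← C.rot_inf] using hm
  | infA' g => simpa only [labA, ← C.rot_inf] using hm
  | zeroB g => simpa only [labB, ← C.rot_zero] using hm
  | zeroB' g => simpa only [labB, ← C.rot_zero] using hm
  | oneA g => simpa only [labA, ← C.rot_oneA] using hm
  | oneA' g => simpa only [labA, ← C.rot_oneA] using hm
  | oneB g => simpa only [labB, ← C.rot_oneB] using hm
  | oneB' g => simpa only [labB, ← C.rot_oneB] using hm

private theorem reach_cross {cs : Finset ℕ} (C : X.Cert cs) {s s' : F2 × Corner} {u : F2}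
    (h : Cross s u s') (m : Finset ℕ) (hm : C.R (X.lab s.1) s.2 m)
    (h0 : X.col (X.lab u) ≠ X.col X.d0) (h1 : X.col (X.lab u) ∉ m) :
    C.R (X.lab s'.1) s'.2 (if X.col (X.lab u) ∈ cs then insert (X.col (X.lab u)) m else m) := by
  cases h with
  | c1 => exact (C.cross_a _ m h0 (fun _ => h1)).1 hm
  | c2 => exact (C.cross_a _ m h0 (fun _ => h1)).2.1 hm
  | c3 => exact (C.cross_a _ m h0 (fun _ => h1)).2.2.1 hm
  | c4 => exact (C.cross_a _ m h0 (fun _ => h1)).2.2.2 hm
  | c5 g =>
    rw [labB] at h0 h1 ⊢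
    exact (C.cross_b _ m h0 (fun _ => h1)).1 hm
  | c6 g =>
    rw [labB] at h0 h1 ⊢
    exact (C.cross_b _ m h0 (fun _ => h1)).2.1 hm
  | c7 g =>
    rw [labB] at h0 h1 ⊢
    exact (C.cross_b _ m h0 (fun _ => h1)).2.2.1 hm
  | c8 g =>
    rw [labB] at h0 h1 ⊢
    exact (C.cross_b _ m h0 (fun _ => h1)).2.2.2 hm

theorem Cert.reach {cs : Finset ℕ} (C : X.Cert cs) {s t : F2 × Corner} {l : List F2}
    (hg : Gallery s l t) (m : Finset ℕ) (hm : C.R (X.lab s.1) s.2 m)
    (h0 : ∀ u ∈ l, X.col (X.lab u) ≠ X.col X.d0)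
    (h1 : ∀ u ∈ l, X.col (X.lab u) ∉ m)
    (h2 : l.Pairwise (fun u v => X.col (X.lab u) ∈ cs → X.col (X.lab u) ≠ X.col (X.lab v))) :
    ∃ m', C.R (X.lab t.1) t.2 m' := by
  induction hg generalizing m with
  | nil s => exact ⟨m, hm⟩
  | rot h hg ih => exact ih m (reach_rot X C h m hm) h0 h1 h2
  | @cross s s' t u l h hg ih =>
    have hu0 := h0 u (by simp)
    have hu1 := h1 u (by simp)
    rw [List.pairwise_cons] at h2
    refine ih _ (reach_cross X C h m hm hu0 hu1) (fun v hv => h0 v (by simp [hv])) ?_ h2.2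
    intro v hv
    split_ifs with hc
    · rw [Finset.mem_insert, not_or]
      exact ⟨fun he => h2.1 v hv hc he.symm, h1 v (by simp [hv])⟩
    · exact h1 v (by simp [hv])

end Data

end OneSys
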