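import Pool.Agent.Helper65.OneSys.Base1

open UpperHalfPlane Matrix
open scoped MatrixGroups Pointwise

namespace OneSys

namespace Seg

theorem dist_smul' (k : SL(2, ℤ)) (z w : ℍ) : dist (k • z) (k • w) = dist z w := by
  have h : ∀ z : ℍ, k • z = (Matrix.SpecialLinearGroup.map (Int.castRingHom ℝ) k) • z := fun z => rfl
  rw [h, h]
  exact dist_smul _ _ _

theorem im_smul' (k : SL(2, ℤ)) (z : ℍ) : (k • z).im = z.im / Complex.normSq (denom k z) :=
  ModularGroup.im_smul_eq_div_normSq k z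

theorem normSq_denom (k : SL(2, ℤ)) (z : ℍ) : Complex.normSq (denom k z) =
    (k 1 0 : ℝ) ^ 2 * Complex.normSq z + 2 * (k 1 0 : ℝ) * (k 1 1) * z.re + (k 1 1 : ℝ)^2 := by
  rw [ModularGroup.denom_apply]
  simp [Complex.normSq_apply]
  ring

/-- the geodesic from `e1` to `e2` -/
noncomputable def pp (e1 e2 : ℝ) (h : e1 < e2) (t : ℝ) : ℍ :=
  ⟨⟨(e1 + e2 * Real.exp t) / (1 + Real.exp t), Real.exp (t / 2) * (e2 - e1) / (1 + Real.exp t)⟩, by
    have h1 := sub_pos.2 h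
    have h2 := Real.exp_pos t
    have h3 := Real.exp_pos (t / 2)
    show 0 < Real.exp (t / 2) * (e2 - e1) / (1 + Real.exp t)
    positivity⟩

variable {e1 e2 : ℝ} {h : e1 < e2}

theorem pp_re (t : ℝ) : (pp e1 e2 h t).re = (e1 + e2 * Real.exp t) / (1 + Real.exp t) := rfl

theorem pp_im (t : ℝ) : (pp e1 e2 h t).im = Real.exp (t / 2) * (e2 - e1) / (1 + Real.exp t) := rfl

theorem exp_half (t : ℝ) : Real.exp t = Real.exp (t / 2) ^ 2 := by
  rw [← Real.exp_nat_mul]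
  congr 1
  push_cast
  ring

theorem ns (z : ℍ) : Complex.normSq (z : ℂ) = z.re ^ 2 + z.im ^ 2 := by
  rw [Complex.normSq_apply]
  simp
  ring

theorem pp_inj : Function.Injective (pp e1 e2 h) := by
  intro t t' ht
  have h1 := congrArg UpperHalfPlane.re ht
  rw [pp_re, pp_re] at h1
  have h2 := Real.exp_pos t
  have h3 := Real.exp_pos t'
  rw [div_eq_div_iff (by positivity) (by positivity)] at h1
  have h4 : (e2 - e1) * (Real.exp t - Real.exp t') = 0 := by linear_combination h1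
  have h5 : Real.exp t - Real.exp t' = 0 := by
    rcases mul_eq_zero.1 h4 with h6 | h6
    · exact absurd h6 (sub_pos.2 h).ne'
    · exact h6
  exact Real.exp_injective (sub_eq_zero.1 h5)

theorem pp_form (x y w t : ℝ) : x * Complex.normSq (pp e1 e2 h t : ℂ) + 2 * y * (pp e1 e2 h t).re + w =
    (1 / (1 + Real.exp t)) * ((x * e2 ^ 2 + 2 * y * e2 + w) * Real.exp t +
      (x * e1 ^ 2 + 2 * y * e1 + w)) := by
  rw [ns, pp_re, pp_im, exp_half t]
  have h2 := Real.exp_pos (t / 2)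
  field_simp
  ring

theorem pp_axis (t : ℝ) : Complex.normSq (pp e1 e2 h t : ℂ) - (e1 + e2) * (pp e1 e2 h t).re +
    e1 * e2 = 0 := by
  have h1 := pp_form (e1 := e1) (e2 := e2) (h := h) 1 (-(e1 + e2) / 2) (e1 * e2) t
  have h2 : (1 : ℝ) * Complex.normSq (pp e1 e2 h t : ℂ) + 2 * (-(e1 + e2) / 2) * (pp e1 e2 h t).re +
    e1 * e2 = Complex.normSq (pp e1 e2 h t : ℂ) - (e1 + e2) * (pp e1 e2 h t).re + e1 * e2 := by ring
  rw [← h2, h1]
  ring

theorem axis_pp (z : ℍ) (hz : Complex.normSq (z : ℂ) - (e1 + e2) * z.re + e1 * e2 = 0) :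
    ∃ t, pp e1 e2 h t = z := by
  rw [ns] at hz
  have him := z.im_pos
  have hz' : (z.re - e1) * (e2 - z.re) = z.im ^ 2 := by linear_combination (-1 : ℝ) * hz
  have hp : 0 < (z.re - e1) * (e2 - z.re) := by rw [hz']; positivity
  have h1 : e1 < z.re ∧ z.re < e2 := by
    rcases mul_pos_iff.1 hp with ⟨a, b⟩ | ⟨a, b⟩
    · exact ⟨by linarith, by linarith⟩
    · exfalso; linarith
  have hE : 0 < (z.re - e1) / (e2 - z.re) := div_pos (by linarith) (by linarith)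
  refine ⟨Real.log ((z.re - e1) / (e2 - z.re)), ?_⟩
  have hne : e2 - z.re ≠ 0 := by linarith
  have hne2 : e2 - e1 ≠ 0 := by linarith
  have hre : (pp e1 e2 h (Real.log ((z.re - e1) / (e2 - z.re)))).re = z.re := by
    rw [pp_re, Real.exp_log hE]
    have h3 : 1 + (z.re - e1) / (e2 - z.re) = (e2 - e1) / (e2 - z.re) := by
      field_simp
      ring
    rw [h3]
    field_simp
    ring
  have haxis := pp_axis (e1 := e1) (e2 := e2) (h := h) (Real.log ((z.re - e1) / (e2 - z.re)))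
  rw [ns, hre] at haxis
  have him2 : (pp e1 e2 h (Real.log ((z.re - e1) / (e2 - z.re)))).im ^ 2 = z.im ^ 2 := by
    linear_combination haxis - hz
  have him3 : (pp e1 e2 h (Real.log ((z.re - e1) / (e2 - z.re)))).im = z.im :=
    (sq_eq_sq₀ (pp e1 e2 h _).im_pos.le him.le).1 him2
  exact UpperHalfPlane.ext' hre him3

theorem pp_dist (t t' : ℝ) : Real.cosh (dist (pp e1 e2 h t) (pp e1 e2 h t')) =
    Real.cosh ((t - t') / 2) := by
  rw [UpperHalfPlane.cosh_dist', pp_re, pp_re, pp_im, pp_im, Real.cosh_eq]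
  have e3 : Real.exp ((t - t') / 2) = Real.exp (t / 2) / Real.exp (t' / 2) := by
    rw [← Real.exp_sub]; congr 1; ring
  have e4 : Real.exp (-((t - t') / 2)) = Real.exp (t' / 2) / Real.exp (t / 2) := by
    rw [← Real.exp_sub]; congr 1; ring
  rw [e3, e4, exp_half t, exp_half t']
  have h2 := Real.exp_pos (t / 2)
  have h3 := Real.exp_pos (t' / 2)
  have h4 : e2 - e1 ≠ 0 := (sub_pos.2 h).ne'
  set S := Real.exp (t / 2)
  set S' := Real.exp (t' / 2)
  field_simp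
  ring

theorem iso_real (φ : ℝ → ℝ) (hφ : ∀ t t', |φ t - φ t'| = |t - t'|) :
    (∀ t, φ t = t + φ 0) ∨ (∀ t, φ t = φ 0 - t) := by
  have hsq : ∀ t t', (φ t - φ t') ^ 2 = (t - t') ^ 2 := fun t t' => sq_eq_sq_iff_abs_eq_abs _ _ |>.2 (hφ t t')
  have h1 := hsq 1 0
  have h2 : (φ 1 - φ 0 - 1) * (φ 1 - φ 0 + 1) = 0 := by linear_combination h1
  rcases mul_eq_zero.1 h2 with h3 | h3
  · left
    intro t
    have h4 := hsq t 0
    have h5 := hsq t 1
    have h6 : φ 1 = φ 0 + 1 := by linarith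
    rw [h6] at h5
    linarith
  · right
    intro t
    have h4 := hsq t 0
    have h5 := hsq t 1
    have h6 : φ 1 = φ 0 - 1 := by linarith
    rw [h6] at h5
    linarith

/-- the end points of the axis -/
theorem roots (b : SL(2, ℤ)) (hyp : b.val.IsHyperbolic) : ∃ e1 e2 : ℝ, e1 < e2 ∧
    (b 1 0 : ℝ) ≠ 0 ∧ (b 1 0 : ℝ) * (e1 + e2) = b 0 0 - b 1 1 ∧
    (b 1 0 : ℝ) * (e1 * e2) = -(b 0 1 : ℝ) := by
  have hD : 0 < (b 0 0 + b 1 1) ^ 2 - 4 := by
    have h := hyp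
    unfold Matrix.IsHyperbolic at h
    rw [Matrix.discr_fin_two, Matrix.trace_fin_two, b.det_coe] at h
    simpa using h
  have hdet : b 0 0 * b 1 1 - b 0 1 * b 1 0 = 1 := by
    have h := b.det_coe
    rw [Matrix.det_fin_two] at h
    exact h
  have hc : b 1 0 ≠ 0 := by
    intro h0
    rw [h0, mul_zero, sub_zero] at hdet
    rcases Int.mul_eq_one_iff_eq_one_or_neg_one.1 hdet with ⟨h1, h2⟩ | ⟨h1, h2⟩
    · rw [h1, h2] at hD; norm_num at hD
    · rw [h1, h2] at hD; norm_num at hD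
  have hcR : (b 1 0 : ℝ) ≠ 0 := by exact_mod_cast hc
  have hDR : 0 < ((b 0 0 : ℝ) + b 1 1) ^ 2 - 4 := by exact_mod_cast hD
  have hdetR : (b 0 0 : ℝ) * b 1 1 - b 0 1 * b 1 0 = 1 := by exact_mod_cast hdet
  set R := Real.sqrt (((b 0 0 : ℝ) + b 1 1) ^ 2 - 4) / (2 * |(b 1 0 : ℝ)|) with hR
  have hRpos : 0 < R := div_pos (Real.sqrt_pos.2 hDR) (by positivity)
  have hR2 : 4 * (b 1 0 : ℝ) ^ 2 * R ^ 2 = ((b 0 0 : ℝ) + b 1 1) ^ 2 - 4 := by
    rw [hR, div_pow, Real.sq_sqrt hDR.le, mul_pow, sq_abs]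
    field_simp
    norm_num
  refine ⟨((b 0 0 : ℝ) - b 1 1) / (2 * b 1 0) - R, ((b 0 0 : ℝ) - b 1 1) / (2 * b 1 0) + R,
    by linarith, hcR, ?_, ?_⟩
  · field_simp
    ring
  · have h1 : (((b 0 0 : ℝ) - b 1 1) / (2 * b 1 0) - R) * (((b 0 0 : ℝ) - b 1 1) / (2 * b 1 0) + R) =
        (((b 0 0 : ℝ) - b 1 1) ^ 2 - 4 * (b 1 0 : ℝ) ^ 2 * R ^ 2) / (4 * (b 1 0 : ℝ) ^ 2) := by
      field_simp
      ring
    rw [h1, hR2]
    field_simp
    linear_combination (-4 : ℝ) * hdetR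

/-- the integer `2 c ^ 2 cosh` -/
def nn (b k : SL(2, ℤ)) : ℤ := (k 1 0) ^ 2 * ((b 0 0 - b 1 1) ^ 2 + 2 * b 0 1 * b 1 0) +
  2 * (k 1 0) * (k 1 1) * (b 1 0) * (b 0 0 - b 1 1) + 2 * (b 1 0) ^ 2 * (k 1 1) ^ 2

theorem nn_eq (b k : SL(2, ℤ)) (h1 : (b 1 0 : ℝ) * (e1 + e2) = b 0 0 - b 1 1)
    (h2 : (b 1 0 : ℝ) * (e1 * e2) = -(b 0 1 : ℝ)) (c : ℝ)
    (hk : k • pp e1 e2 h 0 = pp e1 e2 h c) :
    (nn b k : ℝ) = 2 * (b 1 0 : ℝ) ^ 2 * Real.cosh (c / 2) := by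
  have h3 := im_smul' k (pp e1 e2 h 0)
  rw [hk, pp_im, pp_im] at h3
  have hN := normSq_denom k (pp e1 e2 h 0)
  have hNpos : 0 < Complex.normSq (denom k (pp e1 e2 h 0)) :=
    UpperHalfPlane.normSq_denom_pos _ (pp e1 e2 h 0).im_ne_zero
  rw [ns, pp_re, pp_im] at hN
  simp only [Real.exp_zero, zero_div, mul_one, one_mul] at hN h3
  have h4 : 0 < e2 - e1 := sub_pos.2 h
  have hE := Real.exp_pos (c / 2)
  rw [exp_half c] at h3
  have hcosh : Real.cosh (c / 2) = (Real.exp (c / 2) ^ 2 + 1) / (2 * Real.exp (c / 2)) := by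
    rw [Real.cosh_eq, Real.exp_neg]
    field_simp
  have h5 : Complex.normSq (denom k (pp e1 e2 h 0)) = Real.cosh (c / 2) := by
    rw [hcosh]
    rw [div_div, div_eq_div_iff (by positivity) (by positivity)] at h3
    rw [eq_div_iff (by positivity)]
    have h6 : (e2 - e1) * (Complex.normSq (denom k (pp e1 e2 h 0)) * (2 * Real.exp (c / 2))) =
        (e2 - e1) * (Real.exp (c / 2) ^ 2 + 1) := by linear_combination h3
    exact mul_left_cancel₀ h4.ne' h6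
  rw [← h5, hN]
  unfold nn
  push_cast
  have e3 : (b 1 0 : ℝ) ^ 2 * (e1 ^ 2 + e2 ^ 2) = ((b 0 0 : ℝ) - b 1 1) ^ 2 +
      2 * b 0 1 * b 1 0 := by
    have : (b 1 0 : ℝ) ^ 2 * (e1 ^ 2 + e2 ^ 2) = ((b 1 0 : ℝ) * (e1 + e2)) ^ 2 -
      2 * (b 1 0 : ℝ) * ((b 1 0 : ℝ) * (e1 * e2)) := by ring
    rw [this, h1, h2]
    ring
  rw [← e3, ← h1]
  ring

theorem stab_trans (G : Subgroup SL(2, ℤ)) (hG : ∀ g ∈ G, ∀ z : ℍ, g • z = z → g = 1)
    (b k : SL(2, ℤ)) (hk : k ∈ G) (hr : Set.range (pp e1 e2 h) = axis b)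
    (hax : k • axis b = axis b) : ∃ c : ℝ, (∀ t, k • pp e1 e2 h t = pp e1 e2 h (t + c)) ∧
      (c = 0 → k = 1) := by
  have h1 : ∀ t, ∃ t', pp e1 e2 h t' = k • pp e1 e2 h t := by
    intro t
    have : k • pp e1 e2 h t ∈ axis b := by
      rw [← hax]
      exact Set.smul_mem_smul_set (hr ▸ Set.mem_range_self t)
    rw [← hr] at this
    exact this
  choose φ hφ using h1
  have hiso : ∀ t t', |φ t - φ t'| = |t - t'| := by
    intro t t'
    have h2 : Real.cosh ((φ t - φ t') / 2) = Real.cosh ((t - t') / 2) := by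
      rw [← pp_dist (h := h), ← pp_dist (h := h), hφ, hφ, dist_smul']
    have h3 : |(φ t - φ t') / 2| = |(t - t') / 2| :=
      le_antisymm (Real.cosh_le_cosh.1 h2.le) (Real.cosh_le_cosh.1 h2.ge)
    rw [abs_div, abs_div] at h3
    have h4 : |(2 : ℝ)| ≠ 0 := by norm_num
    field_simp at h3
    exact h3
  rcases iso_real φ hiso with h2 | h2
  · refine ⟨φ 0, fun t => by rw [← hφ, h2 t], fun h0 => ?_⟩
    apply hG k hk (pp e1 e2 h 0)
    rw [← hφ, h0]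
  · have h3 : k = 1 := by
      apply hG k hk (pp e1 e2 h (φ 0 / 2))
      rw [← hφ, h2]
      congr 1
      ring
    refine ⟨0, fun t => ?_, fun _ => h3⟩
    rw [h3, one_smul, add_zero]

end Seg

theorem segment (G : Subgroup SL(2, ℤ)) (hG : ∀ g ∈ G, ∀ z : ℍ, g • z = z → g = 1)
    (b : SL(2, ℤ)) (hb : b ∈ G) (hyp : b.val.IsHyperbolic) :
    ∃ (p : ℝ → ℍ) (h : SL(2, ℤ)) (L : ℝ), Function.Injective p ∧ Set.range p = axis b ∧
      h ∈ G ∧ 0 < L ∧ (∀ t, h • p t = p (t + L)) ∧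
      (∀ k ∈ G, ∀ t t', k • axis b = axis b → k • p t = p t' → |t - t'| < L → k = 1) ∧
      (∀ x y w : ℝ, ∃ α β : ℝ, ∀ t, ∃ r : ℝ, 0 < r ∧
        x * Complex.normSq (p t : ℂ) + 2 * y * (p t).re + w = r * (α * Real.exp t + β)) := by
  classical
  obtain ⟨e1, e2, hlt, hc, r1, r2⟩ := Seg.roots b hyp
  have hrange : Set.range (Seg.pp e1 e2 hlt) = axis b := by
    have hax : ∀ z : ℍ, z ∈ axis b ↔ Complex.normSq (z : ℂ) - (e1 + e2) * z.re + e1 * e2 = 0 := by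
      intro z
      have h1 : (b 1 0 : ℝ) * Complex.normSq (z : ℂ) + ((b 1 1 : ℝ) - (b 0 0 : ℝ)) * z.re -
          (b 0 1 : ℝ) = (b 1 0 : ℝ) * (Complex.normSq (z : ℂ) - (e1 + e2) * z.re + e1 * e2) := by
        linear_combination (z.re) * r1 - r2
      show (b 1 0 : ℝ) * Complex.normSq (z : ℂ) + ((b 1 1 : ℝ) - (b 0 0 : ℝ)) * z.re -
          (b 0 1 : ℝ) = 0 ↔ _
      rw [h1, mul_eq_zero]
      constructor
      · rintro (h2 | h2)
        · exact absurd h2 hc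
        · exact h2
      · exact fun h2 => Or.inr h2
    ext z
    rw [hax]
    constructor
    · rintro ⟨t, rfl⟩
      exact Seg.pp_axis t
    · intro hz
      exact Seg.axis_pp z hz
  have hst := fun k (hk : k ∈ G) (ha : k • axis b = axis b) =>
    Seg.stab_trans (h := hlt) G hG b k hk hrange ha
  -- the minimal element
  have hbax : b • axis b = axis b := by
    rw [smul_axis, mul_inv_cancel_right]
  have hb1 : b ≠ 1 := by
    rintro rfl
    unfold Matrix.IsHyperbolic at hyp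
    rw [Matrix.discr_fin_two] at hyp
    simp [Matrix.trace_fin_two] at hyp
  have hex : ∃ m : ℕ, ∃ k ∈ G, k • axis b = axis b ∧ k ≠ 1 ∧ (Seg.nn b k).toNat = m :=
    ⟨_, b, hb, hbax, hb1, rfl⟩
  obtain ⟨k0, hk0, hk0a, hk01, hk0n⟩ := Nat.find_spec hex
  have hmin : ∀ k ∈ G, k • axis b = axis b → k ≠ 1 → (Seg.nn b k0).toNat ≤ (Seg.nn b k).toNat := by
    intro k hk ha h1
    rw [hk0n]
    exact Nat.find_min' hex ⟨k, hk, ha, h1, rfl⟩
  obtain ⟨c0, hT0, hz0⟩ := hst k0 hk0 hk0a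
  have hc0 : c0 ≠ 0 := fun h => hk01 (hz0 h)
  have hcc : ∀ k ∈ G, k • axis b = axis b → k ≠ 1 → ∀ c,
      (∀ t, k • Seg.pp e1 e2 hlt t = Seg.pp e1 e2 hlt (t + c)) → |c0| ≤ |c| := by
    intro k hk ha h1 c hT
    have e1' := Seg.nn_eq (h := hlt) b k0 r1 r2 c0 (by rw [hT0, zero_add])
    have e2' := Seg.nn_eq (h := hlt) b k r1 r2 c (by rw [hT, zero_add])
    have hc2 : 0 < 2 * (b 1 0 : ℝ) ^ 2 := by positivity
    have p1 : 0 < Seg.nn b k0 := by
      have : (0 : ℝ) < (Seg.nn b k0 : ℝ) := by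
        rw [e1']; exact mul_pos hc2 (Real.cosh_pos _)
      exact_mod_cast this
    have p2 : 0 < Seg.nn b k := by
      have : (0 : ℝ) < (Seg.nn b k : ℝ) := by
        rw [e2']; exact mul_pos hc2 (Real.cosh_pos _)
      exact_mod_cast this
    have h3 : Seg.nn b k0 ≤ Seg.nn b k := by
      have := hmin k hk ha h1
      omega
    have h4 : (Seg.nn b k0 : ℝ) ≤ (Seg.nn b k : ℝ) := by exact_mod_cast h3
    rw [e1', e2'] at h4
    have h5 := Real.cosh_le_cosh.1 (le_of_mul_le_mul_left h4 hc2)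
    rw [abs_div, abs_div] at h5
    have h6 : |(2 : ℝ)| = 2 := by norm_num
    rw [h6] at h5
    linarith
  obtain ⟨h, hh, hT⟩ : ∃ h ∈ G, ∀ t, h • Seg.pp e1 e2 hlt t = Seg.pp e1 e2 hlt (t + |c0|) := by
    rcases lt_or_gt_of_ne hc0 with hneg | hpos
    · refine ⟨k0⁻¹, G.inv_mem hk0, fun t => ?_⟩
      rw [abs_of_neg hneg, inv_smul_eq_iff, hT0]
      congr 1
      ring
    · exact ⟨k0, hk0, fun t => by rw [abs_of_pos hpos]; exact hT0 t⟩
  refine ⟨Seg.pp e1 e2 hlt, h, |c0|, Seg.pp_inj, hrange, hh, abs_pos.2 hc0, hT, ?_, ?_⟩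
  · intro k hk t t' ha hkt hlt'
    by_contra h1
    obtain ⟨c, hTc, _⟩ := hst k hk ha
    rw [hTc] at hkt
    have h2 := Seg.pp_inj hkt
    have h3 := hcc k hk ha h1 c hTc
    rw [← h2] at hlt'
    rw [show t - (t + c) = -c by ring, abs_neg] at hlt'
    linarith
  · intro x y w
    refine ⟨x * e2 ^ 2 + 2 * y * e2 + w, x * e1 ^ 2 + 2 * y * e1 + w, fun t =>
      ⟨1 / (1 + Real.exp t), by positivity, Seg.pp_form x y w t⟩⟩

end OneSys
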