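import Pool.Agent.Helper65.OneSys.Gal
import Pool.Agent.Helper65.OneSys.Conn
import Pool.Agent.Helper65.OneSys.Seg
import Pool.Agent.Helper65.OneSys.Lab
import Pool.Agent.Helper65.OneSys.Proj

open UpperHalfPlane Matrix
open scoped MatrixGroups Pointwise

namespace OneSys

theorem Key.proj_eq {G : Subgroup SL(2, ℤ)} {z z' : ℍ} :
    proj G z = proj G z' ↔ ∃ k ∈ G, k • z' = z := by
  have key : (MulAction.orbitRel G ℍ) z z' ↔ ∃ k ∈ G, k • z' = z := by
    rw [MulAction.orbitRel_apply, MulAction.mem_orbit_iff]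
    constructor
    · rintro ⟨⟨k, hk⟩, h⟩
      exact ⟨k, hk, h⟩
    · rintro ⟨k, hk, h⟩
      exact ⟨⟨k, hk⟩, h⟩
  rw [← key]
  exact ⟨fun h => Quotient.exact h, fun h => Quotient.sound h⟩

/-- The values of the base form at the corners. -/
theorem Key.wv_one_inf : wv 1 (pos (1, .inf)) = 1 := by
  simp [wv, pos, act, ca, cb, cc, Corner.vec]

theorem Key.wv_one_zero : wv 1 (pos (1, .zero)) = -1 := by
  simp [wv, pos, act, ca, cb, cc, Corner.vec]

theorem Key.wz_one_I : wz 1 I = 0 := by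
  simp [wz, ca, cb, cc]

/-- A sign change along the segment gives a crossing point. -/
theorem Key.ivt {p : ℝ → ℍ} {u : F2}
    (hform : ∃ α β : ℝ, ∀ t, ∃ r : ℝ, 0 < r ∧ wz u (p t) = r * (α * Real.exp t + β))
    {t₀ t₁ : ℝ} (h : wz u (p t₀) * wz u (p t₁) < 0) :
    ∃ t, (t₀ < t ∧ t < t₁ ∨ t₁ < t ∧ t < t₀) ∧ wz u (p t) = 0 := by
  obtain ⟨α, β, hf⟩ := hform
  have hcont : Continuous fun t : ℝ => α * Real.exp t + β := by fun_prop
  obtain ⟨r₀, hr₀, e₀⟩ := hf t₀
  obtain ⟨r₁, hr₁, e₁⟩ := hf t₁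
  set φ : ℝ → ℝ := fun t => α * Real.exp t + β with hφ
  have hmul : φ t₀ * φ t₁ < 0 := by
    rw [e₀, e₁] at h
    have h2 : (r₀ * r₁) * (φ t₀ * φ t₁) < 0 := by
      have : r₀ * (α * Real.exp t₀ + β) * (r₁ * (α * Real.exp t₁ + β)) =
        (r₀ * r₁) * (φ t₀ * φ t₁) := by simp only [hφ]; ring
      rw [← this]; exact h
    by_contra hcon
    push Not at hcon
    have := mul_nonneg (mul_pos hr₀ hr₁).le hcon
    linarith
  have hz : ∃ t ∈ Set.uIcc t₀ t₁, φ t = 0 := by
    have hsub := intermediate_value_uIcc (f := φ) (a := t₀) (b := t₁) hcont.continuousOn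
    have h0 : (0 : ℝ) ∈ Set.uIcc (φ t₀) (φ t₁) := by
      rcases mul_neg_iff.1 hmul with ⟨h1, h2⟩ | ⟨h1, h2⟩
      · exact Set.mem_uIcc_of_ge h2.le h1.le
      · exact Set.mem_uIcc_of_le h1.le h2.le
    obtain ⟨t, ht, hte⟩ := hsub h0
    exact ⟨t, ht, hte⟩
  obtain ⟨t, ht, hte⟩ := hz
  have hne0 : φ t₀ ≠ 0 := fun h0 => by rw [h0] at hmul; simp at hmul
  have hne1 : φ t₁ ≠ 0 := fun h0 => by rw [h0] at hmul; simp at hmul
  have ht0 : t ≠ t₀ := fun h0 => hne0 (h0 ▸ hte)
  have ht1 : t ≠ t₁ := fun h0 => hne1 (h0 ▸ hte)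
  obtain ⟨r, hr, e⟩ := hf t
  refine ⟨t, ?_, ?_⟩
  · rcases Set.mem_uIcc.1 ht with ⟨h1, h2⟩ | ⟨h1, h2⟩
    · exact Or.inl ⟨lt_of_le_of_ne h1 (Ne.symm ht0), lt_of_le_of_ne h2 ht1⟩
    · exact Or.inr ⟨lt_of_le_of_ne h1 (Ne.symm ht1), lt_of_le_of_ne h2 ht0⟩
  · rw [e]
    have : α * Real.exp t + β = 0 := hte
    rw [this, mul_zero]

namespace Data
variable (X : Data)

/-- Two walls of the same colour of a simple curve meet only if they are equal. -/
theorem key_same {i : ℕ} (h : X.Single i) {u v : F2} {z : ℍ} (hu : z ∈ wall u) (hv : z ∈ wall v)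
    (cu : X.col (X.lab u) = i) (cv : X.col (X.lab v) = i) : SameWall u v := by
  by_contra hne
  obtain ⟨w, -, hM⟩ := X.meets_of_mem hu hv hne
  rw [cu, cv] at hM
  rcases hM with ⟨h1, h2⟩ | ⟨h1, h2⟩ <;> exact h.simple _ h1 h2

theorem lab_one : X.lab 1 = X.d0 := by simp [lab]

/-- The main argument in normal position. -/
theorem key_aux {cs : Finset ℕ} (C : X.Cert cs) (hα : X.Single (X.col X.d0))
    (hcs : ∀ i ∈ cs, X.Single i) (hα' : X.col X.d0 ∉ cs)
    (hdis : ∀ i ∈ cs, ∀ d, ¬ X.Meets d i (X.col X.d0))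
    (b : SL(2, ℤ)) (hb : b ∈ X.grp) (hyp : b.val.IsHyperbolic)
    (hsim : ∀ h ∈ X.grp, h • axis b = axis b ∨ Disjoint (h • axis b) (axis b))
    (h1 : ((proj X.grp '' axis b) ∩ X.curve (X.col X.d0)).encard ≤ 1)
    (h2 : ∀ i ∈ cs, ((proj X.grp '' axis b) ∩ X.curve i).encard ≤ 1)
    (z₀ : ℍ) (hz₀ : z₀ ∈ axis b) (hz₀' : z₀ ∈ wall 1) : False := by
  obtain ⟨p, h, L, pinj, prange, hG, Lpos, hp, hfree, hform⟩ := segment X.grp X.grp_free b hb hyp
  have pax : ∀ t, p t ∈ axis b := fun t => prange ▸ Set.mem_range_self t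
  -- points of the segment are distinct in the surface
  have hdist : ∀ t t', proj X.grp (p t) = proj X.grp (p t') → |t - t'| < L → t = t' := by
    intro t t' he hlt
    obtain ⟨k, hk, hke⟩ := Key.proj_eq.1 he
    have hkax : k • axis b = axis b := by
      rcases hsim k hk with h' | h'
      · exact h'
      · exfalso
        refine Set.disjoint_left.1 h' (Set.smul_mem_smul_set (pax t')) ?_
        rw [hke]; exact pax t
    have := hfree k hk t' t hkax hke (by rwa [abs_sub_comm])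
    rw [this, one_smul] at hke
    exact (pinj hke).symm
  -- at most one crossing with each curve
  have honce : ∀ i, ((proj X.grp '' axis b) ∩ X.curve i).encard ≤ 1 → ∀ u v t t',
      X.col (X.lab u) = i → X.col (X.lab v) = i → p t ∈ wall u → p t' ∈ wall v →
      |t - t'| < L → t = t' := by
    intro i hi u v t t' cu cv hu hv hlt
    refine hdist t t' ?_ hlt
    rw [Set.encard_le_one_iff] at hi
    exact hi _ _ ⟨⟨_, pax t, rfl⟩, u, cu, _, hu, rfl⟩ ⟨⟨_, pax t', rfl⟩, v, cv, _, hv, rfl⟩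
  have hformu : ∀ u : F2, ∃ α β : ℝ, ∀ t, ∃ r : ℝ, 0 < r ∧
      wz u (p t) = r * (α * Real.exp t + β) := fun u => hform (ca u) (cb u) (cc u)
  obtain ⟨t₀, ht₀⟩ : ∃ t₀, p t₀ = z₀ := by
    have : z₀ ∈ Set.range p := prange ▸ hz₀
    exact this
  have hw0 : p t₀ ∈ wall 1 := ht₀ ▸ hz₀'
  -- direction
  obtain ⟨ε, hε, hh', hpos, hneg⟩ : ∃ ε : ℝ, (ε = 1 ∨ ε = -1) ∧
      (∃ h' ∈ X.grp, ∀ t, h' • p t = p (t + ε * L)) ∧
      0 < wz 1 (p (t₀ + ε * L)) ∧ wz 1 (p (t₀ - ε * L)) < 0 := by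
    obtain ⟨α, β, hf⟩ := hformu 1
    have hz0 : wz 1 (p t₀) = 0 := (mem_wall_iff 1 _).1 hw0
    obtain ⟨r₀, hr₀, e₀⟩ := hf t₀
    rw [hz0] at e₀
    have e₀' : α * Real.exp t₀ + β = 0 := by
      rcases mul_eq_zero.1 e₀.symm with h' | h'
      · exact absurd h' hr₀.ne'
      · exact h'
    have hα0 : α ≠ 0 := by
      intro hα0
      have hβ0 : β = 0 := by rw [hα0] at e₀'; simpa using e₀'
      have hall : ∀ t, p t ∈ wall 1 := by
        intro t
        rw [mem_wall_iff]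
        obtain ⟨r, -, e⟩ := hf t
        rw [e, hα0, hβ0]; simp
      have := honce _ h1 1 1 t₀ (t₀ + L / 2) (by rw [X.lab_one]) (by rw [X.lab_one]) (hall _)
        (hall _) (by
          have : t₀ - (t₀ + L / 2) = -(L / 2) := by ring
          rw [this, abs_neg, abs_of_pos (by positivity)]; linarith)
      linarith
    have hval : ∀ t, ∃ r : ℝ, 0 < r ∧ wz 1 (p t) = r * (α * (Real.exp t - Real.exp t₀)) := by
      intro t
      obtain ⟨r, hr, e⟩ := hf t
      exact ⟨r, hr, by rw [e]; congr 1; linear_combination e₀'⟩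
    have hinv : ∀ t, h⁻¹ • p t = p (t + (-1) * L) := by
      intro t
      rw [inv_smul_eq_iff, hp]
      congr 1; ring
    rcases lt_or_gt_of_ne hα0 with hneg | hpos
    · refine ⟨-1, Or.inr rfl, ⟨h⁻¹, inv_mem hG, hinv⟩, ?_, ?_⟩
      · obtain ⟨r, hr, e⟩ := hval (t₀ + -1 * L)
        rw [e]
        have : Real.exp (t₀ + -1 * L) < Real.exp t₀ := Real.exp_lt_exp.2 (by linarith)
        exact mul_pos hr (mul_pos_of_neg_of_neg hneg (by linarith))
      · obtain ⟨r, hr, e⟩ := hval (t₀ - -1 * L)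
        rw [e]
        have : Real.exp t₀ < Real.exp (t₀ - -1 * L) := Real.exp_lt_exp.2 (by linarith)
        exact mul_neg_of_pos_of_neg hr (mul_neg_of_neg_of_pos hneg (by linarith))
    · refine ⟨1, Or.inl rfl, ⟨h, hG, fun t => by rw [hp, one_mul]⟩, ?_, ?_⟩
      · obtain ⟨r, hr, e⟩ := hval (t₀ + 1 * L)
        rw [e]
        have : Real.exp t₀ < Real.exp (t₀ + 1 * L) := Real.exp_lt_exp.2 (by linarith)
        exact mul_pos hr (mul_pos hpos (by linarith))
      · obtain ⟨r, hr, e⟩ := hval (t₀ - 1 * L)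
        rw [e]
        have : Real.exp (t₀ - 1 * L) < Real.exp t₀ := Real.exp_lt_exp.2 (by linarith)
        exact mul_neg_of_pos_of_neg hr (mul_neg_of_pos_of_neg hpos (by linarith))
  obtain ⟨h', hh'G, hh'p⟩ := hh'
  obtain ⟨g, hg, hgh⟩ : ∃ g ∈ X.G2, rho g = h' := by
    obtain ⟨g, hg, he⟩ := Subgroup.mem_map.1 hh'G
    exact ⟨g, hg, he⟩
  subst hgh
  set t₁ := t₀ + ε * L with ht₁
  have hlt1 : ∀ t, (t₀ < t ∧ t < t₁ ∨ t₁ < t ∧ t < t₀) → |t - t₀| < L ∧ t ≠ t₀ := by
    intro t ht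
    rcases hε with rfl | rfl <;> rcases ht with ⟨ha, hb'⟩ | ⟨ha, hb'⟩ <;>
      refine ⟨?_, ?_⟩ <;> (try rw [abs_lt]) <;> (try constructor) <;> (try linarith)
  have hlt2 : ∀ t t', (t₀ < t ∧ t < t₁ ∨ t₁ < t ∧ t < t₀) →
      (t₀ < t' ∧ t' < t₁ ∨ t₁ < t' ∧ t' < t₀) → |t - t'| < L := by
    intro t t' ht ht'
    rcases hε with rfl | rfl <;> rcases ht with ⟨ha, hb'⟩ | ⟨ha, hb'⟩ <;>
      rcases ht' with ⟨hc, hd⟩ | ⟨hc, hd⟩ <;> rw [abs_lt] <;> constructor <;> linarith
  -- labels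
  have labg : X.lab g = X.d0 := (X.mem_G2 g).1 hg
  have c1 : X.col (X.lab 1) = X.col X.d0 := by rw [X.lab_one]
  have cg : X.col (X.lab g) = X.col X.d0 := by rw [labg]
  have hIw : I ∈ wall 1 := (mem_wall_iff 1 _).2 Key.wz_one_I
  have hgw : rho g • wall 1 = wall g := by rw [smul_wall, mul_one]
  have hgI : rho g • I ∈ wall g := by
    rw [← hgw]; exact Set.smul_mem_smul_set hIw
  have hp1 : p t₁ ∈ wall g := by
    rw [← hgw, ht₁, ← hh'p]; exact Set.smul_mem_smul_set hw0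
  -- disjointness from wall 1 and wall g
  have hdisj : ∀ u v : F2, X.col (X.lab v) = X.col X.d0 →
      (X.col (X.lab u) = X.col X.d0 ∧ ¬ SameWall u v ∨ X.col (X.lab u) ∈ cs) →
      Disjoint (wall u) (wall v) := by
    intro u v cv hu
    rw [Set.disjoint_left]
    intro z hzu hzv
    rcases hu with ⟨cu, hne⟩ | hu
    · exact hne (X.key_same hα hzu hzv cu cv)
    · have hne : ¬ SameWall u v := by
        intro hs
        have := X.col_sameWall hs
        rw [this, cv] at hu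
        exact hα' hu
      obtain ⟨w, -, hM⟩ := X.meets_of_mem hzu hzv hne
      rw [cv] at hM
      exact hdis _ hu _ hM
  -- the crossing point of a separating wall
  have hcross : ∀ u : F2, wv u (pos (1, .inf)) * wv u (pos (g, .zero)) < 0 →
      Disjoint (wall u) (wall 1) → Disjoint (wall u) (wall g) →
      ∃ t, (t₀ < t ∧ t < t₁ ∨ t₁ < t ∧ t < t₀) ∧ p t ∈ wall u := by
    intro u hsep hd1 hdg
    have hI : rho 1 • I ∉ wall u := by
      rw [map_one, one_smul]
      exact fun hc => Set.disjoint_left.1 hd1 hc hIw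
    have hI' : rho g • I ∉ wall u := fun hc => Set.disjoint_left.1 hdg hc hgI
    have a1 := center_inf u 1 hI
    rw [map_one, one_smul] at a1
    have a2 := center_zero u g hI'
    have a3 := wall_sign u 1 hd1 I (p t₀) hIw hw0
    have a4 := wall_sign u g hdg (rho g • I) (p t₁) hgI hp1
    have hsep' : (wv u (pos (1, .inf)) : ℝ) * (wv u (pos (g, .zero)) : ℝ) < 0 := by
      exact_mod_cast hsep
    have hfin : wz u (p t₀) * wz u (p t₁) < 0 := by
      by_contra hcon
      push Not at hcon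
      have e1 : 0 ≤ ((wv u (pos (1, .inf)) : ℝ) * wz u I) * (wz u I * wz u (p t₀)) *
          (((wv u (pos (g, .zero)) : ℝ) * wz u (rho g • I)) *
            (wz u (rho g • I) * wz u (p t₁))) := by positivity
      have p1 : 0 < ((wv u (pos (1, .inf)) : ℝ) * wz u I) * (wz u I * wz u (p t₀)) := mul_pos a1 a3
      have p2 : 0 < (((wv u (pos (g, .zero)) : ℝ) * wz u (rho g • I)) *
            (wz u (rho g • I) * wz u (p t₁))) := mul_pos a2 a4
      have p3 := mul_pos p1 p2
      have e2 : ((wv u (pos (1, .inf)) : ℝ) * wz u I) * (wz u I * wz u (p t₀)) *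
          (((wv u (pos (g, .zero)) : ℝ) * wz u (rho g • I)) *
            (wz u (rho g • I) * wz u (p t₁))) =
          ((wz u I) ^ 2 * (wz u (rho g • I)) ^ 2 * (wz u (p t₀) * wz u (p t₁))) *
            ((wv u (pos (1, .inf)) : ℝ) * (wv u (pos (g, .zero)) : ℝ)) := by ring
      rw [e2] at p3
      have e3 : 0 ≤ (wz u I) ^ 2 * (wz u (rho g • I)) ^ 2 * (wz u (p t₀) * wz u (p t₁)) := by
        positivity
      have := mul_nonpos_of_nonneg_of_nonpos e3 hsep'.le
      linarith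
    obtain ⟨t, ht, hz⟩ := Key.ivt (hformu u) hfin
    exact ⟨t, ht, (mem_wall_iff u _).2 hz⟩
  -- wall 1 and wall g are disjoint
  have hne1g : ¬ SameWall 1 g := by
    intro hs
    have : p t₁ ∈ wall 1 := by rw [hs.wall_eq]; exact hp1
    rw [mem_wall_iff] at this
    rw [this] at hpos
    exact lt_irrefl _ hpos
  have hd1g : Disjoint (wall 1) (wall g) := hdisj 1 g cg (Or.inl ⟨c1, hne1g⟩)
  have hdg1 : Disjoint (wall g) (wall 1) := hd1g.symm
  obtain ⟨l, hgal, hsep, hpair⟩ := gallery (1, .inf) (g, .zero)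
  -- no wall of colour α in the gallery
  have hno : ∀ u ∈ l, X.col (X.lab u) ≠ X.col X.d0 := by
    intro u hu cu
    have hs := hsep u hu
    by_cases hu1 : SameWall u 1
    · -- wall 1 does not separate
      obtain ⟨f1, f2, f3⟩ := hu1.form
      have hv : ∀ v, wv u v = wv 1 v := by
        intro v; unfold wv; rw [f1, f2, f3]
      rw [hv, hv, Key.wv_one_inf, one_mul] at hs
      have b1 := wall_sign 1 g hd1g (rho g • I) (p t₁) hgI hp1
      have b2 : 0 < wz 1 (rho g • I) := by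
        by_contra hcon
        push Not at hcon
        have := mul_nonpos_of_nonpos_of_nonneg hcon hpos.le
        linarith
      have b3 := center_zero 1 g (fun hc => Set.disjoint_left.1 hd1g hc hgI)
      have b4 : (wv 1 (pos (g, .zero)) : ℝ) < 0 := by exact_mod_cast hs
      have := mul_neg_of_neg_of_pos b4 b2
      linarith
    · by_cases hug : SameWall u g
      · obtain ⟨f1, f2, f3⟩ := hug.form
        have hv : ∀ v, wv u v = wv g v := by
          intro v; unfold wv; rw [f1, f2, f3]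
        rw [hv, hv] at hs
        have e1 : wv g (pos (g, .zero)) = -1 := by
          have := wv_act g 1 (pos (1, .zero))
          rw [mul_one, Key.wv_one_zero] at this
          rw [← this]
          congr 1
        rw [e1] at hs
        have hs' : 0 < wv g (pos (1, .inf)) := by linarith
        have b1 : rho 1 • I ∉ wall g := by
          rw [map_one, one_smul]
          exact fun hc => Set.disjoint_left.1 hd1g hIw hc
        have b2 := center_inf g 1 b1
        rw [map_one, one_smul] at b2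
        have b3 := wall_sign g 1 hdg1 I (p t₀) hIw hw0
        have b4 : wz g (p t₀) < 0 := by
          obtain ⟨r, hr, e⟩ := wz_smul g 1 (p (t₀ - ε * L))
          rw [mul_one, hh'p] at e
          have : t₀ - ε * L + ε * L = t₀ := by ring
          rw [this] at e
          rw [e]
          exact mul_neg_of_pos_of_neg hr hneg
        have b5 : (0 : ℝ) < wv g (pos (1, .inf)) := by exact_mod_cast hs'
        have b6 : 0 < wz g I := by
          by_contra hcon
          push Not at hcon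
          have := mul_nonpos_of_nonneg_of_nonpos b5.le hcon
          linarith
        have := mul_neg_of_pos_of_neg b6 b4
        linarith
      · obtain ⟨t, ht, htw⟩ := hcross u hs (hdisj u 1 c1 (Or.inl ⟨cu, hu1⟩))
          (hdisj u g cg (Or.inl ⟨cu, hug⟩))
        obtain ⟨k1, k2⟩ := hlt1 t ht
        exact k2 (honce _ h1 u 1 t t₀ cu c1 htw hw0 k1)
  -- equal colours in `cs` are the same wall
  have hsame : ∀ u ∈ l, ∀ v ∈ l, X.col (X.lab u) ∈ cs → X.col (X.lab u) = X.col (X.lab v) →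
      SameWall u v := by
    intro u hu v hv hc huv
    have hc' : X.col (X.lab v) ∈ cs := huv ▸ hc
    obtain ⟨t, ht, htw⟩ := hcross u (hsep u hu) (hdisj u 1 c1 (Or.inr hc))
      (hdisj u g cg (Or.inr hc))
    obtain ⟨t', ht', htw'⟩ := hcross v (hsep v hv) (hdisj v 1 c1 (Or.inr hc'))
      (hdisj v g cg (Or.inr hc'))
    have heq := honce _ (h2 _ hc) u v t t' rfl huv.symm htw htw' (hlt2 t t' ht ht')
    subst heq
    exact X.key_same (hcs _ hc) htw htw' rfl huv.symm
  have hpair' : l.Pairwise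
      (fun u v => X.col (X.lab u) ∈ cs → X.col (X.lab u) ≠ X.col (X.lab v)) := by
    refine List.Pairwise.imp_of_mem ?_ hpair
    intro u v hu hv hne hc he
    exact hne (hsame u hu v hv hc he)
  obtain ⟨m', hm'⟩ := C.reach X hgal ∅ (by rw [X.lab_one]; exact C.start) hno
    (fun u _ => Finset.notMem_empty _) hpair'
  rw [labg] at hm'
  exact C.goal m' hm'

theorem key {cs : Finset ℕ} (C : X.Cert cs) (hα : X.Single (X.col X.d0))
    (hcs : ∀ i ∈ cs, X.Single i) (hα' : X.col X.d0 ∉ cs)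
    (hdis : ∀ i ∈ cs, ∀ d, ¬ X.Meets d i (X.col X.d0))
    (β : Set (Surface X.grp)) (hβ : IsSimpleClosedGeodesic X.grp β)
    (hne : β ≠ X.curve (X.col X.d0)) (h1 : (β ∩ X.curve (X.col X.d0)).encard ≤ 1)
    (h2 : ∀ i ∈ cs, (β ∩ X.curve i).encard ≤ 1) : Disjoint β (X.curve (X.col X.d0)) := by
  rw [Set.disjoint_left]
  rintro x hxβ ⟨u, cu, z₁, hz₁, rfl⟩
  obtain ⟨b, hb, hyp, rfl, hsim⟩ := hβ
  obtain ⟨z₀, hz₀, he⟩ := hxβ
  obtain ⟨g, hg, hs⟩ := hα.sameWall (X := X) cu (v := 1) (by rw [X.lab_one])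
  obtain ⟨k, hk, hke⟩ := Key.proj_eq.1 he.symm
  have hgG : rho g ∈ X.grp := Subgroup.mem_map_of_mem _ hg
  have hkG : rho g * k ∈ X.grp := mul_mem hgG hk
  set q := rho g * k with hq
  have hqz : q • z₀ ∈ wall 1 := by
    rw [hq, mul_smul, hke, ← hs.wall_eq, ← smul_wall]
    exact Set.smul_mem_smul_set hz₁
  have himg : proj X.grp '' axis (q * b * q⁻¹) = proj X.grp '' axis b := by
    rw [← smul_axis]
    ext x
    constructor
    · rintro ⟨z, ⟨y, hy, rfl⟩, rfl⟩
      exact ⟨y, hy, Key.proj_eq.2 ⟨q⁻¹, inv_mem hkG, by simp⟩⟩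
    · rintro ⟨y, hy, rfl⟩
      exact ⟨q • y, Set.smul_mem_smul_set hy, Key.proj_eq.2 ⟨q, hkG, rfl⟩⟩
  refine X.key_aux C hα hcs hα' hdis (q * b * q⁻¹) (mul_mem (mul_mem hkG hb) (inv_mem hkG))
    ((isHyperbolic_conj q b).2 hyp) ?_ (by rw [himg]; exact h1)
    (fun i hi => by rw [himg]; exact h2 i hi) (q • z₀) ?_ hqz
  · intro h hh
    rw [← smul_axis]
    have key := hsim (q⁻¹ * h * q) (mul_mem (mul_mem (inv_mem hkG) hh) hkG)
    have e : h • q • axis b = q • (q⁻¹ * h * q) • axis b := by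
      rw [smul_smul, smul_smul]
      congr 1
      group
    rw [e]
    rcases key with h' | h'
    · left; rw [h']
    · right
      rw [Set.disjoint_left] at h' ⊢
      rintro z ⟨y, hy, rfl⟩ ⟨y', hy', he'⟩
      have : y' = y := smul_left_cancel q he'
      exact h' hy (this ▸ hy')
  · rw [← smul_axis]
    exact Set.smul_mem_smul_set hz₀

end Data

end OneSys
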