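import Pool.Agent.Helper65.OneSys.Free

open UpperHalfPlane Matrix
open scoped MatrixGroups Pointwise

namespace OneSys

theorem Stab.AB : (rho (gA * gB)) 0 0 = 5 ∧ (rho (gA * gB)) 0 1 = 2 ∧ (rho (gA * gB)) 1 0 = 2 ∧
    (rho (gA * gB)) 1 1 = 1 := by
  rw [map_mul, rho_gA, rho_gB]
  refine ⟨?_, ?_, ?_, ?_⟩ <;> simp [matA, matB]

theorem Stab.mul_entries (g h : SL(2, ℤ)) (i j : Fin 2) :
    (g * h) i j = g i 0 * h 0 j + g i 1 * h 1 j := by
  have := congrFun (congrFun (Matrix.SpecialLinearGroup.coe_mul g h) i) j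
  rw [Matrix.mul_apply, Fin.sum_univ_two] at this
  exact this

theorem Stab.det_entries (g : SL(2, ℤ)) : g 0 0 * g 1 1 - g 0 1 * g 1 0 = 1 := by
  have := g.det_coe
  rwa [Matrix.det_fin_two] at this

theorem Stab.ineq (z y : ℤ) (h : z ^ 2 = (1 + 2 * y ^ 2) * y ^ 2) (hy : y ≠ 0) :
    1 + 4 * y ^ 2 < 3 * |z| := by
  have hy2 : 1 ≤ y ^ 2 := by
    have : 0 < y ^ 2 := by positivity
    omega
  have h1 : (1 + 4 * y ^ 2) ^ 2 < (3 * |z|) ^ 2 := by
    rw [mul_pow, sq_abs, h]
    nlinarith [sq_nonneg (y ^ 2)]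
  exact lt_of_pow_lt_pow_left₀ 2 (by positivity) h1

theorem Stab.descent : ∀ (n : ℕ) (w : F2) (x y : ℤ), y.natAbs ≤ n → x ^ 2 - 2 * y ^ 2 = 1 →
    rho w 0 0 = x + y → rho w 0 1 = y → rho w 1 0 = y → rho w 1 1 = x - y →
    ∃ k : ℤ, w = (gA * gB) ^ k := by
  intro n
  induction n with
  | zero =>
    intro w x y hy hx h00 h01 h10 h11
    have hy0 : y = 0 := by omega
    subst hy0
    have hm := (rho_mod w).1
    have hx1 : x = 1 ∨ x = -1 := by
      have : (x - 1) * (x + 1) = 0 := by linarith [hx, sq x]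
      rcases mul_eq_zero.1 this with h | h
      · left; omega
      · right; omega
    have hx2 : x = 1 := by
      rw [h00] at hm
      omega
    refine ⟨0, ?_⟩
    rw [zpow_zero]
    apply rho_injective
    rw [map_one]
    ext i j
    fin_cases i <;> fin_cases j <;> simp [h00, h01, h10, h11, hx2]
  | succ n ih =>
    intro w x y hy hx h00 h01 h10 h11
    by_cases hy0 : y = 0
    · exact ih w x y (by omega) hx h00 h01 h10 h11
    obtain ⟨e00, e01, e10, e11⟩ := Stab.AB
    rcases lt_trichotomy (x * y) 0 with hxy | hxy | hxy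
    · -- multiply by `AB`
      have hk := ih (w * (gA * gB)) (3 * x + 4 * y) (3 * y + 2 * x) ?_ ?_ ?_ ?_ ?_ ?_
      · obtain ⟨k, hk⟩ := hk
        refine ⟨k - 1, ?_⟩
        rw [_root_.zpow_sub_one, ← hk]
        group
      · have h1 : (3 * y + 2 * x).natAbs < y.natAbs := by
          rw [Int.natAbs_lt_iff_sq_lt]
          have h2 := Stab.ineq (x * y) y (by rw [mul_pow]; nlinarith) hy0
          have h3 : 1 + 4 * y ^ 2 < 3 * |x * y| := h2
          rw [abs_of_neg hxy] at h3
          nlinarith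
        omega
      · nlinarith
      · rw [map_mul, Stab.mul_entries, h00, h01, e00, e10]; ring
      · rw [map_mul, Stab.mul_entries, h00, h01, e01, e11]; ring
      · rw [map_mul, Stab.mul_entries, h10, h11, e00, e10]; ring
      · rw [map_mul, Stab.mul_entries, h10, h11, e01, e11]; ring
    · exfalso
      rcases mul_eq_zero.1 hxy with h | h
      · subst h
        nlinarith [sq_nonneg y]
      · exact hy0 h
    · -- multiply by the inverse of `AB`
      have i00 : (rho (gA * gB)⁻¹) 0 0 = 1 := by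
        rw [map_inv, Matrix.SpecialLinearGroup.SL2_inv_expl]
        simpa using e11
      have i01 : (rho (gA * gB)⁻¹) 0 1 = -2 := by
        rw [map_inv, Matrix.SpecialLinearGroup.SL2_inv_expl]
        simpa using e01
      have i10 : (rho (gA * gB)⁻¹) 1 0 = -2 := by
        rw [map_inv, Matrix.SpecialLinearGroup.SL2_inv_expl]
        simpa using e10
      have i11 : (rho (gA * gB)⁻¹) 1 1 = 5 := by
        rw [map_inv, Matrix.SpecialLinearGroup.SL2_inv_expl]
        simpa using e00
      have hk := ih (w * (gA * gB)⁻¹) (3 * x - 4 * y) (3 * y - 2 * x) ?_ ?_ ?_ ?_ ?_ ?_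
      · obtain ⟨k, hk⟩ := hk
        refine ⟨k + 1, ?_⟩
        rw [_root_.zpow_add_one, ← hk]
        group
      · have h1 : (3 * y - 2 * x).natAbs < y.natAbs := by
          rw [Int.natAbs_lt_iff_sq_lt]
          have h2 := Stab.ineq (x * y) y (by rw [mul_pow]; nlinarith) hy0
          have h3 : 1 + 4 * y ^ 2 < 3 * |x * y| := h2
          rw [abs_of_pos hxy] at h3
          nlinarith
        omega
      · nlinarith
      · rw [map_mul, Stab.mul_entries, h00, h01, i00, i10]; ring
      · rw [map_mul, Stab.mul_entries, h00, h01, i01, i11]; ring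
      · rw [map_mul, Stab.mul_entries, h10, h11, i00, i10]; ring
      · rw [map_mul, Stab.mul_entries, h10, h11, i01, i11]; ring

theorem sameWall_of_form (u v : F2) (h : (ca u = ca v ∧ cb u = cb v ∧ cc u = cc v) ∨
    (ca u = -ca v ∧ cb u = -cb v ∧ cc u = -cc v)) : SameWall u v := by
  obtain ⟨e, he, h1, h2, h3⟩ : ∃ e : ℤ, (e = 1 ∨ e = -1) ∧ ca u = e * ca v ∧ cb u = e * cb v ∧
      cc u = e * cc v := by
    rcases h with h | h
    · exact ⟨1, Or.inl rfl, by omega, by omega, by omega⟩
    · exact ⟨-1, Or.inr rfl, by omega, by omega, by omega⟩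
  have key : ∀ y : ℤ × ℤ, wv (v⁻¹ * u) y = e * wv 1 y := by
    intro y
    have a1 := wv_act v⁻¹ u (act (rho v) y)
    have a2 := wv_act v⁻¹ v (act (rho v) y)
    rw [← act_mul, ← map_mul, inv_mul_cancel, map_one, act_one] at a1 a2
    rw [a1]
    have a2' : wv 1 y = wv v (act (rho v) y) := a2
    rw [a2']
    unfold wv
    rw [h1, h2, h3]
    ring
  have k1 := key (1, 0)
  have k2 := key (0, 1)
  have k3 := key (1, 1)
  have c1 : ca 1 = 1 := by simp [ca]
  have c2 : cb 1 = -1 := by simp [cb]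
  have c3 : cc 1 = -1 := by simp [cc]
  simp only [wv, c1, c2, c3] at k1 k2 k3
  have hw : (v⁻¹ * u)⁻¹ = u⁻¹ * v := by group
  simp only [ca, cb, cc, hw] at k1 k2 k3
  set w := u⁻¹ * v with hwd
  have hd := Stab.det_entries (rho w)
  obtain ⟨m1, m2, m3, m4⟩ := rho_mod w
  have fin : ∃ k : ℤ, w = (gA * gB) ^ k := by
    set p := (rho w) 0 0 with hp
    set q := (rho w) 0 1 with hq
    set r := (rho w) 1 0 with hr
    set s := (rho w) 1 1 with hs
    have q1 : p ^ 2 - 2 * p * r - r ^ 2 = e := by linarith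
    have q3 : q ^ 2 - 2 * q * s - s ^ 2 = -e := by linarith
    have q2 : p * q - (p * s + q * r) - r * s = -e := by linarith
    have l1 : p - r = e * (s + r) := by
      linear_combination (-(p - r)) * hd + s * q1 - r * q2
    have l2 : q - s = e * (r - s) := by
      linear_combination (-(q - s)) * hd + s * q2 - r * q3
    rcases he with rfl | rfl
    · have hqr : q = r := by linarith
      refine Stab.descent _ w (s + q) q le_rfl ?_ ?_ ?_ ?_ ?_
      · have hp' : p = s + 2 * q := by linarith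
        rw [hp', ← hqr] at hd
        linarith [hd, sq q, sq s]
      · rw [← hp]; linarith
      · exact hq.symm
      · rw [← hr]; exact hqr.symm
      · rw [← hs]; ring
    · exfalso
      have : p = -s := by linarith
      omega
  obtain ⟨k, hk⟩ := fin
  refine ⟨k, ?_⟩
  rw [← hk, hwd]
  group

end OneSys
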